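import Mathlib

set_option autoImplicit false

/-!
# Words: branching lexicographic order, Lyndon words
-/

namespace Pool.Agent.H9

variable {α : Type*} [LinearOrder α]

/-- `BLt u v`: the words `u`, `v` differ at some position, and at the first such position
`u` has the smaller letter. -/
inductive BLt : List α → List α → Prop
  | head {a b : α} {s t : List α} : a < b → BLt (a :: s) (b :: t)
  | cons {a : α} {s t : List α} : BLt s t → BLt (a :: s) (a :: t)

theorem BLt.append {u v : List α} (h : BLt u v) (s t : List α) : BLt (u ++ s) (v ++ t) := by
  induction h with
  | head hab => exact BLt.head hab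
  | cons _ ih => exact BLt.cons ih

theorem BLt.append_left {u v : List α} (h : BLt u v) (p : List α) : BLt (p ++ u) (p ++ v) := by
  induction p with
  | nil => exact h
  | cons a p ih => exact BLt.cons ih

theorem BLt.trans {u v w : List α} (h : BLt u v) (h' : BLt v w) : BLt u w := by
  induction h generalizing w with
  | head hab =>
    cases h' with
    | head hbc => exact BLt.head (hab.trans hbc)
    | cons _ => exact BLt.head hab
  | cons _ ih =>
    cases h' with
    | head hbc => exact BLt.head hbc
    | cons h'' => exact BLt.cons (ih h'')

theorem BLt.irrefl {u : List α} : ¬ BLt u u := by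
  intro h
  induction u with
  | nil => cases h
  | cons a u ih =>
    cases h with
    | head h => exact lt_irrefl _ h
    | cons h => exact ih h

theorem BLt.asymm {u v : List α} (h : BLt u v) : ¬ BLt v u := fun h' => BLt.irrefl (h.trans h')

theorem BLt.not_prefix {u v : List α} (h : BLt u v) : ¬ u <+: v := by
  rintro ⟨t, rfl⟩
  induction u with
  | nil => cases h
  | cons a u ih =>
    cases h with
    | head h => exact lt_irrefl _ h
    | cons h => exact ih h

theorem BLt.not_prefix' {u v : List α} (h : BLt u v) : ¬ v <+: u := by
  rintro ⟨t, rfl⟩
  induction v with
  | nil => cases h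
  | cons a u ih =>
    cases h with
    | head h => exact lt_irrefl _ h
    | cons h => exact ih h

theorem blt_tetra (u v : List α) : BLt u v ∨ BLt v u ∨ u <+: v ∨ v <+: u := by
  induction u generalizing v with
  | nil => right; right; left; exact List.nil_prefix
  | cons a u ih =>
    cases v with
    | nil => right; right; right; exact List.nil_prefix
    | cons b v =>
      rcases lt_trichotomy a b with h | h | h
      · left; exact BLt.head h
      · subst h
        rcases ih v with h | h | h | h
        · left; exact BLt.cons h
        · right; left; exact BLt.cons h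
        · right; right; left; exact List.cons_prefix_cons.2 ⟨rfl, h⟩
        · right; right; right; exact List.cons_prefix_cons.2 ⟨rfl, h⟩
      · right; left; exact BLt.head h

theorem blt_tri {u v : List α} (hl : u.length = v.length) : BLt u v ∨ BLt v u ∨ u = v := by
  rcases blt_tetra u v with h | h | h | h
  · exact Or.inl h
  · exact Or.inr (Or.inl h)
  · exact Or.inr (Or.inr (h.eq_of_length hl))
  · exact Or.inr (Or.inr (h.eq_of_length hl.symm).symm)

/-- cancelling a common prefix -/
theorem BLt.of_append_left {p u v : List α} (h : BLt (p ++ u) (p ++ v)) : BLt u v := by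
  induction p with
  | nil => exact h
  | cons a p ih =>
    cases h with
    | head h => exact absurd h (lt_irrefl _)
    | cons h => exact ih h

/-- Lyndon words, via the branching order. -/
def Lyndon (u : List α) : Prop :=
  u ≠ [] ∧ ∀ s t, u = s ++ t → s ≠ [] → t ≠ [] → BLt u t

theorem Lyndon.singleton (a : α) : Lyndon [a] := by
  refine ⟨by simp, ?_⟩
  intro s t h hs ht
  exfalso
  have := congrArg List.length h
  simp only [List.length_append, List.length_singleton] at this
  have h1 := List.length_pos_of_ne_nil hs
  have h2 := List.length_pos_of_ne_nil ht
  omega

/-- total lexicographic order: prefix is smaller -/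
def LLt (u v : List α) : Prop := BLt u v ∨ (u <+: v ∧ u ≠ v)

theorem LLt.trans {u v w : List α} (h : LLt u v) (h' : LLt v w) : LLt u w := by
  rcases h with h | ⟨h, hne⟩
  · rcases h' with h' | ⟨h', _⟩
    · exact Or.inl (h.trans h')
    · obtain ⟨t, rfl⟩ := h'
      have := h.append [] t
      simp only [List.append_nil] at this
      exact Or.inl this
  · rcases h' with h' | ⟨h', hne'⟩
    · obtain ⟨t, rfl⟩ := h
      -- u ++ t << w
      rcases blt_tetra u w with h1 | h1 | h1 | h1
      · exact Or.inl h1
      · exfalso
        have h3 := h1.append [] t
        simp only [List.append_nil] at h3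
        exact BLt.irrefl (h'.trans h3)
      · by_cases he : u = w
        · subst he
          exact absurd (List.prefix_append u t) (h'.not_prefix')
        · exact Or.inr ⟨h1, he⟩
      · by_cases he : u = w
        · subst he
          exact absurd (List.prefix_append u t) (h'.not_prefix')
        · exact absurd (h1.trans (List.prefix_append u t)) h'.not_prefix'
    · refine Or.inr ⟨h.trans h', ?_⟩
      rintro rfl
      exact hne (h.eq_of_length (le_antisymm h.length_le h'.length_le))

theorem LLt.irrefl {u : List α} : ¬ LLt u u := by
  rintro (h | ⟨_, h⟩)
  · exact BLt.irrefl h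
  · exact h rfl

theorem llt_total {u v : List α} (h : u ≠ v) : LLt u v ∨ LLt v u := by
  rcases blt_tetra u v with h1 | h1 | h1 | h1
  · exact Or.inl (Or.inl h1)
  · exact Or.inr (Or.inl h1)
  · exact Or.inl (Or.inr ⟨h1, h⟩)
  · exact Or.inr (Or.inr ⟨h1, h.symm⟩)

/-- A nonempty finite set of words has an `LLt`-minimal element. -/
theorem exists_llt_min (l : List (List α)) (hl : l ≠ []) :
    ∃ t ∈ l, ∀ t' ∈ l, t' ≠ t → LLt t t' := by
  induction l with
  | nil => exact absurd rfl hl
  | cons a l ih =>
    by_cases h : l = []
    · subst h
      refine ⟨a, by simp, ?_⟩
      intro t' ht' hne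
      simp only [List.mem_singleton] at ht'
      exact absurd ht' hne
    · obtain ⟨t, ht, hmin⟩ := ih h
      by_cases hat : a = t
      · subst hat
        refine ⟨a, by simp, ?_⟩
        intro t' ht' hne
        rcases List.mem_cons.1 ht' with h1 | h1
        · exact absurd h1 hne
        · exact hmin t' h1 hne
      · rcases llt_total hat with h1 | h1
        · refine ⟨a, by simp, ?_⟩
          intro t' ht' hne
          rcases List.mem_cons.1 ht' with h2 | h2
          · exact absurd h2 hne
          · by_cases h3 : t' = t
            · subst h3; exact h1
            · exact h1.trans (hmin t' h2 h3)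
        · refine ⟨t, by simp [ht], ?_⟩
          intro t' ht' hne
          rcases List.mem_cons.1 ht' with h2 | h2
          · subst h2; exact h1
          · exact hmin t' h2 hne

theorem Lyndon.factor {u : List α} (hu : Lyndon u) (h2 : 2 ≤ u.length) :
    ∃ u' u'', u = u' ++ u'' ∧ Lyndon u' ∧ Lyndon u'' := by
  classical
  -- the list of proper nonempty suffixes
  let l : List (List α) := (List.range (u.length - 1)).map (fun i => u.drop (i + 1))
  have hmem : ∀ t, t ∈ l ↔ ∃ s, s ≠ [] ∧ t ≠ [] ∧ u = s ++ t := by
    intro t
    simp only [l, List.mem_map, List.mem_range]
    constructor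
    · rintro ⟨i, hi, rfl⟩
      refine ⟨u.take (i + 1), ?_, ?_, (List.take_append_drop _ _).symm⟩
      · intro h
        have := congrArg List.length h
        simp only [List.length_take, List.length_nil] at this
        omega
      · intro h
        have := congrArg List.length h
        simp only [List.length_drop, List.length_nil] at this
        omega
    · rintro ⟨s, hs, ht, h⟩
      have hs' := List.length_pos_of_ne_nil hs
      have ht' := List.length_pos_of_ne_nil ht
      refine ⟨s.length - 1, ?_, ?_⟩
      · rw [h, List.length_append]; omega
      · have : s.length - 1 + 1 = s.length := by omega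
        rw [this, h]; simp
  have hl : l ≠ [] := by
    intro h
    have := congrArg List.length h
    simp only [l, List.length_map, List.length_range, List.length_nil] at this
    omega
  obtain ⟨u'', hu'', hmin⟩ := exists_llt_min l hl
  obtain ⟨u', hu', hu''ne, huu⟩ := (hmem u'').1 hu''
  refine ⟨u', u'', huu, ⟨hu', ?_⟩, ⟨hu''ne, ?_⟩⟩
  · -- u' is Lyndon
    intro s t hst hs ht
    -- t ++ u'' is a proper suffix of u
    have hsuf : u = s ++ (t ++ u'') := by rw [huu, hst, List.append_assoc]
    have h1 : BLt u (t ++ u'') := hu.2 s (t ++ u'') hsuf hs (by simp [ht])
    rw [huu] at h1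
    rcases blt_tetra u' t with h3 | h3 | h3 | h3
    · exact h3
    · exact absurd (h1.trans (h3.append u'' u'')) BLt.irrefl
    · -- u' prefix of t impossible by length
      have := h3.length_le
      have h4 := congrArg List.length hst
      simp only [List.length_append] at h4
      have := List.length_pos_of_ne_nil hs
      omega
    · obtain ⟨r, hr⟩ := h3
      -- u' = t ++ r
      rw [← hr, List.append_assoc] at h1
      have h5 : BLt (r ++ u'') u'' := h1.of_append_left
      have hrne : r ≠ [] := by
        rintro rfl
        simp only [List.nil_append] at h5
        exact BLt.irrefl h5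
      have h6 : r ++ u'' ∈ l := by
        rw [hmem]
        exact ⟨t, ht, by simp [hrne], by rw [huu, ← hr, List.append_assoc]⟩
      have h7 : r ++ u'' ≠ u'' := by
        intro h
        rw [h] at h5
        exact BLt.irrefl h5
      have h8 := hmin _ h6 h7
      exact absurd (LLt.trans (Or.inl h5) h8) LLt.irrefl
  · -- u'' is Lyndon
    intro s t hst hs ht
    have h6 : t ∈ l := by
      rw [hmem]
      exact ⟨u' ++ s, by simp [hu'], ht, by rw [huu, hst, List.append_assoc]⟩
    have h7 : t ≠ u'' := by
      intro h
      have := congrArg List.length hst
      rw [← h] at this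
      simp only [List.length_append] at this
      have := List.length_pos_of_ne_nil hs
      omega
    rcases hmin t h6 h7 with h8 | ⟨h8, _⟩
    · exact h8
    · have := h8.length_le
      have h9 := congrArg List.length hst
      simp only [List.length_append] at h9
      have := List.length_pos_of_ne_nil hs
      omega

/-- moving a larger Lyndon word to the front makes the concatenation larger -/
theorem blt_move (as : List (List α)) (v : List α) (hne : as ≠ []) (h : ∀ a ∈ as, BLt a v) :
    BLt (as.flatten ++ v) (v ++ as.flatten) := by
  induction as with
  | nil => exact absurd rfl hne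
  | cons a as ih =>
    have ha : BLt a v := h a (by simp)
    by_cases h0 : as = []
    · subst h0
      simp only [List.flatten_cons, List.flatten_nil, List.append_nil]
      exact ha.append v a
    · have h1 := ih h0 (fun b hb => h b (by simp [hb]))
      have h2 : BLt (a ++ (as.flatten ++ v)) (a ++ (v ++ as.flatten)) := h1.append_left a
      have h3 : BLt (a ++ (v ++ as.flatten)) (v ++ (a ++ as.flatten)) := ha.append _ _
      simp only [List.flatten_cons, List.append_assoc]
      exact h2.trans h3

theorem blt_eraseIdx (us : List (List α)) (hp : us.Pairwise BLt) (i : ℕ) (hi : i < us.length)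
    (hi0 : 0 < i) : BLt us.flatten (us[i] ++ (us.eraseIdx i).flatten) := by
  have h1 : us = us.take i ++ us[i] :: us.drop (i + 1) := by
    rw [List.getElem_cons_drop, List.take_append_drop]
  have h2 : us.eraseIdx i = us.take i ++ us.drop (i + 1) := List.eraseIdx_eq_take_drop_succ ..
  have h3 : us.flatten = (us.take i).flatten ++ us[i] ++ (us.drop (i+1)).flatten := by
    conv_lhs => rw [h1]
    rw [List.flatten_append, List.flatten_cons, List.append_assoc]
  rw [h2, h3, List.flatten_append]
  rw [← List.append_assoc]
  refine BLt.append ?_ _ _
  refine blt_move _ _ ?_ ?_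
  · intro h
    have := congrArg List.length h
    simp only [List.length_take, List.length_nil] at this
    omega
  · intro a ha
    rw [h1, List.pairwise_append] at hp
    exact hp.2.2 a ha _ List.mem_cons_self

end Pool.Agent.H9
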