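import Mathlib
import Pool.Agent.H9.Words

set_option autoImplicit false
set_option linter.unusedSectionVars false

/-!
# Filtered algebras, iterated differences and leading words
-/

namespace Pool.Agent.H9

variable {k : Type*} [Field k] {A : Type*} [Ring A] [Algebra k A]

/-- a multiplicative decreasing filtration -/
structure IsFilt (J : ℕ → Submodule k A) : Prop where
  zero : J 0 = ⊤
  succ_le : ∀ n, J (n + 1) ≤ J n
  mul_mem : ∀ {m n : ℕ} {a b : A}, a ∈ J m → b ∈ J n → a * b ∈ J (m + n)

theorem IsFilt.anti {J : ℕ → Submodule k A} (hJ : IsFilt J) : Antitone J :=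
  antitone_nat_of_succ_le hJ.succ_le

theorem IsFilt.le {J : ℕ → Submodule k A} (hJ : IsFilt J) {m n : ℕ} (h : m ≤ n) {a : A}
    (ha : a ∈ J n) : a ∈ J m := hJ.anti h ha

theorem IsFilt.mem_zero {J : ℕ → Submodule k A} (hJ : IsFilt J) (a : A) : a ∈ J 0 := by
  rw [hJ.zero]; trivial

section diff

variable {Γ : Type*} [Group Γ]

/-- difference operator -/
def Dl (h : Γ) (F : Γ → A) : Γ → A := fun z => F (z * h) - F z

/-- iterated difference; the head of the list is applied first -/
def DD : List Γ → (Γ → A) → Γ → A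
  | [], F => F
  | h :: l, F => DD l (Dl h F)

@[simp] theorem DD_nil (F : Γ → A) : DD [] F = F := rfl
@[simp] theorem DD_cons (h : Γ) (l : List Γ) (F : Γ → A) : DD (h :: l) F = DD l (Dl h F) := rfl

theorem Dl_add (h : Γ) (F G : Γ → A) : Dl h (F + G) = Dl h F + Dl h G := by
  funext z; simp only [Dl, Pi.add_apply]; abel

theorem Dl_smul (h : Γ) (c : k) (F : Γ → A) : Dl h (c • F) = c • Dl h F := by
  funext z; simp only [Dl, Pi.smul_apply, smul_sub]

theorem Dl_zero (h : Γ) : Dl h (0 : Γ → A) = 0 := by
  funext z; simp [Dl]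

theorem Dl_mul (h : Γ) (F G : Γ → A) :
    Dl h (F * G) = Dl h F * G + F * Dl h G + Dl h F * Dl h G := by
  funext z; simp only [Dl, Pi.mul_apply, Pi.add_apply]; noncomm_ring

theorem DD_add (l : List Γ) (F G : Γ → A) : DD l (F + G) = DD l F + DD l G := by
  induction l generalizing F G with
  | nil => rfl
  | cons h l ih => simp only [DD_cons, Dl_add, ih]

theorem DD_smul (l : List Γ) (c : k) (F : Γ → A) : DD l (c • F) = c • DD l F := by
  induction l generalizing F with
  | nil => rfl
  | cons h l ih => simp only [DD_cons, Dl_smul, ih]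

theorem DD_zero (l : List Γ) : DD l (0 : Γ → A) = 0 := by
  induction l with
  | nil => rfl
  | cons h l ih => simp only [DD_cons, Dl_zero, ih]

theorem DD_sum {ι : Type*} (l : List Γ) (s : Finset ι) (F : ι → Γ → A) :
    DD l (∑ i ∈ s, F i) = ∑ i ∈ s, DD l (F i) := by
  classical
  induction s using Finset.induction_on with
  | empty => simp [DD_zero]
  | insert i s hi ih => rw [Finset.sum_insert hi, DD_add, ih, Finset.sum_insert hi]

theorem DD_append (p l : List Γ) (F : Γ → A) : DD (p ++ l) F = DD l (DD p F) := by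
  induction p generalizing F with
  | nil => rfl
  | cons h p ih => simp only [List.cons_append, DD_cons, ih]

variable (J : ℕ → Submodule k A) (S : ℕ → Subgroup Γ) (M : ℕ)

/-- admissible lists of perturbations with degrees -/
def AdmL (l : List (ℕ × Γ)) : Prop := ∀ q ∈ l, M ≤ q.1 ∧ q.2 ∈ S q.1

/-- `F` is of order `(a, c)` -/
def OrdF (a c : ℕ) (F : Γ → A) : Prop :=
  ∀ l : List (ℕ × Γ), AdmL S M l → ∀ z ∈ S M,
    DD (l.map Prod.snd) F z ∈ J (c + (l.map Prod.fst).sum + (a - M * l.length))

variable {J S M}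

theorem OrdF.mono (hJ : IsFilt J) {a a' c c' : ℕ} {F : Γ → A} (h : OrdF J S M a c F)
    (ha : a' ≤ a) (hc : c' ≤ c) : OrdF J S M a' c' F := by
  intro l hl z hz
  exact hJ.le (by omega) (h l hl z hz)

theorem OrdF.zero_fun {a c : ℕ} : OrdF J S M a c (0 : Γ → A) := by
  intro l _ z _
  rw [DD_zero]; exact Submodule.zero_mem _

theorem OrdF.add {a c : ℕ} {F G : Γ → A} (hF : OrdF J S M a c F) (hG : OrdF J S M a c G) :
    OrdF J S M a c (F + G) := by
  intro l hl z hz
  rw [DD_add]
  exact Submodule.add_mem _ (hF l hl z hz) (hG l hl z hz)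

theorem OrdF.smul {a c : ℕ} {F : Γ → A} (hF : OrdF J S M a c F) (x : k) :
    OrdF J S M a c (x • F) := by
  intro l hl z hz
  rw [DD_smul]
  exact Submodule.smul_mem _ _ (hF l hl z hz)

theorem OrdF.sum {ι : Type*} {a c : ℕ} {s : Finset ι} {F : ι → Γ → A}
    (hF : ∀ i ∈ s, OrdF J S M a c (F i)) : OrdF J S M a c (∑ i ∈ s, F i) := by
  intro l hl z hz
  rw [DD_sum, Finset.sum_apply]
  exact Submodule.sum_mem _ fun i hi => hF i hi l hl z hz

theorem OrdF.dl {a c m : ℕ} {F : Γ → A} {h : Γ} (hF : OrdF J S M a c F) (hm : M ≤ m)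
    (hh : h ∈ S m) : OrdF J S M (a - M) (c + m) (Dl h F) := by
  intro l hl z hz
  have h1 := hF ((m, h) :: l) (by
    intro q hq
    rcases List.mem_cons.1 hq with h2 | h2
    · subst h2; exact ⟨hm, hh⟩
    · exact hl q h2) z hz
  simp only [List.map_cons, DD_cons, List.sum_cons, List.length_cons] at h1
  have h2 : c + (m + (l.map Prod.fst).sum) + (a - M * (l.length + 1)) =
      c + m + (l.map Prod.fst).sum + (a - M - M * l.length) := by
    rw [Nat.mul_succ]; omega
  rw [h2] at h1
  exact h1

theorem AdmL.tail {q : ℕ × Γ} {l : List (ℕ × Γ)} (h : AdmL S M (q :: l)) : AdmL S M l :=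
  fun q' hq' => h q' (List.mem_cons_of_mem _ hq')

theorem OrdF.mul (hJ : IsFilt J) {a b c c' : ℕ} {F G : Γ → A} (hF : OrdF J S M a c F)
    (hG : OrdF J S M b c' G) : OrdF J S M (a + b) (c + c') (F * G) := by
  intro l
  induction l generalizing F G a b c c' with
  | nil =>
    intro _ z hz
    have h1 := hF [] (by intro q hq; simp at hq) z hz
    have h2 := hG [] (by intro q hq; simp at hq) z hz
    simp only [List.map_nil, DD_nil, List.sum_nil, List.length_nil, mul_zero, Nat.sub_zero] at *
    exact hJ.le (by omega) (hJ.mul_mem h1 h2)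
  | cons q l ih =>
    intro hl z hz
    obtain ⟨hm, hh⟩ := hl q (List.mem_cons_self)
    have hl' := hl.tail
    simp only [List.map_cons, DD_cons, List.sum_cons, List.length_cons]
    rw [Dl_mul, DD_add, DD_add]
    have hdF := hF.dl hm hh
    have hdG := hG.dl hm hh
    have e1 := ih hdF hG hl' z hz
    have e2 := ih hF hdG hl' z hz
    have e3 := ih hdF hdG hl' z hz
    refine Submodule.add_mem _ (Submodule.add_mem _ ?_ ?_) ?_
    · refine hJ.le ?_ e1
      rw [Nat.mul_succ]; omega
    · refine hJ.le ?_ e2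
      rw [Nat.mul_succ]; omega
    · refine hJ.le ?_ e3
      rw [Nat.mul_succ]; omega

/-- first comparison lemma -/
theorem DD_mul_sub (hJ : IsFilt J) (hM : 1 ≤ M) {c b c' : ℕ} {F G : Γ → A}
    (hF : OrdF J S M 0 c F) (hG : OrdF J S M b c' G) (l : List (ℕ × Γ)) (hl : AdmL S M l)
    (hb : M * l.length ≤ b) (z : Γ) (hz : z ∈ S M) :
    DD (l.map Prod.snd) (F * G) z - F z * DD (l.map Prod.snd) G z ∈
      J (c + c' + (l.map Prod.fst).sum + 1) := by
  induction l generalizing G b c' with
  | nil => simp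
  | cons q l ih =>
    obtain ⟨hm, hh⟩ := hl q (List.mem_cons_self)
    have hl' := hl.tail
    simp only [List.map_cons, DD_cons, List.sum_cons, List.length_cons] at hb ⊢
    rw [Nat.mul_succ] at hb
    rw [Dl_mul, DD_add, DD_add, Pi.add_apply, Pi.add_apply]
    have hdF := hF.dl hm hh
    have hdG := hG.dl hm hh
    have e1 := (hdF.mul hJ hG) l hl' z hz
    have e2 := ih hdG hl' (by omega)
    have e3 := (hdF.mul hJ hdG) l hl' z hz
    have h1 : DD (l.map Prod.snd) (Dl q.2 F * G) z + DD (l.map Prod.snd) (F * Dl q.2 G) z +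
        DD (l.map Prod.snd) (Dl q.2 F * Dl q.2 G) z - F z * DD (l.map Prod.snd) (Dl q.2 G) z =
        DD (l.map Prod.snd) (Dl q.2 F * G) z + (DD (l.map Prod.snd) (F * Dl q.2 G) z -
          F z * DD (l.map Prod.snd) (Dl q.2 G) z) +
        DD (l.map Prod.snd) (Dl q.2 F * Dl q.2 G) z := by abel
    rw [h1]
    refine Submodule.add_mem _ (Submodule.add_mem _ ?_ ?_) ?_
    · refine hJ.le ?_ e1
      omega
    · refine hJ.le ?_ e2
      omega
    · refine hJ.le ?_ e3
      omega

/-- leading part of `DD l (F * G)` when `F` is a letter -/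
def peel (F G : Γ → A) (z : Γ) : List Γ → A
  | [] => 0
  | h :: l => Dl h F z * DD l G z + peel F (Dl h G) z l

theorem peel_spec (hJ : IsFilt J) (hM : 1 ≤ M) {b c' : ℕ} {F G : Γ → A}
    (hF : OrdF J S M M 0 F) (hG : OrdF J S M b c' G) (l : List (ℕ × Γ)) (hl : AdmL S M l)
    (hb : M * (l.length - 1) ≤ b) (z : Γ) (hz : z ∈ S M) :
    DD (l.map Prod.snd) (F * G) z - peel F G z (l.map Prod.snd) ∈
      J (c' + (l.map Prod.fst).sum + 1) := by
  induction l generalizing G b c' with
  | nil =>
    have h1 := hF [] (by intro q hq; simp at hq) z hz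
    have h2 := hG [] (by intro q hq; simp at hq) z hz
    simp only [List.map_nil, DD_nil, List.sum_nil, List.length_nil, mul_zero, Nat.sub_zero,
      peel, sub_zero, Pi.mul_apply] at *
    exact hJ.le (by omega) (hJ.mul_mem h1 h2)
  | cons q l ih =>
    obtain ⟨hm, hh⟩ := hl q (List.mem_cons_self)
    have hl' := hl.tail
    simp only [List.map_cons, DD_cons, List.sum_cons, List.length_cons, peel,
      Nat.add_sub_cancel] at hb ⊢
    rw [Dl_mul, DD_add, DD_add, Pi.add_apply, Pi.add_apply]
    have hdF := hF.dl hm hh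
    have hdG := hG.dl hm hh
    have hF0 : OrdF J S M 0 (0 + q.1) (Dl q.2 F) := by
      have := hdF
      rwa [Nat.sub_self] at this
    have e1 := DD_mul_sub hJ hM hF0 hG l hl' hb z hz
    have e2 := ih hdG hl' (by
      rcases Nat.eq_zero_or_pos l.length with h0 | h0
      · rw [h0]; simp
      · obtain ⟨n, hn⟩ := Nat.exists_eq_succ_of_ne_zero h0.ne'
        rw [hn, Nat.mul_succ] at hb
        rw [hn]
        simp only [Nat.succ_eq_add_one, Nat.add_sub_cancel]
        omega)
    have e3 := (hdF.mul hJ hdG) l hl' z hz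
    have h1 : DD (l.map Prod.snd) (Dl q.2 F * G) z + DD (l.map Prod.snd) (F * Dl q.2 G) z +
        DD (l.map Prod.snd) (Dl q.2 F * Dl q.2 G) z -
        (Dl q.2 F z * DD (l.map Prod.snd) G z + peel F (Dl q.2 G) z (l.map Prod.snd)) =
        (DD (l.map Prod.snd) (Dl q.2 F * G) z - Dl q.2 F z * DD (l.map Prod.snd) G z) +
        (DD (l.map Prod.snd) (F * Dl q.2 G) z - peel F (Dl q.2 G) z (l.map Prod.snd)) +
        DD (l.map Prod.snd) (Dl q.2 F * Dl q.2 G) z := by abel
    rw [h1]
    refine Submodule.add_mem _ (Submodule.add_mem _ ?_ ?_) ?_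
    · refine hJ.le ?_ e1
      omega
    · refine hJ.le ?_ e2
      omega
    · refine hJ.le ?_ e3
      omega

/-! ### letters and words -/

variable {β : Type*} (E : β → Γ →* A)

/-- the letter functions `x - 1`, `y - 1` -/
def letter (b : β) : Γ → A := fun z => E b z - 1

/-- the word functions -/
def WW (w : List β) : Γ → A := (w.map (letter E)).prod

theorem WW_nil : WW E ([] : List β) = 1 := rfl
theorem WW_cons (b : β) (w : List β) : WW E (b :: w) = letter E b * WW E w := by
  simp [WW]

variable {E}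

theorem Dl_letter (b : β) (h z : Γ) : Dl h (letter E b) z = E b z * (E b h - 1) := by
  simp only [Dl, letter, map_mul]; noncomm_ring

theorem ordF_const_mul (hJ : IsFilt J) (hE : ∀ b m, ∀ h ∈ S m, E b h - 1 ∈ J m) (b : β) {c : ℕ}
    {a : A} (ha : a ∈ J c) : OrdF J S M 0 c (fun z => E b z * a) := by
  intro l
  induction l generalizing a c with
  | nil =>
    intro _ z _
    simp only [List.map_nil, DD_nil, List.sum_nil, List.length_nil, mul_zero, Nat.sub_zero]
    exact hJ.le (by omega) (hJ.mul_mem (hJ.mem_zero (E b z)) ha)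
  | cons q l ih =>
    intro hl z hz
    obtain ⟨hm, hh⟩ := hl q (List.mem_cons_self)
    have hl' := hl.tail
    have h1 : Dl q.2 (fun z => E b z * a) = fun z => E b z * ((E b q.2 - 1) * a) := by
      funext z
      simp only [Dl, map_mul]; noncomm_ring
    have h2 : (E b q.2 - 1) * a ∈ J (q.1 + c) := hJ.mul_mem (hE b q.1 q.2 hh) ha
    have h3 := ih h2 hl' z hz
    simp only [List.map_cons, DD_cons, List.sum_cons, List.length_cons]
    rw [h1]
    refine hJ.le ?_ h3
    omega

theorem ordF_letter (hJ : IsFilt J) (hE : ∀ b m, ∀ h ∈ S m, E b h - 1 ∈ J m) (b : β) :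
    OrdF J S M M 0 (letter E b) := by
  intro l hl z hz
  cases l with
  | nil =>
    simp only [List.map_nil, DD_nil, List.sum_nil, List.length_nil, mul_zero, Nat.sub_zero]
    exact hJ.le (by omega) (hE b M z hz)
  | cons q l =>
    obtain ⟨hm, hh⟩ := hl q (List.mem_cons_self)
    have hl' := hl.tail
    simp only [List.map_cons, DD_cons, List.sum_cons, List.length_cons]
    have h1 : Dl q.2 (letter E b) = fun z => E b z * (E b q.2 - 1) := by
      funext z; exact Dl_letter b q.2 z
    rw [h1]
    have h3 := ordF_const_mul (M := M) hJ hE b (hE b q.1 q.2 hh) l hl' z hz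
    refine hJ.le ?_ h3
    rw [Nat.mul_succ]
    omega

theorem ordF_one (hJ : IsFilt J) : OrdF J S M 0 0 (1 : Γ → A) := by
  intro l hl z _
  cases l with
  | nil => simp [hJ.mem_zero]
  | cons q l =>
    have h1 : Dl q.2 (1 : Γ → A) = 0 := by funext z; simp [Dl]
    simp only [List.map_cons, DD_cons, h1, DD_zero]
    exact Submodule.zero_mem _

theorem ordF_word (hJ : IsFilt J) (hE : ∀ b m, ∀ h ∈ S m, E b h - 1 ∈ J m) (w : List β) :
    OrdF J S M (M * w.length) 0 (WW E w) := by
  induction w with
  | nil => simpa [WW_nil] using ordF_one (J := J) (S := S) (M := M) hJ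
  | cons b w ih =>
    rw [WW_cons]
    refine ((ordF_letter (M := M) hJ hE b).mul hJ ih).mono hJ ?_ (by omega)
    rw [List.length_cons, Nat.mul_succ]; omega

end diff

/-! ### leading words -/

section lead

variable {α : Type*} [LinearOrder α] (J : ℕ → Submodule k A) (v : α → A)

/-- evaluation of a word -/
def wd (u : List α) : A := (u.map v).prod

/-- span of the strictly larger words of the same length, plus the next filtration step -/
def Gt (u : List α) : Submodule k A :=
  Submodule.span k {y | ∃ t : List α, t.length = u.length ∧ BLt u t ∧ y = wd v t} ⊔ J (u.length + 1)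

def Ge (u : List α) : Submodule k A :=
  Submodule.span k {y | ∃ t : List α, t.length = u.length ∧ (t = u ∨ BLt u t) ∧ y = wd v t} ⊔
    J (u.length + 1)

/-- `a` has coefficient `c` at the word `u` and otherwise only larger words -/
def LW (u : List α) (c : k) (a : A) : Prop := a - c • wd v u ∈ Gt J v u

variable {J v}

@[simp] theorem wd_nil : wd v ([] : List α) = 1 := rfl
theorem wd_cons (a : α) (u : List α) : wd v (a :: u) = v a * wd v u := by simp [wd]
theorem wd_append (u w : List α) : wd v (u ++ w) = wd v u * wd v w := by simp [wd]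

theorem wd_mem (hJ : IsFilt J) (hv : ∀ a, v a ∈ J 1) (u : List α) : wd v u ∈ J u.length := by
  induction u with
  | nil => exact hJ.mem_zero _
  | cons a u ih =>
    rw [wd_cons, List.length_cons, add_comm]
    exact hJ.mul_mem (hv a) ih

theorem Gt_le_Ge (u : List α) : Gt J v u ≤ Ge J v u := by
  refine sup_le_sup_right (Submodule.span_mono ?_) _
  rintro y ⟨t, h1, h2, h3⟩
  exact ⟨t, h1, Or.inr h2, h3⟩

theorem Ge_le (hJ : IsFilt J) (hv : ∀ a, v a ∈ J 1) (u : List α) : Ge J v u ≤ J u.length := by
  refine sup_le (Submodule.span_le.2 ?_) (hJ.succ_le _)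
  rintro y ⟨t, h1, _, rfl⟩
  rw [← h1]
  exact wd_mem hJ hv t

theorem J_le_Gt (u : List α) : J (u.length + 1) ≤ Gt J v u := le_sup_right

theorem LW.mem_Ge {u : List α} {c : k} {a : A} (h : LW J v u c a) : a ∈ Ge J v u := by
  have h1 : a = (a - c • wd v u) + c • wd v u := by abel
  rw [h1]
  refine Submodule.add_mem _ (Gt_le_Ge u h) (Submodule.smul_mem _ _ ?_)
  exact Submodule.mem_sup_left (Submodule.subset_span ⟨u, rfl, Or.inl rfl, rfl⟩)

theorem mul_helper (hJ : IsFilt J) {s t n : ℕ} {X Y : Set A} {a b : A} {T : Submodule k A}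
    (ha : a ∈ Submodule.span k X ⊔ J (s + 1)) (hb : b ∈ Submodule.span k Y ⊔ J (t + 1))
    (hXs : ∀ x ∈ X, x ∈ J s) (hYt : ∀ y ∈ Y, y ∈ J t) (hn : n = s + t)
    (hXY : ∀ x ∈ X, ∀ y ∈ Y, x * y ∈ T) (hT : J (n + 1) ≤ T) : a * b ∈ T := by
  obtain ⟨a1, ha1, a2, ha2, rfl⟩ := Submodule.mem_sup.1 ha
  obtain ⟨b1, hb1, b2, hb2, rfl⟩ := Submodule.mem_sup.1 hb
  have hsX : Submodule.span k X ≤ J s := Submodule.span_le.2 hXs
  have hsY : Submodule.span k Y ≤ J t := Submodule.span_le.2 hYt
  have h1 : a1 * b1 ∈ T := by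
    have h2 : a1 * b1 ∈ Submodule.span k X * Submodule.span k Y := Submodule.mul_mem_mul ha1 hb1
    rw [Submodule.span_mul_span] at h2
    refine (Submodule.span_le.2 ?_) h2
    rintro _ ⟨x, hx, y, hy, rfl⟩
    exact hXY x hx y hy
  have h2 : a1 * b2 ∈ T := hT (hJ.le (by omega) (hJ.mul_mem (hsX ha1) hb2))
  have h3 : a2 * b1 ∈ T := hT (hJ.le (by omega) (hJ.mul_mem ha2 (hsY hb1)))
  have h4 : a2 * b2 ∈ T := hT (hJ.le (by omega) (hJ.mul_mem ha2 hb2))
  have h5 : (a1 + a2) * (b1 + b2) = a1 * b1 + a1 * b2 + (a2 * b1 + a2 * b2) := by noncomm_ring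
  rw [h5]
  exact T.add_mem (T.add_mem h1 h2) (T.add_mem h3 h4)

theorem Gt_mul_Ge (hJ : IsFilt J) (hv : ∀ a, v a ∈ J 1) {u w : List α} {a b : A}
    (ha : a ∈ Gt J v u) (hb : b ∈ Ge J v w) : a * b ∈ Gt J v (u ++ w) := by
  refine mul_helper hJ ha hb ?_ ?_ (List.length_append (as := u) (bs := w)) ?_ (J_le_Gt _)
  · rintro x ⟨t, h1, _, rfl⟩
    rw [← h1]; exact wd_mem hJ hv t
  · rintro x ⟨t, h1, _, rfl⟩
    rw [← h1]; exact wd_mem hJ hv t
  · rintro x ⟨t, h1, h2, rfl⟩ y ⟨t', h1', _, rfl⟩
    refine Submodule.mem_sup_left (Submodule.subset_span ⟨t ++ t', ?_, h2.append _ _, ?_⟩)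
    · simp [h1, h1']
    · rw [wd_append]

theorem Ge_mul_Gt (hJ : IsFilt J) (hv : ∀ a, v a ∈ J 1) {u w : List α} {a b : A}
    (ha : a ∈ Ge J v u) (hb : b ∈ Gt J v w) : a * b ∈ Gt J v (u ++ w) := by
  refine mul_helper hJ ha hb ?_ ?_ (List.length_append (as := u) (bs := w)) ?_ (J_le_Gt _)
  · rintro x ⟨t, h1, _, rfl⟩
    rw [← h1]; exact wd_mem hJ hv t
  · rintro x ⟨t, h1, _, rfl⟩
    rw [← h1]; exact wd_mem hJ hv t
  · rintro x ⟨t, h1, h2, rfl⟩ y ⟨t', h1', h2', rfl⟩
    refine Submodule.mem_sup_left (Submodule.subset_span ⟨t ++ t', ?_, ?_, ?_⟩)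
    · simp [h1, h1']
    · rcases h2 with rfl | h2
      · exact h2'.append_left _
      · exact h2.append _ _
    · rw [wd_append]

theorem LW.mul (hJ : IsFilt J) (hv : ∀ a, v a ∈ J 1) {u w : List α} {c c' : k} {a b : A}
    (ha : LW J v u c a) (hb : LW J v w c' b) : LW J v (u ++ w) (c * c') (a * b) := by
  have h1 : a * b - (c * c') • wd v (u ++ w) =
      (a - c • wd v u) * b + (c • wd v u) * (b - c' • wd v w) := by
    rw [wd_append, mul_smul, sub_mul, mul_sub, smul_mul_smul_comm]
    rw [mul_smul]
    abel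
  unfold LW
  rw [h1]
  refine Submodule.add_mem _ (Gt_mul_Ge hJ hv ha hb.mem_Ge) ?_
  refine Ge_mul_Gt hJ hv ?_ hb
  refine Submodule.smul_mem _ _ ?_
  exact Submodule.mem_sup_left (Submodule.subset_span ⟨u, rfl, Or.inl rfl, rfl⟩)

theorem LW.congr {u : List α} {c : k} {a a' : A} (h : LW J v u c a)
    (haa : a' - a ∈ J (u.length + 1)) : LW J v u c a' := by
  have h1 : a' - c • wd v u = (a - c • wd v u) + (a' - a) := by abel
  unfold LW
  rw [h1]
  exact Submodule.add_mem _ h (J_le_Gt _ haa)

theorem LW.add {u : List α} {c c' : k} {a a' : A} (h : LW J v u c a) (h' : LW J v u c' a') :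
    LW J v u (c + c') (a + a') := by
  have h1 : a + a' - (c + c') • wd v u = (a - c • wd v u) + (a' - c' • wd v u) := by
    rw [add_smul]; abel
  unfold LW
  rw [h1]
  exact Submodule.add_mem _ h h'

theorem LW.add_Gt {u : List α} {c : k} {a a' : A} (h : LW J v u c a) (h' : a' ∈ Gt J v u) :
    LW J v u c (a + a') := by
  have h1 : a + a' - c • wd v u = (a - c • wd v u) + a' := by abel
  unfold LW
  rw [h1]
  exact Submodule.add_mem _ h h'

theorem LW.smul {u : List α} {c : k} {a : A} (h : LW J v u c a) (x : k) :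
    LW J v u (x * c) (x • a) := by
  have h1 : x • a - (x * c) • wd v u = x • (a - c • wd v u) := by
    rw [smul_sub, mul_smul]
  unfold LW
  rw [h1]
  exact Submodule.smul_mem _ _ h

theorem LW.zero (u : List α) : LW J v u (0 : k) (0 : A) := by
  unfold LW; simp

theorem LW.of_Gt {u : List α} {a : A} (h : a ∈ Gt J v u) : LW J v u (0:k) a := by
  unfold LW; simpa using h

theorem Ge_le_Gt_of_blt {u u' : List α} (h : BLt u u') (hl : u.length = u'.length) :
    Ge J v u' ≤ Gt J v u := by
  refine sup_le (Submodule.span_le.2 ?_) (by rw [← hl]; exact J_le_Gt u)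
  rintro y ⟨t, h1, h2, rfl⟩
  refine Submodule.mem_sup_left (Submodule.subset_span ⟨t, by omega, ?_, rfl⟩)
  rcases h2 with rfl | h2
  · exact h
  · exact h.trans h2

end lead

/-! ### the leading word of an iterated difference of a word function -/

section main

variable {Γ : Type*} [Group Γ] {α : Type*} [LinearOrder α] {β : Type*} [DecidableEq β]

/-- a perturbation together with its direction, leading word and leading coefficient -/
structure Dat (Γ α β k : Type*) where
  h : Γ
  b : β
  u : List α
  c : k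

/-- the perturbation `q` is what its data say -/
structure Dat.OK (J : ℕ → Submodule k A) (v : α → A) (S : ℕ → Subgroup Γ) (M : ℕ) (E : β → Γ →* A)
    (q : Dat Γ α β k) : Prop where
  len : M ≤ q.u.length
  mem : q.h ∈ S q.u.length
  lead : LW J v q.u q.c (E q.b q.h - 1)
  off : ∀ b, b ≠ q.b → E b q.h = 1

variable {J : ℕ → Submodule k A} {v : α → A} {S : ℕ → Subgroup Γ} {M : ℕ} {E : β → Γ →* A}

theorem Dat.OK.lead_Dl (hJ : IsFilt J) (hM : 1 ≤ M) (hE : ∀ b m, ∀ h ∈ S m, E b h - 1 ∈ J m)
    {q : Dat Γ α β k} (hq : q.OK J v S M E) (b : β) {z : Γ} (hz : z ∈ S M) :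
    LW J v q.u (if b = q.b then q.c else 0) (Dl q.h (letter E b) z) := by
  rw [Dl_letter]
  by_cases hb : b = q.b
  · subst hb
    rw [if_pos rfl]
    refine hq.lead.congr ?_
    have h1 : E q.b z * (E q.b q.h - 1) - (E q.b q.h - 1) =
        (E q.b z - 1) * (E q.b q.h - 1) := by noncomm_ring
    rw [h1]
    refine hJ.le ?_ (hJ.mul_mem (hE q.b M z hz) (hE q.b _ _ hq.mem))
    omega
  · rw [if_neg hb, hq.off b hb]
    simpa using LW.zero (J := J) (v := v) (k := k) q.u

theorem flatten_length_sum (P : List (Dat Γ α β k)) :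
    ((P.map Dat.u).flatten).length = (P.map (fun q => q.u.length)).sum := by
  rw [List.length_flatten, List.map_map]; rfl

/-- the auxiliary claim: once the first perturbation has been passed, everything is larger -/
theorem peel_Gt (hJ : IsFilt J) (hv : ∀ a, v a ∈ J 1) (hM : 1 ≤ M)
    (hE : ∀ b m, ∀ h ∈ S m, E b h - 1 ∈ J m) (w : List β)
    (ih : ∀ P : List (Dat Γ α β k), (∀ q ∈ P, q.OK J v S M E) → (P.map Dat.u).Pairwise BLt →
      w.length = P.length → ∀ z ∈ S M,
      DD (P.map Dat.h) (WW E w) z ∈ Ge J v (P.map Dat.u).flatten)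
    (b : β) (z : Γ) (hz : z ∈ S M) (Q Pre : List (Dat Γ α β k)) (hPre : Pre ≠ [])
    (hok : ∀ q ∈ Pre ++ Q, q.OK J v S M E) (hpw : ((Pre ++ Q).map Dat.u).Pairwise BLt)
    (hlen : w.length + 1 = (Pre ++ Q).length) :
    peel (letter E b) (DD (Pre.map Dat.h) (WW E w)) z (Q.map Dat.h) ∈
      Gt J v ((Pre ++ Q).map Dat.u).flatten := by
  induction Q generalizing Pre with
  | nil => simp only [List.map_nil, peel]; exact Submodule.zero_mem _
  | cons q Q ihQ =>
    simp only [List.map_cons, peel]
    refine Submodule.add_mem _ ?_ ?_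
    · -- the term where `q` hits the letter
      have h1 : DD (Q.map Dat.h) (DD (Pre.map Dat.h) (WW E w)) =
          DD ((Pre ++ Q).map Dat.h) (WW E w) := by
        rw [List.map_append, DD_append]
      rw [h1]
      have hsub : (Pre ++ Q).Sublist (Pre ++ q :: Q) :=
        (List.Sublist.refl Pre).append (List.sublist_cons_self q Q)
      have h2 := ih (Pre ++ Q) (fun q' hq' => hok q' (hsub.subset hq'))
        (hpw.sublist (hsub.map _)) (by simp only [List.length_append, List.length_cons] at hlen ⊢
                                       omega) z hz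
      have h3 := ((hok q (by simp)).lead_Dl hJ hM hE b hz).mem_Ge
      -- product
      have h4 : Dl q.h (letter E b) z * DD ((Pre ++ Q).map Dat.h) (WW E w) z ∈
          Ge J v (q.u ++ ((Pre ++ Q).map Dat.u).flatten) := by
        refine mul_helper hJ h3 h2 ?_ ?_ (List.length_append) ?_ (le_sup_right)
        · rintro x ⟨t, h1, _, rfl⟩
          rw [← h1]; exact wd_mem hJ hv t
        · rintro x ⟨t, h1, _, rfl⟩
          rw [← h1]; exact wd_mem hJ hv t
        · rintro x ⟨t, h1, h2, rfl⟩ y ⟨t', h1', h2', rfl⟩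
          refine Submodule.mem_sup_left (Submodule.subset_span ⟨t ++ t', ?_, ?_, ?_⟩)
          · simp [h1, h1']
          · rcases h2 with rfl | h2
            · rcases h2' with rfl | h2'
              · left; rfl
              · right; exact h2'.append_left _
            · right; exact h2.append _ _
          · rw [wd_append]
      refine Ge_le_Gt_of_blt ?_ ?_ h4
      · -- the move lemma
        have h5 : ((Pre ++ q :: Q).map Dat.u).flatten =
            ((Pre.map Dat.u).flatten ++ q.u) ++ (Q.map Dat.u).flatten := by simp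
        have h6 : q.u ++ ((Pre ++ Q).map Dat.u).flatten =
            (q.u ++ (Pre.map Dat.u).flatten) ++ (Q.map Dat.u).flatten := by simp
        rw [h5, h6]
        refine BLt.append ?_ _ _
        refine blt_move _ _ (by simpa using hPre) ?_
        intro a ha
        rw [List.map_append, List.pairwise_append] at hpw
        exact hpw.2.2 a ha _ (by simp)
      · simp only [List.map_append, List.map_cons, List.flatten_append, List.flatten_cons,
          List.length_append]
        omega
    · have h1 : Dl q.h (DD (Pre.map Dat.h) (WW E w)) = DD ((Pre ++ [q]).map Dat.h) (WW E w) := by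
        rw [List.map_append, DD_append]; rfl
      rw [h1]
      have h2 := ihQ (Pre ++ [q]) (by simp) (by simpa using hok) (by simpa using hpw)
        (by simpa using hlen)
      simpa using h2

theorem lead_word (hJ : IsFilt J) (hv : ∀ a, v a ∈ J 1) (hM : 1 ≤ M)
    (hE : ∀ b m, ∀ h ∈ S m, E b h - 1 ∈ J m) (w : List β) (P : List (Dat Γ α β k))
    (hok : ∀ q ∈ P, q.OK J v S M E) (hpw : (P.map Dat.u).Pairwise BLt)
    (hlen : w.length = P.length) (z : Γ) (hz : z ∈ S M) :
    LW J v (P.map Dat.u).flatten (if w = P.map Dat.b then (P.map Dat.c).prod else 0)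
      (DD (P.map Dat.h) (WW E w) z) := by
  induction w generalizing P z with
  | nil =>
    have : P = [] := List.length_eq_zero_iff.1 hlen.symm
    subst this
    simp only [List.map_nil, List.flatten_nil, if_true, List.prod_nil, DD_nil, WW_nil]
    unfold LW
    simp
  | cons b w ih =>
    cases P with
    | nil => simp at hlen
    | cons q P =>
      have hokq := hok q (by simp)
      have hokP : ∀ q' ∈ P, q'.OK J v S M E := fun q' hq' => hok q' (by simp [hq'])
      have hpwP : (P.map Dat.u).Pairwise BLt := by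
        rw [List.map_cons, List.pairwise_cons] at hpw
        exact hpw.2
      have hlen' : w.length = P.length := by simpa using hlen
      have ih' : ∀ P : List (Dat Γ α β k), (∀ q ∈ P, q.OK J v S M E) →
          (P.map Dat.u).Pairwise BLt → w.length = P.length → ∀ z ∈ S M,
          DD (P.map Dat.h) (WW E w) z ∈ Ge J v (P.map Dat.u).flatten :=
        fun P h1 h2 h3 z hz => (ih P h1 h2 h3 z hz).mem_Ge
      -- peel
      have hl : AdmL S M ((q :: P).map (fun q => (q.u.length, q.h))) := by
        intro q' hq'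
        obtain ⟨q'', hq'', rfl⟩ := List.mem_map.1 hq'
        exact ⟨(hok q'' hq'').len, (hok q'' hq'').mem⟩
      have h1 := peel_spec hJ hM (ordF_letter (M := M) hJ hE b) (ordF_word (M := M) hJ hE w)
        ((q :: P).map (fun q => (q.u.length, q.h))) hl (by
          simp only [List.length_map, List.length_cons, Nat.add_sub_cancel, hlen']
          exact le_rfl) z hz
      have h2 : ((q :: P).map (fun q => (q.u.length, q.h))).map Prod.snd = (q :: P).map Dat.h := by
        rw [List.map_map]; rfl
      have h3 : ((q :: P).map (fun q => (q.u.length, q.h))).map Prod.fst =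
          (q :: P).map (fun q => q.u.length) := by
        rw [List.map_map]; rfl
      rw [h2, h3, zero_add, ← flatten_length_sum, ← WW_cons] at h1
      refine LW.congr ?_ h1
      -- the peel sum
      simp only [List.map_cons, peel]
      refine LW.add_Gt ?_ ?_
      · have h4 := (hokq.lead_Dl hJ hM hE b hz).mul hJ hv (ih P hokP hpwP hlen' z hz)
        have h5 : (if b = q.b then q.c else 0) * (if w = P.map Dat.b then (P.map Dat.c).prod else 0)
            = (if b :: w = q.b :: P.map Dat.b then (q.c :: P.map Dat.c).prod else 0) := by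
          by_cases hb : b = q.b
          · by_cases hw : w = P.map Dat.b
            · simp [hb, hw]
            · simp [hb, hw]
          · simp [hb]
        rw [h5] at h4
        simpa using h4
      · have h6 := peel_Gt hJ hv hM hE w ih' b z hz P [q] (by simp) (by simpa using hok)
          (by simpa using hpw) (by simp [hlen', add_comm])
        simpa using h6

end main

end Pool.Agent.H9
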