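import Mathlib
import Pool.Agent.H9.Diff

set_option autoImplicit false
set_option linter.unusedSectionVars false

/-!
# Group elements with prescribed leading Lyndon words
-/

namespace Pool.Agent.H9

variable {k : Type*} [Field k] {A : Type*} [Ring A] [Algebra k A]
variable {G : Type*} [Group G]

/-- the dimension subgroups of a filtration -/
def Dsub {J : ℕ → Submodule k A} (hJ : IsFilt J) (ι : G →* A) (m : ℕ) : Subgroup G where
  carrier := {g | ι g - 1 ∈ J m}
  mul_mem' := by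
    intro a b ha hb
    have h1 : ι (a * b) - 1 = (ι a - 1) * (ι b - 1) + (ι a - 1) + (ι b - 1) := by
      rw [map_mul]; noncomm_ring
    show ι (a * b) - 1 ∈ J m
    rw [h1]
    exact Submodule.add_mem _ (Submodule.add_mem _ (hJ.le (by omega) (hJ.mul_mem ha hb)) ha) hb
  one_mem' := by
    show ι 1 - 1 ∈ J m
    simp
  inv_mem' := by
    intro a ha
    have h1 : ι a⁻¹ - 1 = -(ι a⁻¹ * (ι a - 1)) := by
      rw [mul_sub, ← map_mul]; simp
    show ι a⁻¹ - 1 ∈ J m
    rw [h1]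
    refine Submodule.neg_mem _ (hJ.le (by omega) (hJ.mul_mem (hJ.mem_zero _) ha))

variable {J : ℕ → Submodule k A} (hJ : IsFilt J) (ι : G →* A)

theorem mem_Dsub (m : ℕ) (g : G) : g ∈ Dsub hJ ι m ↔ ι g - 1 ∈ J m := Iff.rfl

theorem Dsub_anti {m n : ℕ} (h : m ≤ n) : Dsub hJ ι n ≤ Dsub hJ ι m := fun _ hg => hJ.le h hg

variable {ι}

theorem prod_lead {m : ℕ} (l : List G) (hl : ∀ g ∈ l, g ∈ Dsub hJ ι m) :
    ι l.prod - 1 - (l.map fun g => ι g - 1).sum ∈ J (m + m) := by
  induction l with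
  | nil => simp
  | cons g l ih =>
    have hg : ι g - 1 ∈ J m := hl g (by simp)
    have hl' : ∀ g ∈ l, g ∈ Dsub hJ ι m := fun g' hg' => hl g' (by simp [hg'])
    have h1 := ih hl'
    have h2 : ι l.prod - 1 ∈ J m := Subgroup.list_prod_mem _ hl'
    have h3 : ι (g :: l).prod - 1 - ((g :: l).map fun g => ι g - 1).sum =
        (ι g - 1) * (ι l.prod - 1) + (ι l.prod - 1 - (l.map fun g => ι g - 1).sum) := by
      simp only [List.prod_cons, map_mul, List.map_cons, List.sum_cons]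
      noncomm_ring
    rw [h3]
    exact Submodule.add_mem _ (hJ.mul_mem hg h2) h1

theorem inv_mul_lead {m : ℕ} {a b : G} (ha : a ∈ Dsub hJ ι m) (hb : b ∈ Dsub hJ ι m) :
    ι (a⁻¹ * b) - 1 - ((ι b - 1) - (ι a - 1)) ∈ J (m + m) := by
  have h1 : ι (a⁻¹ * b) - 1 - ((ι b - 1) - (ι a - 1)) =
      (ι a⁻¹ - 1) * ((ι b - 1) - (ι a - 1)) := by
    have h2 : ι a⁻¹ * ι a = 1 := by rw [← map_mul]; simp
    rw [map_mul]
    have h3 : (ι a⁻¹ - 1) * ((ι b - 1) - (ι a - 1)) =
        ι a⁻¹ * ι b - ι a⁻¹ * ι a - ι b + ι a := by noncomm_ring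
    rw [h3, h2]; noncomm_ring
  rw [h1]
  have h4 : ι a⁻¹ - 1 ∈ J m := (Dsub hJ ι m).inv_mem ha
  exact hJ.mul_mem h4 (Submodule.sub_mem _ hb ha)

variable {α : Type*} [LinearOrder α] {v : α → A}

theorem exists_lyndon_elt (hv : ∀ a, v a ∈ J 1) {x : α → G} (hx : ∀ a, v a = ι (x a) - 1)
    (u : List α) (hu : Lyndon u) : ∃ g ∈ Dsub hJ ι u.length, LW J v u (1 : k) (ι g - 1) := by
  induction hn : u.length using Nat.strong_induction_on generalizing u with
  | _ n ih =>
    subst hn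
    by_cases h2 : 2 ≤ u.length
    · obtain ⟨u', u'', hu'u'', hu', hu''⟩ := hu.factor h2
      have hne' := List.length_pos_of_ne_nil hu'.1
      have hne'' := List.length_pos_of_ne_nil hu''.1
      have hlen : u.length = u'.length + u''.length := by rw [hu'u'', List.length_append]
      obtain ⟨g, hg, hgl⟩ := ih u'.length (by omega) u' hu' rfl
      obtain ⟨h, hh, hhl⟩ := ih u''.length (by omega) u'' hu'' rfl
      -- the commutator
      have hb : BLt (u' ++ u'') (u'' ++ u') := by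
        have h3 := hu.2 u' u'' hu'u'' hu'.1 hu''.1
        rw [hu'u''] at h3
        have h4 := h3.append [] u'
        simpa using h4
      have hgh := hgl.mul hJ hv hhl
      have hhg := hhl.mul hJ hv hgl
      have hcomm : LW J v (u' ++ u'') (1 : k) ((ι g - 1) * (ι h - 1) - (ι h - 1) * (ι g - 1)) := by
        have h5 : -((ι h - 1) * (ι g - 1)) ∈ Gt J v (u' ++ u'') := by
          refine Submodule.neg_mem _ ?_
          exact Ge_le_Gt_of_blt hb (by simp [add_comm]) hhg.mem_Ge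
        have h6 := hgh.add_Gt h5
        rw [one_mul, ← sub_eq_add_neg] at h6
        exact h6
      have hw : (ι g⁻¹ * ι h⁻¹ - 1) ∈ J 1 := by
        have h7 : ι g⁻¹ - 1 ∈ J 1 := (Dsub hJ ι 1).inv_mem (Dsub_anti hJ ι hne' hg)
        have h8 : ι h⁻¹ - 1 ∈ J 1 := (Dsub hJ ι 1).inv_mem (Dsub_anti hJ ι hne'' hh)
        have h9 : ι (g⁻¹ * h⁻¹) - 1 ∈ J 1 := (Dsub hJ ι 1).mul_mem h7 h8
        rwa [map_mul] at h9
      have hgh' : (ι g - 1) * (ι h - 1) - (ι h - 1) * (ι g - 1) ∈ J u.length := by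
        rw [hlen]
        refine Submodule.sub_mem _ (hJ.mul_mem hg hh) ?_
        rw [add_comm]
        exact hJ.mul_mem hh hg
      have hiden : ι (g * h * g⁻¹ * h⁻¹) - 1 =
          ((ι g - 1) * (ι h - 1) - (ι h - 1) * (ι g - 1)) +
          ((ι g - 1) * (ι h - 1) - (ι h - 1) * (ι g - 1)) * (ι g⁻¹ * ι h⁻¹ - 1) := by
        have e1 : (ι g - 1) * (ι h - 1) - (ι h - 1) * (ι g - 1) = ι g * ι h - ι h * ι g := by
          noncomm_ring
        have e2 : ι h * ι g * (ι g⁻¹ * ι h⁻¹) = 1 := by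
          rw [← map_mul, ← map_mul, ← map_mul]
          have : h * g * (g⁻¹ * h⁻¹) = 1 := by group
          rw [this, map_one]
        rw [e1, mul_sub, mul_one, add_sub_cancel, sub_mul, e2]
        simp only [map_mul, mul_assoc]
      have hmem2 : ((ι g - 1) * (ι h - 1) - (ι h - 1) * (ι g - 1)) * (ι g⁻¹ * ι h⁻¹ - 1) ∈
          J (u.length + 1) := hJ.mul_mem hgh' hw
      refine ⟨g * h * g⁻¹ * h⁻¹, ?_, ?_⟩
      · rw [mem_Dsub, hiden]
        exact Submodule.add_mem _ hgh' (hJ.le (by omega) hmem2)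
      · rw [hiden, hu'u'']
        refine hcomm.congr ?_
        rw [add_sub_cancel_left, ← hu'u'']
        exact hmem2
    · have hpos := List.length_pos_of_ne_nil hu.1
      have h1 : u.length = 1 := by omega
      obtain ⟨a, rfl⟩ := List.length_eq_one_iff.1 h1
      refine ⟨x a, ?_, ?_⟩
      · rw [mem_Dsub, ← hx]
        exact hv a
      · unfold LW
        rw [← hx]
        simp [wd]

theorem exists_blt_min {m : ℕ} (s : Finset (List α)) (hs : s.Nonempty)
    (hl : ∀ u ∈ s, u.length = m) : ∃ u ∈ s, ∀ t ∈ s, t ≠ u → BLt u t := by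
  classical
  induction s using Finset.induction_on with
  | empty => exact absurd hs (by simp)
  | insert a s ha ih =>
    by_cases h0 : s = ∅
    · subst h0
      refine ⟨a, by simp, ?_⟩
      intro t ht hta
      simp at ht
      exact absurd ht hta
    · obtain ⟨u, hu, hmin⟩ := ih (Finset.nonempty_iff_ne_empty.2 h0)
        (fun u hu => hl u (by simp [hu]))
      have hau : a.length = u.length := by
        rw [hl a (by simp), hl u (by simp [hu])]
      rcases blt_tri hau with h1 | h1 | h1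
      · refine ⟨a, by simp, ?_⟩
        intro t ht hta
        rcases Finset.mem_insert.1 ht with h2 | h2
        · exact absurd h2 hta
        · by_cases htu : t = u
          · rw [htu]; exact h1
          · exact h1.trans (hmin t h2 htu)
      · refine ⟨u, by simp [hu], ?_⟩
        intro t ht htu
        rcases Finset.mem_insert.1 ht with h2 | h2
        · rw [h2]; exact h1
        · exact hmin t h2 htu
      · exact absurd (h1 ▸ hu) ha

theorem sum_LW {m : ℕ} (s : Finset (List α)) (u₀ : List α) (hu₀ : u₀.length = m)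
    (hl : ∀ u ∈ s, u.length = m) (hmin : ∀ t ∈ s, t ≠ u₀ → BLt u₀ t) (a : List α → A)
    (ha : ∀ u ∈ s, LW J v u (1 : k) (a u)) [DecidableEq (List α)] :
    LW J v u₀ (if u₀ ∈ s then (1 : k) else 0) (∑ u ∈ s, a u) := by
  by_cases h : u₀ ∈ s
  · rw [if_pos h, ← Finset.add_sum_erase s a h]
    refine (ha u₀ h).add_Gt ?_
    refine Submodule.sum_mem _ ?_
    intro t ht
    have ht1 := Finset.mem_of_mem_erase ht
    have ht2 := Finset.ne_of_mem_erase ht
    exact Ge_le_Gt_of_blt (hmin t ht1 ht2) (by rw [hu₀, hl t ht1]) (ha t ht1).mem_Ge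
  · rw [if_neg h]
    refine LW.of_Gt ?_
    refine Submodule.sum_mem _ ?_
    intro t ht
    have ht2 : t ≠ u₀ := fun h' => h (h' ▸ ht)
    exact Ge_le_Gt_of_blt (hmin t ht ht2) (by rw [hu₀, hl t ht]) (ha t ht).mem_Ge

theorem LW.sub' {u : List α} {c c' : k} {a a' : A} (h : LW J v u c a) (h' : LW J v u c' a') :
    LW J v u (c - c') (a - a') := by
  have h1 : a - a' - (c - c') • wd v u = (a - c • wd v u) - (a' - c' • wd v u) := by
    rw [sub_smul]; abel
  unfold LW
  rw [h1]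
  exact Submodule.sub_mem _ h h'

/-- pigeonhole choice of a group element with a Lyndon leading word in a subgroup of small index -/
theorem pick (hv : ∀ a, v a ∈ J 1) {x : α → G} (hx : ∀ a, v a = ι (x a) - 1) {m : ℕ}
    (hm : 1 ≤ m) (U : Finset (List α)) (hU : ∀ u ∈ U, Lyndon u ∧ u.length = m)
    (K : Subgroup G) (hK0 : K.relIndex (Dsub hJ ι m) ≠ 0)
    (hK : K.relIndex (Dsub hJ ι m) < 2 ^ U.card) :
    ∃ g ∈ K, g ∈ Dsub hJ ι m ∧ ∃ u ∈ U, ∃ c : k, c ≠ 0 ∧ LW J v u c (ι g - 1) := by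
  classical
  have hch : ∀ u : List α, ∃ g : G, u ∈ U → (g ∈ Dsub hJ ι m ∧ LW J v u (1 : k) (ι g - 1)) := by
    intro u
    by_cases hu : u ∈ U
    · obtain ⟨g, hg1, hg2⟩ := exists_lyndon_elt hJ hv hx u (hU u hu).1
      rw [(hU u hu).2] at hg1
      exact ⟨g, fun _ => ⟨hg1, hg2⟩⟩
    · exact ⟨1, fun h => absurd h hu⟩
  choose gu hgu using hch
  let P : Finset (List α) → G := fun s => (s.toList.map gu).prod
  have hP1 : ∀ s ⊆ U, P s ∈ Dsub hJ ι m := by
    intro s hs
    refine Subgroup.list_prod_mem _ ?_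
    intro g hg
    obtain ⟨u, hu, rfl⟩ := List.mem_map.1 hg
    exact (hgu u (hs (Finset.mem_toList.1 hu))).1
  have hP2 : ∀ s ⊆ U, ι (P s) - 1 - ∑ u ∈ s, (ι (gu u) - 1) ∈ J (m + m) := by
    intro s hs
    have h1 := prod_lead hJ (ι := ι) (m := m) (s.toList.map gu) (by
      intro g hg
      obtain ⟨u, hu, rfl⟩ := List.mem_map.1 hg
      exact (hgu u (hs (Finset.mem_toList.1 hu))).1)
    rw [List.map_map] at h1
    have h2 : (s.toList.map ((fun g => ι g - 1) ∘ gu)).sum = ∑ u ∈ s, (ι (gu u) - 1) := by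
      exact Finset.sum_map_toList s _
    rwa [h2] at h1
  -- pigeonhole
  have hpig : ∃ s ⊆ U, ∃ s' ⊆ U, s ≠ s' ∧ (P s)⁻¹ * P s' ∈ K := by
    by_contra hcon
    push Not at hcon
    let φ : U.powerset → (Dsub hJ ι m ⧸ K.subgroupOf (Dsub hJ ι m)) :=
      fun s => QuotientGroup.mk ⟨P s, hP1 s (Finset.mem_powerset.1 s.2)⟩
    have hφ : Function.Injective φ := by
      intro s s' hss
      by_contra hne
      have h1 := QuotientGroup.eq.1 hss
      rw [Subgroup.mem_subgroupOf] at h1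
      exact hcon s (Finset.mem_powerset.1 s.2) s' (Finset.mem_powerset.1 s'.2)
        (fun h => hne (Subtype.ext h)) (by simpa using h1)
    have hrel : K.relIndex (Dsub hJ ι m) =
      Nat.card (Dsub hJ ι m ⧸ K.subgroupOf (Dsub hJ ι m)) := rfl
    have hfin : Finite (Dsub hJ ι m ⧸ K.subgroupOf (Dsub hJ ι m)) := by
      rw [hrel] at hK0
      exact Nat.finite_of_card_ne_zero hK0
    have h2 := Nat.card_le_card_of_injective φ hφ
    rw [← hrel] at h2
    have h3 : Nat.card U.powerset = 2 ^ U.card := by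
      rw [Nat.card_eq_fintype_card, Fintype.card_coe, Finset.card_powerset]
    omega
  obtain ⟨s, hs, s', hs', hne, hK'⟩ := hpig
  refine ⟨(P s)⁻¹ * P s', hK', (Dsub hJ ι m).mul_mem ((Dsub hJ ι m).inv_mem (hP1 s hs))
    (hP1 s' hs'), ?_⟩
  have hsd : (symmDiff s s').Nonempty := by
    rw [Finset.nonempty_iff_ne_empty]
    intro h
    exact hne (symmDiff_eq_bot.1 h)
  have hsub : symmDiff s s' ⊆ U := by
    intro u hu
    rcases Finset.mem_symmDiff.1 hu with h | h
    · exact hs h.1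
    · exact hs' h.1
  obtain ⟨u₀, hu₀, hmin⟩ := exists_blt_min (m := m) (symmDiff s s') hsd
    (fun u hu => (hU u (hsub hu)).2)
  have hu₀U := hsub hu₀
  have hcongr : ι ((P s)⁻¹ * P s') - 1 - (∑ u ∈ s' \ s, (ι (gu u) - 1) -
      ∑ u ∈ s \ s', (ι (gu u) - 1)) ∈ J (u₀.length + 1) := by
    rw [Finset.sum_sdiff_sub_sum_sdiff]
    have h1 := inv_mul_lead hJ (hP1 s hs) (hP1 s' hs')
    have h2 := hP2 s hs
    have h3 := hP2 s' hs'
    have h4 : ι ((P s)⁻¹ * P s') - 1 - (∑ u ∈ s', (ι (gu u) - 1) - ∑ u ∈ s, (ι (gu u) - 1)) =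
        (ι ((P s)⁻¹ * P s') - 1 - ((ι (P s') - 1) - (ι (P s) - 1))) +
        (ι (P s') - 1 - ∑ u ∈ s', (ι (gu u) - 1)) - (ι (P s) - 1 - ∑ u ∈ s, (ι (gu u) - 1)) := by
      abel
    rw [h4]
    rw [(hU u₀ hu₀U).2]
    exact hJ.le (by omega) (Submodule.sub_mem _ (Submodule.add_mem _ h1 h3) h2)
  have e1 := sum_LW (J := J) (v := v) (k := k) (s' \ s) u₀ (hU u₀ hu₀U).2
    (fun u hu => (hU u (hs' (Finset.mem_sdiff.1 hu).1)).2)
    (fun t ht htne => hmin t (Finset.mem_symmDiff.2 (Or.inr (Finset.mem_sdiff.1 ht))) htne)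
    (fun u => ι (gu u) - 1) (fun u hu => (hgu u (hs' (Finset.mem_sdiff.1 hu).1)).2)
  have e2 := sum_LW (J := J) (v := v) (k := k) (s \ s') u₀ (hU u₀ hu₀U).2
    (fun u hu => (hU u (hs (Finset.mem_sdiff.1 hu).1)).2)
    (fun t ht htne => hmin t (Finset.mem_symmDiff.2 (Or.inl (Finset.mem_sdiff.1 ht))) htne)
    (fun u => ι (gu u) - 1) (fun u hu => (hgu u (hs (Finset.mem_sdiff.1 hu).1)).2)
  have e3 := (e1.sub' e2).congr hcongr
  refine ⟨u₀, hu₀U, _, ?_, e3⟩
  rcases Finset.mem_symmDiff.1 hu₀ with h | h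
  · have h1 : u₀ ∉ s' \ s := by simp [h.1]
    have h2 : u₀ ∈ s \ s' := by simp [h.1, h.2]
    rw [if_neg h1, if_pos h2]
    simp
  · have h1 : u₀ ∈ s' \ s := by simp [h.1, h.2]
    have h2 : u₀ ∉ s \ s' := by simp [h.1]
    rw [if_pos h1, if_neg h2]
    simp

end Pool.Agent.H9
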