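import Mathlib
import Pool.Agent.H9.LynElt

set_option autoImplicit false
set_option linter.unusedSectionVars false

/-!
# Augmentation ideals of group algebras
-/

namespace Pool.Agent.H9

section pw

variable {k : Type*} [Field k] {A : Type*} [Ring A] [Algebra k A]

/-- powers of an ideal given as a submodule, with the whole algebra in degree zero -/
def pw (I : Submodule k A) (n : ℕ) : Submodule k A := if n = 0 then ⊤ else I ^ n

theorem pw_zero (I : Submodule k A) : pw I 0 = ⊤ := if_pos rfl
theorem pw_succ (I : Submodule k A) (n : ℕ) : pw I (n + 1) = I ^ (n + 1) := if_neg (by omega)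
theorem pw_pos (I : Submodule k A) {n : ℕ} (hn : 1 ≤ n) : pw I n = I ^ n := if_neg (by omega)

theorem pow_left {I : Submodule k A} (hl : ∀ a, ∀ b ∈ I, a * b ∈ I) (n : ℕ) (a b : A)
    (hb : b ∈ I ^ (n + 1)) : a * b ∈ I ^ (n + 1) := by
  rw [pow_succ'] at hb ⊢
  refine Submodule.mul_induction_on hb ?_ ?_
  · intro m hm m' hm'
    rw [← mul_assoc]
    exact Submodule.mul_mem_mul (hl a m hm) hm'
  · intro x y hx hy
    rw [mul_add]
    exact Submodule.add_mem _ hx hy

theorem pow_right {I : Submodule k A} (hr : ∀ a ∈ I, ∀ b, a * b ∈ I) (n : ℕ) (a b : A)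
    (ha : a ∈ I ^ (n + 1)) : a * b ∈ I ^ (n + 1) := by
  rw [pow_succ] at ha ⊢
  refine Submodule.mul_induction_on ha ?_ ?_
  · intro m hm m' hm'
    rw [mul_assoc]
    exact Submodule.mul_mem_mul hm (hr m' hm' b)
  · intro x y hx hy
    rw [add_mul]
    exact Submodule.add_mem _ hx hy

theorem isFilt_pw {I : Submodule k A} (hl : ∀ a, ∀ b ∈ I, a * b ∈ I)
    (hr : ∀ a ∈ I, ∀ b, a * b ∈ I) : IsFilt (pw I) where
  zero := pw_zero I
  succ_le := by
    intro n
    cases n with
    | zero => rw [pw_zero]; exact le_top
    | succ n =>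
      rw [pw_succ, pw_succ, pow_succ' I (n + 1)]
      refine Submodule.mul_le.2 ?_
      intro m _ m' hm'
      exact pow_left hl n m m' hm'
  mul_mem := by
    intro m n a b ha hb
    cases m with
    | zero =>
      cases n with
      | zero => rw [pw_zero]; trivial
      | succ n =>
        rw [Nat.zero_add, pw_succ] at *
        exact pow_left hl n a b hb
    | succ m =>
      cases n with
      | zero =>
        rw [Nat.add_zero, pw_succ] at *
        exact pow_right hr m a b ha
      | succ n =>
        rw [pw_succ] at ha hb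
        rw [pw_pos _ (by omega), pow_add I (m + 1) (n + 1)]
        exact Submodule.mul_mem_mul ha hb

theorem pw_succ_le (I : Submodule k A) (n : ℕ) : pw I (n + 1) ≤ pw I n * I := by
  cases n with
  | zero =>
    rw [pw_succ, pw_zero, Nat.zero_add, pow_one]
    intro x hx
    have := Submodule.mul_mem_mul (Submodule.mem_top (R := k) (x := (1 : A))) hx
    rwa [one_mul] at this
  | succ n => rw [pw_succ, pw_succ, ← pow_succ]

end pw

section aug

variable (k : Type*) [Field k] (Q : Type*) [Group Q]

/-- the augmentation ideal -/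
noncomputable def Iaug : Submodule k (MonoidAlgebra k Q) :=
  Submodule.span k (Set.range fun g : Q => (MonoidAlgebra.single g (1 : k) - 1 : MonoidAlgebra k Q))

variable {k Q}

theorem single_sub_one_mem (g : Q) :
    (MonoidAlgebra.single g (1 : k) - 1 : MonoidAlgebra k Q) ∈ Iaug k Q :=
  Submodule.subset_span ⟨g, rfl⟩

theorem single_eq_smul (g : Q) (c : k) :
    (MonoidAlgebra.single g c : MonoidAlgebra k Q) = c • MonoidAlgebra.single g (1 : k) := by
  simp

theorem Iaug_left (a b : MonoidAlgebra k Q) (hb : b ∈ Iaug k Q) : a * b ∈ Iaug k Q := by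
  induction a using MonoidAlgebra.induction_linear with
  | zero => rw [zero_mul]; exact Submodule.zero_mem _
  | add x y hx hy => rw [add_mul]; exact Submodule.add_mem _ hx hy
  | single m r =>
    rw [single_eq_smul, smul_mul_assoc]
    refine Submodule.smul_mem _ _ ?_
    unfold Iaug at hb
    induction hb using Submodule.span_induction with
    | mem x hx =>
      obtain ⟨g, rfl⟩ := hx
      simp only
      have h1 : MonoidAlgebra.single m (1 : k) * (MonoidAlgebra.single g (1 : k) - 1) =
          (MonoidAlgebra.single (m * g) (1 : k) - 1) - (MonoidAlgebra.single m (1 : k) - 1) := by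
        rw [mul_sub, MonoidAlgebra.single_mul_single, mul_one, mul_one]; abel
      rw [h1]
      exact Submodule.sub_mem _ (single_sub_one_mem _) (single_sub_one_mem _)
    | zero => rw [mul_zero]; exact Submodule.zero_mem _
    | add x y _ _ hx hy => rw [mul_add]; exact Submodule.add_mem _ hx hy
    | smul c x _ hx => rw [mul_smul_comm]; exact Submodule.smul_mem _ _ hx

theorem Iaug_right (a : MonoidAlgebra k Q) (ha : a ∈ Iaug k Q) (b : MonoidAlgebra k Q) :
    a * b ∈ Iaug k Q := by
  induction b using MonoidAlgebra.induction_linear with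
  | zero => rw [mul_zero]; exact Submodule.zero_mem _
  | add x y hx hy => rw [mul_add]; exact Submodule.add_mem _ hx hy
  | single m r =>
    rw [single_eq_smul, mul_smul_comm]
    refine Submodule.smul_mem _ _ ?_
    unfold Iaug at ha
    induction ha using Submodule.span_induction with
    | mem x hx =>
      obtain ⟨g, rfl⟩ := hx
      simp only
      have h1 : (MonoidAlgebra.single g (1 : k) - 1) * MonoidAlgebra.single m (1 : k) =
          (MonoidAlgebra.single (g * m) (1 : k) - 1) - (MonoidAlgebra.single m (1 : k) - 1) := by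
        rw [sub_mul, MonoidAlgebra.single_mul_single, one_mul, one_mul]; abel
      rw [h1]
      exact Submodule.sub_mem _ (single_sub_one_mem _) (single_sub_one_mem _)
    | zero => rw [zero_mul]; exact Submodule.zero_mem _
    | add x y _ _ hx hy => rw [add_mul]; exact Submodule.add_mem _ hx hy
    | smul c x _ hx => rw [smul_mul_assoc]; exact Submodule.smul_mem _ _ hx

theorem isFilt_aug : IsFilt (pw (Iaug k Q)) := isFilt_pw Iaug_left Iaug_right

theorem top_le_aug : (⊤ : Submodule k (MonoidAlgebra k Q)) ≤ Submodule.span k {1} ⊔ Iaug k Q := by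
  intro a _
  induction a using MonoidAlgebra.induction_linear with
  | zero => exact Submodule.zero_mem _
  | add x y hx hy => exact Submodule.add_mem _ (hx trivial) (hy trivial)
  | single m r =>
    have h1 : (MonoidAlgebra.single m r : MonoidAlgebra k Q) =
        r • (1 : MonoidAlgebra k Q) + r • (MonoidAlgebra.single m (1 : k) - 1) := by
      rw [single_eq_smul, smul_sub]; abel
    rw [h1]
    exact Submodule.add_mem_sup (Submodule.smul_mem _ _ (Submodule.mem_span_singleton_self _))
      (Submodule.smul_mem _ _ (single_sub_one_mem _))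

variable {α : Type*} [LinearOrder α]

theorem aug_gen (y : α → Q) (hy : Subgroup.closure (Set.range y) = ⊤) :
    Iaug k Q ≤ Submodule.span k (Set.range fun a => (MonoidAlgebra.single (y a) (1 : k) - 1 :
      MonoidAlgebra k Q)) ⊔ Iaug k Q ^ 2 := by
  have hsq : ∀ g h : Q, (MonoidAlgebra.single g (1 : k) - 1) * (MonoidAlgebra.single h (1 : k) - 1)
      ∈ Iaug k Q ^ 2 := by
    intro g h
    rw [pow_two]
    exact Submodule.mul_mem_mul (single_sub_one_mem g) (single_sub_one_mem h)
  refine Submodule.span_le.2 ?_
  rintro _ ⟨g, rfl⟩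
  have hg : g ∈ Subgroup.closure (Set.range y) := by rw [hy]; trivial
  simp only [SetLike.mem_coe]
  induction hg using Subgroup.closure_induction with
  | mem x hx =>
    obtain ⟨a, rfl⟩ := hx
    exact Submodule.mem_sup_left (Submodule.subset_span ⟨a, rfl⟩)
  | one =>
    rw [MonoidAlgebra.one_def, sub_self]
    exact Submodule.zero_mem _
  | mul g h _ _ hg hh =>
    have h1 : (MonoidAlgebra.single (g * h) (1 : k) - 1 : MonoidAlgebra k Q) =
        (MonoidAlgebra.single g (1 : k) - 1) * (MonoidAlgebra.single h (1 : k) - 1) +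
        (MonoidAlgebra.single g (1 : k) - 1) + (MonoidAlgebra.single h (1 : k) - 1) := by
      have : MonoidAlgebra.single (g * h) (1 : k) =
          MonoidAlgebra.single g (1 : k) * MonoidAlgebra.single h (1 : k) := by
        rw [MonoidAlgebra.single_mul_single, mul_one]
      rw [this]; noncomm_ring
    rw [h1]
    exact Submodule.add_mem _ (Submodule.add_mem _ (Submodule.mem_sup_right (hsq g h)) hg) hh
  | inv g _ hg =>
    have h1 : (MonoidAlgebra.single g⁻¹ (1 : k) - 1 : MonoidAlgebra k Q) =
        -((MonoidAlgebra.single g⁻¹ (1 : k) - 1) * (MonoidAlgebra.single g (1 : k) - 1)) -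
        (MonoidAlgebra.single g (1 : k) - 1) := by
      have : MonoidAlgebra.single g⁻¹ (1 : k) * MonoidAlgebra.single g (1 : k) = 1 := by
        rw [MonoidAlgebra.single_mul_single, mul_one, inv_mul_cancel, MonoidAlgebra.one_def]
      have h2 : (MonoidAlgebra.single g⁻¹ (1 : k) - 1) * (MonoidAlgebra.single g (1 : k) - 1) =
          MonoidAlgebra.single g⁻¹ (1 : k) * MonoidAlgebra.single g (1 : k) -
          MonoidAlgebra.single g⁻¹ (1 : k) - MonoidAlgebra.single g (1 : k) + 1 := by noncomm_ring
      rw [h2, this]; abel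
    rw [h1]
    exact Submodule.sub_mem _ (Submodule.neg_mem _ (Submodule.mem_sup_right (hsq _ _))) hg

/-- powers of the augmentation ideal are generated by words in the generators -/
theorem aug_pow_gen (y : α → Q) (hy : Subgroup.closure (Set.range y) = ⊤) (n : ℕ) :
    Iaug k Q ^ n ≤ Submodule.span k {b | ∃ U : List α, U.length = n ∧
      b = wd (fun a => (MonoidAlgebra.single (y a) (1 : k) - 1 : MonoidAlgebra k Q)) U} ⊔
      Iaug k Q ^ (n + 1) := by
  induction n with
  | zero =>
    rw [pow_zero, Submodule.one_eq_span]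
    refine le_sup_of_le_left (Submodule.span_mono ?_)
    intro b hb
    exact ⟨[], rfl, by simpa using hb⟩
  | succ n ih =>
    rw [pow_succ']
    refine (mul_le_mul' (aug_gen y hy) ih).trans ?_
    rw [Submodule.sup_mul, Submodule.mul_sup]
    refine sup_le (sup_le ?_ ?_) ?_
    · rw [Submodule.span_mul_span]
      refine le_sup_of_le_left (Submodule.span_mono ?_)
      rintro _ ⟨_, ⟨a, rfl⟩, _, ⟨U, hU, rfl⟩, rfl⟩
      exact ⟨a :: U, by simp [hU], by rw [wd_cons]⟩
    · refine le_sup_of_le_right ?_
      have h1 : Submodule.span k (Set.range fun a => (MonoidAlgebra.single (y a) (1 : k) - 1 :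
          MonoidAlgebra k Q)) ≤ Iaug k Q := by
        refine Submodule.span_le.2 ?_
        rintro _ ⟨a, rfl⟩
        exact single_sub_one_mem _
      refine (mul_le_mul' h1 le_rfl).trans ?_
      rw [← pow_succ']
    · refine le_sup_of_le_right ?_
      have h1 : Submodule.span k {b | ∃ U : List α, U.length = n ∧
          b = wd (fun a => (MonoidAlgebra.single (y a) (1 : k) - 1 : MonoidAlgebra k Q)) U} ⊔
          Iaug k Q ^ (n + 1) ≤ pw (Iaug k Q) n := by
        refine sup_le (Submodule.span_le.2 ?_) ?_
        · rintro _ ⟨U, hU, rfl⟩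
          rw [← hU]
          refine wd_mem isFilt_aug ?_ U
          intro a
          rw [pw_pos _ le_rfl, pow_one]
          exact single_sub_one_mem _
        · rw [← pw_succ]
          exact isFilt_aug.succ_le n
      have h2 := isFilt_aug (k := k) (Q := Q)
      refine Submodule.mul_le.2 ?_
      intro a ha b hb
      have h3 := h2.mul_mem (m := 2) (n := n) (a := a) (b := b) (by
        rw [pw_pos _ (by norm_num)]; exact ha) (h1 hb)
      rw [pw_pos _ (by omega)] at h3
      have h4 : 2 + n = n + 1 + 1 := by omega
      rwa [h4] at h3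

end aug

end Pool.Agent.H9
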