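import Mathlib
import Pool.Agent.H9.Diff

set_option autoImplicit false
set_option linter.unusedSectionVars false

/-!
# Small functionals
-/

namespace Pool.Agent.H9

open Filter

variable {k : Type*} [Field k] {A : Type*} [Ring A] [Algebra k A]
variable {Γ : Type*} [Group Γ]

/-! ### finite sets of binary words -/

/-- binary words of length `< r` -/
def Wr : ℕ → Finset (List Bool)
  | 0 => ∅
  | r + 1 => insert [] ((Wr r).image (List.cons true) ∪ (Wr r).image (List.cons false))

theorem mem_Wr (r : ℕ) (u : List Bool) : u ∈ Wr r ↔ u.length < r := by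
  induction r generalizing u with
  | zero => simp [Wr]
  | succ r ih =>
    cases u with
    | nil => simp [Wr]
    | cons b u =>
      cases b <;> simp [Wr, ih]

theorem card_Wr (r : ℕ) : (Wr r).card + 1 ≤ 2 ^ r := by
  induction r with
  | zero => simp [Wr]
  | succ r ih =>
    have h1 : (Wr (r + 1)).card ≤ ((Wr r).image (List.cons true) ∪
        (Wr r).image (List.cons false)).card + 1 := Finset.card_insert_le _ _
    have h2 := Finset.card_union_le ((Wr r).image (List.cons true))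
      ((Wr r).image (List.cons false))
    have h3 : ((Wr r).image (List.cons true)).card ≤ (Wr r).card := Finset.card_image_le
    have h4 : ((Wr r).image (List.cons false)).card ≤ (Wr r).card := Finset.card_image_le
    rw [pow_succ]
    omega

theorem Wr_mono {r s : ℕ} (h : r ≤ s) : Wr r ⊆ Wr s := by
  intro u hu
  rw [mem_Wr] at *
  omega

/-! ### the truncated power series functions -/

/-- the truncations of the power series `f` evaluated at `z` -/
def FF (E : Bool → Γ →* A) (f : List Bool → k) (z : Γ) : ℕ → A :=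
  fun T => ∑ u ∈ Wr T, f u • WW E u z

/-- iterated difference functional -/
def TT (F : Γ → ℕ → A) : List Γ → Γ → ℕ → A
  | [], z => F z
  | h :: t, z => TT F t (z * h) - TT F t z

theorem TT_nil (F : Γ → ℕ → A) (z : Γ) : TT F [] z = F z := rfl
theorem TT_cons (F : Γ → ℕ → A) (h : Γ) (t : List Γ) (z : Γ) :
    TT F (h :: t) z = TT F t (z * h) - TT F t z := rfl

theorem TT_eq_DD (F : Γ → ℕ → A) (l : List Γ) (z : Γ) (T : ℕ) :
    TT F l z T = DD l.reverse (fun z => F z T) z := by
  induction l generalizing z with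
  | nil => rfl
  | cons h t ih =>
    rw [TT_cons, List.reverse_cons, DD_append]
    simp only [Pi.sub_apply, ih, DD_cons, DD_nil, Dl]

theorem TT_add (F G : Γ → ℕ → A) (l : List Γ) (z : Γ) :
    TT (F + G) l z = TT F l z + TT G l z := by
  induction l generalizing z with
  | nil => rfl
  | cons h t ih => simp only [TT_cons, ih]; abel

theorem TT_sub (F G : Γ → ℕ → A) (l : List Γ) (z : Γ) :
    TT (F - G) l z = TT F l z - TT G l z := by
  induction l generalizing z with
  | nil => rfl
  | cons h t ih => simp only [TT_cons, ih]; abel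

theorem FF_sub (E : Bool → Γ →* A) (f g : List Bool → k) : FF E (f - g) = FF E f - FF E g := by
  funext z T
  simp only [FF, Pi.sub_apply, sub_smul, Finset.sum_sub_distrib]

theorem FF_eq_sum (E : Bool → Γ →* A) (f : List Bool → k) (T : ℕ) :
    (fun z => FF E f z T) = ∑ u ∈ Wr T, f u • WW E u := by
  funext z
  simp [FF, Finset.sum_apply]

/-! ### small functionals -/

variable (J : ℕ → Submodule k A) (S : ℕ → Subgroup Γ) (M : ℕ)

/-- smallness of a functional at depth `j` -/
def Small : ℕ → ℕ → (List Γ → ℕ → A) → Prop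
  | 0, s, Φ => ∀ᶠ T in atTop, Φ [] T ∈ J s
  | j + 1, s, Φ => ∃ C : ℕ, ∀ᶠ m in atTop, ∃ K : Subgroup Γ, K.relIndex (S m) ≠ 0 ∧
      K.relIndex (S m) ≤ 2 ^ (C * 2 ^ (m / M)) ∧
      ∀ h ∈ K, h ∈ S m → Small j (m + s) (fun t => Φ (h :: t))

/-- uniform order condition -/
def OrdL (j s : ℕ) (Φ : List Γ → ℕ → A) : Prop :=
  ∀ l : List (ℕ × Γ), AdmL S M l → l.length = j →
    ∀ᶠ T in atTop, Φ (l.map Prod.snd) T ∈ J (s + (l.map Prod.fst).sum)

variable {J S M}

theorem Small.of_ord {j s : ℕ} {Φ : List Γ → ℕ → A} (h : OrdL J S M j s Φ) :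
    Small J S M j s Φ := by
  induction j generalizing s Φ with
  | zero =>
    have h1 := h [] (by intro q hq; simp at hq) rfl
    show ∀ᶠ T in atTop, Φ [] T ∈ J s
    filter_upwards [h1] with T hT
    simpa using hT
  | succ j ih =>
    refine ⟨0, ?_⟩
    filter_upwards [eventually_ge_atTop M] with m hm
    refine ⟨⊤, by simp, by simp, ?_⟩
    intro g _ hg
    refine ih ?_
    intro l hl hlen
    have := h ((m, g) :: l) (by
      intro q hq
      rcases List.mem_cons.1 hq with h2 | h2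
      · subst h2; exact ⟨hm, hg⟩
      · exact hl q h2) (by simp [hlen])
    filter_upwards [this] with T hT
    simp only [List.map_cons, List.sum_cons] at hT
    have e : s + (m + (l.map Prod.fst).sum) = m + s + (l.map Prod.fst).sum := by omega
    rw [e] at hT
    exact hT

theorem Small.add {j s : ℕ} {Φ Ψ : List Γ → ℕ → A} (h : Small J S M j s Φ)
    (h' : Small J S M j s Ψ) : Small J S M j s (Φ + Ψ) := by
  induction j generalizing s Φ Ψ with
  | zero =>
    have h1 : ∀ᶠ T in atTop, Φ [] T ∈ J s := h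
    have h2 : ∀ᶠ T in atTop, Ψ [] T ∈ J s := h'
    show ∀ᶠ T in atTop, (Φ + Ψ) [] T ∈ J s
    filter_upwards [h1, h2] with T hT1 hT2
    exact Submodule.add_mem _ hT1 hT2
  | succ j ih =>
    obtain ⟨C, hC⟩ := h
    obtain ⟨C', hC'⟩ := h'
    refine ⟨C + C', ?_⟩
    filter_upwards [hC, hC'] with m hm hm'
    obtain ⟨K, hK0, hK1, hK2⟩ := hm
    obtain ⟨K', hK0', hK1', hK2'⟩ := hm'
    refine ⟨K ⊓ K', ?_, ?_, ?_⟩
    · exact Subgroup.relIndex_inf_ne_zero hK0 hK0'
    · refine (Subgroup.relIndex_inf_le).trans ?_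
      refine (Nat.mul_le_mul hK1 hK1').trans ?_
      rw [← pow_add, add_mul]
    · intro g hg hgS
      exact ih (hK2 g hg.1 hgS) (hK2' g hg.2 hgS)

theorem Small.neg {j s : ℕ} {Φ : List Γ → ℕ → A} (h : Small J S M j s Φ) :
    Small J S M j s (-Φ) := by
  induction j generalizing s Φ with
  | zero =>
    have h1 : ∀ᶠ T in atTop, Φ [] T ∈ J s := h
    show ∀ᶠ T in atTop, (-Φ) [] T ∈ J s
    filter_upwards [h1] with T hT1
    exact Submodule.neg_mem _ hT1
  | succ j ih =>
    obtain ⟨C, hC⟩ := h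
    refine ⟨C, ?_⟩
    filter_upwards [hC] with m hm
    obtain ⟨K, hK0, hK1, hK2⟩ := hm
    exact ⟨K, hK0, hK1, fun g hg hgS => ih (hK2 g hg hgS)⟩

theorem Small.sub {j s : ℕ} {Φ Ψ : List Γ → ℕ → A} (h : Small J S M j s Φ)
    (h' : Small J S M j s Ψ) : Small J S M j s (Φ - Ψ) := by
  rw [sub_eq_add_neg]; exact h.add h'.neg

theorem Small.zero_fun {j s : ℕ} : Small J S M j s (0 : List Γ → ℕ → A) := by
  refine Small.of_ord ?_
  intro l _ _
  filter_upwards with T
  exact Submodule.zero_mem _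

/-! ### orders of the power series functions -/

variable {E : Bool → Γ →* A}

theorem ordF_FF (hJ : IsFilt J) (hE : ∀ b m, ∀ h ∈ S m, E b h - 1 ∈ J m) {f : List Bool → k}
    {r : ℕ} (hf : ∀ u, u.length < r → f u = 0) (T : ℕ) :
    OrdF J S M (M * r) 0 (fun z => FF E f z T) := by
  rw [FF_eq_sum]
  refine OrdF.sum ?_
  intro u _
  by_cases hu : u.length < r
  · rw [hf u hu, zero_smul]; exact OrdF.zero_fun
  · refine OrdF.smul ?_ _
    exact (ordF_word (M := M) hJ hE u).mono hJ (Nat.mul_le_mul_left _ (not_lt.1 hu)) le_rfl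

theorem map_reverse_data (l : List (ℕ × Γ)) :
    (l.map Prod.snd).reverse = l.reverse.map Prod.snd ∧
      (l.reverse.map Prod.fst).sum = (l.map Prod.fst).sum ∧ l.reverse.length = l.length := by
  refine ⟨by simp, by simp, by simp⟩

theorem ordL_FF (hJ : IsFilt J) (hE : ∀ b m, ∀ h ∈ S m, E b h - 1 ∈ J m) {f : List Bool → k}
    {r : ℕ} (hf : ∀ u, u.length < r → f u = 0) {j s : ℕ} (hs : s + M * j ≤ M * r) {z : Γ}
    (hz : z ∈ S M) : OrdL J S M j s (fun t => TT (FF E f) t z) := by
  intro l hl hlen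
  filter_upwards with T
  obtain ⟨h1, h2, h3⟩ := map_reverse_data l
  rw [TT_eq_DD, h1]
  have h4 := ordF_FF (M := M) hJ hE hf T l.reverse (by
    intro q hq; exact hl q (by simpa using hq)) z hz
  rw [h2, h3, hlen] at h4
  refine hJ.le ?_ h4
  omega

theorem ordL_second (hJ : IsFilt J) (hE : ∀ b m, ∀ h ∈ S m, E b h - 1 ∈ J m)
    (f : List Bool → k) {j s m : ℕ} (hm : M ≤ m) (hs : s ≤ m) {g g' z : Γ} (hg : g ∈ S m)
    (hg' : g' ∈ S m) (hz : z ∈ S M) :
    OrdL J S M j (m + s) (fun t => TT (FF E f) (g :: g' :: t) z) := by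
  intro l hl hlen
  filter_upwards with T
  have h4 := ordF_FF (M := M) hJ hE (f := f) (r := 0) (by intro u hu; omega) T
    (((m, g) :: (m, g') :: l).reverse) (by
      intro q hq
      rw [List.mem_reverse] at hq
      rcases List.mem_cons.1 hq with h2 | h2
      · subst h2; exact ⟨hm, hg⟩
      · rcases List.mem_cons.1 h2 with h2 | h2
        · subst h2; exact ⟨hm, hg'⟩
        · exact hl q h2) z hz
  obtain ⟨h1, h2, h3⟩ := map_reverse_data ((m, g) :: (m, g') :: l)
  rw [h2, ← h1] at h4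
  rw [TT_eq_DD]
  simp only [List.map_cons, List.sum_cons, mul_zero, zero_add, Nat.zero_sub, add_zero] at h4 ⊢
  refine hJ.le ?_ h4
  omega

/-! ### the subgroup of small directions -/

theorem TT_mul (F : Γ → ℕ → A) (g g' : Γ) (t : List Γ) (z : Γ) :
    TT F ((g * g') :: t) z = TT F (g :: g' :: t) z + TT F (g :: t) z + TT F (g' :: t) z := by
  simp only [TT_cons, ← mul_assoc]; abel

theorem TT_one (F : Γ → ℕ → A) (t : List Γ) (z : Γ) : TT F (1 :: t) z = 0 := by
  simp [TT_cons]

/-- the subgroup of directions in which the functional is small -/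
def HH (hJ : IsFilt J) (hE : ∀ b m, ∀ h ∈ S m, E b h - 1 ∈ J m)
    (f : List Bool → k) (j s m : ℕ) (hm : M ≤ m) (hs : s ≤ m) (z : Γ) (hz : z ∈ S M) :
    Subgroup Γ where
  carrier := {g | g ∈ S m ∧ Small J S M j (m + s) (fun t => TT (FF E f) (g :: t) z)}
  mul_mem' := by
    rintro a b ⟨ha, ha'⟩ ⟨hb, hb'⟩
    refine ⟨(S m).mul_mem ha hb, ?_⟩
    have h1 : (fun t => TT (FF E f) ((a * b) :: t) z) =
        (fun t => TT (FF E f) (a :: b :: t) z) + (fun t => TT (FF E f) (a :: t) z) +
          (fun t => TT (FF E f) (b :: t) z) := by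
      funext t
      exact TT_mul _ a b t z
    rw [h1]
    exact ((Small.of_ord (ordL_second hJ hE f hm hs ha hb hz)).add ha').add hb'
  one_mem' := by
    refine ⟨(S m).one_mem, ?_⟩
    have h1 : (fun t => TT (FF E f) (1 :: t) z) = 0 := by
      funext t
      exact TT_one _ t z
    rw [h1]
    exact Small.zero_fun
  inv_mem' := by
    rintro a ⟨ha, ha'⟩
    have hai := (S m).inv_mem ha
    refine ⟨hai, ?_⟩
    have h1 : (fun t => TT (FF E f) (a⁻¹ :: t) z) =
        -(fun t => TT (FF E f) (a :: a⁻¹ :: t) z) - (fun t => TT (FF E f) (a :: t) z) := by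
      funext t
      have h2 := TT_mul (FF E f) a a⁻¹ t z
      rw [mul_inv_cancel, TT_one] at h2
      simp only [Pi.sub_apply, Pi.neg_apply]
      have h3 : TT (FF E f) (a⁻¹ :: t) z = 0 - TT (FF E f) (a :: a⁻¹ :: t) z -
        TT (FF E f) (a :: t) z := by rw [h2]; abel
      rw [h3]; abel
    rw [h1]
    exact (Small.of_ord (ordL_second hJ hE f hm hs ha hai hz)).neg.sub ha'

theorem mem_HH (hJ : IsFilt J) (hE : ∀ b m, ∀ h ∈ S m, E b h - 1 ∈ J m)
    (f : List Bool → k) (j s m : ℕ) (hm : M ≤ m) (hs : s ≤ m) (z : Γ) (hz : z ∈ S M) (g : Γ) :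
    g ∈ HH hJ hE f j s m hm hs z hz ↔
      g ∈ S m ∧ Small J S M j (m + s) (fun t => TT (FF E f) (g :: t) z) := Iff.rfl

theorem class_sub_HH (hJ : IsFilt J) (hE : ∀ b m, ∀ h ∈ S m, E b h - 1 ∈ J m)
    {j s m r : ℕ} (hm : M ≤ m) (hs : s ≤ m) (hr : m + s + M * j ≤ M * r) {z y : Γ}
    (hz : z ∈ S M) (hy : y ∈ S M) {f g : List Bool → k}
    (hzy : z⁻¹ * y ∈ S m) (hfg : ∀ u, u.length < r → f u = g u)
    (hsz : Small J S M j (m + s) (fun t => TT (FF E f) t z))
    (hsy : Small J S M j (m + s) (fun t => TT (FF E g) t y)) :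
    z⁻¹ * y ∈ HH hJ hE f j s m hm hs z hz := by
  refine ⟨hzy, ?_⟩
  have h1 : (fun t => TT (FF E f) ((z⁻¹ * y) :: t) z) =
      (fun t => TT (FF E (f - g)) t y) + (fun t => TT (FF E g) t y) -
        (fun t => TT (FF E f) t z) := by
    funext t
    rw [TT_cons, FF_sub]
    simp only [Pi.sub_apply, Pi.add_apply, TT_sub, mul_inv_cancel_left]
    abel
  rw [h1]
  refine ((Small.of_ord (ordL_FF (r := r) hJ hE ?_ hr hy)).add hsy).sub hsz
  intro u hu
  simp [hfg u hu]

end Pool.Agent.H9
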