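import Mathlib
import Pool.Agent.H9.Small

set_option autoImplicit false
set_option linter.unusedSectionVars false

/-!
# The derivation lemma: smallness at depth `j` gives smallness at depth `j + 1` almost everywhere
-/

namespace Pool.Agent.H9

open Filter MeasureTheory

section meas

variable {Γ : Type*} [Group Γ] [MeasurableSpace Γ] [MeasurableMul Γ] (μ : Measure Γ)
  [μ.IsMulLeftInvariant]

theorem finset_card_bound {K H : Subgroup Γ} {z : Γ} {Y : Set Γ} (hY : MeasurableSet Y)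
    (hYH : ∀ y ∈ Y, z⁻¹ * y ∈ H) (hHK : H ≤ K) (s : Finset (K ⧸ H.subgroupOf K)) :
    (s.card : ENNReal) * μ Y ≤ μ (K : Set Γ) := by
  classical
  let g : (K ⧸ H.subgroupOf K) → Γ := fun q => (q.out : K)
  let B : (K ⧸ H.subgroupOf K) → Set Γ := fun q => (fun x => (z * (g q)⁻¹) * x) ⁻¹' Y
  have hB1 : ∀ q, μ (B q) = μ Y := fun q => measure_preimage_mul μ _ Y
  have hB2 : ∀ q, MeasurableSet (B q) := fun q => (measurable_const_mul _) hY
  have hB3 : ∀ q, ∀ x ∈ B q, (g q)⁻¹ * x ∈ H := by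
    intro q x hx
    have h1 := hYH _ hx
    have h2 : z⁻¹ * (z * (g q)⁻¹ * x) = (g q)⁻¹ * x := by group
    rwa [h2] at h1
  have hB4 : Set.PairwiseDisjoint (s : Set (K ⧸ H.subgroupOf K)) B := by
    intro q _ q' _ hqq
    refine Set.disjoint_left.2 ?_
    intro x hx hx'
    apply hqq
    have h1 := hB3 q x hx
    have h2 := hB3 q' x hx'
    have h3 : (g q)⁻¹ * g q' ∈ H := by
      have h4 := H.mul_mem h1 (H.inv_mem h2)
      have h5 : (g q)⁻¹ * x * ((g q')⁻¹ * x)⁻¹ = (g q)⁻¹ * g q' := by group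
      rwa [h5] at h4
    have h6 : (QuotientGroup.mk q.out : K ⧸ H.subgroupOf K) = QuotientGroup.mk q'.out := by
      rw [QuotientGroup.eq, Subgroup.mem_subgroupOf]
      simpa using h3
    rwa [QuotientGroup.out_eq', QuotientGroup.out_eq'] at h6
  have h1 : ∑ q ∈ s, μ (B q) = μ (⋃ q ∈ s, B q) :=
    (measure_biUnion_finset hB4 fun q _ => hB2 q).symm
  have h2 : (⋃ q ∈ s, B q) ⊆ (K : Set Γ) := by
    intro x hx
    simp only [Set.mem_iUnion] at hx
    obtain ⟨q, _, hx⟩ := hx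
    have h3 := hHK (hB3 q x hx)
    have h4 : g q ∈ K := q.out.2
    have h5 := K.mul_mem h4 h3
    simpa using h5
  have h3 : ∑ q ∈ s, μ (B q) = (s.card : ENNReal) * μ Y := by
    simp [hB1]
  rw [← h3, h1]
  exact measure_mono h2

theorem relIndex_bound {K H : Subgroup Γ} {z : Γ} {Y : Set Γ} (hY : MeasurableSet Y)
    (hYH : ∀ y ∈ Y, z⁻¹ * y ∈ H) (hHK : H ≤ K) {B : ℕ}
    (hB : μ (K : Set Γ) < (B : ENNReal) * μ Y) : H.relIndex K ≠ 0 ∧ H.relIndex K ≤ B := by
  classical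
  have key : ∀ s : Finset (K ⧸ H.subgroupOf K), s.card < B := by
    intro s
    by_contra hcon
    have h1 := finset_card_bound μ hY hYH hHK s
    have h2 : (B : ENNReal) * μ Y ≤ (s.card : ENNReal) * μ Y := by
      gcongr
      exact_mod_cast not_lt.1 hcon
    exact absurd (lt_of_lt_of_le hB (h2.trans h1)) (lt_irrefl _)
  have hfin : Finite (K ⧸ H.subgroupOf K) := by
    by_contra hinf
    rw [not_finite_iff_infinite] at hinf
    obtain ⟨s, hs⟩ := Infinite.exists_subset_card_eq (K ⧸ H.subgroupOf K) B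
    have := key s
    omega
  have hrel : H.relIndex K = Nat.card (K ⧸ H.subgroupOf K) := rfl
  have := Fintype.ofFinite (K ⧸ H.subgroupOf K)
  rw [hrel, Nat.card_eq_fintype_card]
  refine ⟨Fintype.card_ne_zero, ?_⟩
  exact (key Finset.univ).le

theorem index_bound_arith (q M m s j w : ℕ) (hM : 1 ≤ M) (hq : 1 ≤ q)
    (hw : w ≤ 2 ^ ((m + s) / M + 1 + j)) :
    q ^ w * 2 ^ m ≤ 2 ^ ((q * 2 ^ (s / M + 2 + j) + M) * 2 ^ (m / M)) := by
  have h1 : (m + s) / M ≤ m / M + s / M + 1 := by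
    have h2 : m + s < M * (m / M + s / M + 2) := by
      have h3 := Nat.lt_mul_div_succ m (show 0 < M by omega)
      have h4 := Nat.lt_mul_div_succ s (show 0 < M by omega)
      have : M * (m / M + s / M + 2) = M * (m / M + 1) + M * (s / M + 1) := by ring
      omega
    have := Nat.div_lt_of_lt_mul h2
    omega
  have h2 : w ≤ 2 ^ (s / M + 2 + j) * 2 ^ (m / M) := by
    refine hw.trans ?_
    rw [← pow_add]
    exact Nat.pow_le_pow_right (by norm_num) (by omega)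
  have h3 : q ^ w ≤ 2 ^ (q * (2 ^ (s / M + 2 + j) * 2 ^ (m / M))) := by
    calc q ^ w ≤ (2 ^ q) ^ w := Nat.pow_le_pow_left (Nat.lt_two_pow_self).le _
      _ = 2 ^ (q * w) := by rw [← pow_mul]
      _ ≤ _ := Nat.pow_le_pow_right (by norm_num) (Nat.mul_le_mul_left _ h2)
  have h4 : m ≤ M * 2 ^ (m / M) := by
    have h5 := Nat.lt_mul_div_succ m (show 0 < M by omega)
    have h6 : m / M + 1 ≤ 2 ^ (m / M) := Nat.lt_two_pow_self
    exact h5.le.trans (Nat.mul_le_mul_left _ h6)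
  calc q ^ w * 2 ^ m ≤ 2 ^ (q * (2 ^ (s / M + 2 + j) * 2 ^ (m / M))) * 2 ^ (M * 2 ^ (m / M)) :=
        Nat.mul_le_mul h3 (Nat.pow_le_pow_right (by norm_num) h4)
    _ = _ := by rw [← pow_add]; ring_nf

end meas

section derive

variable {k : Type*} [Field k] [Finite k] {A : Type*} [Ring A] [Algebra k A]
variable {Γ : Type*} [Group Γ] [MeasurableSpace Γ] [MeasurableMul Γ] (μ : Measure Γ)
  [IsProbabilityMeasure μ] [μ.IsMulLeftInvariant]
variable {J : ℕ → Submodule k A} {S : ℕ → Subgroup Γ} {M : ℕ} {E : Bool → Γ →* A}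

/-- the class map at level `m` -/
def cls (S : ℕ → Subgroup Γ) (f : Γ → List Bool → k) (m r : ℕ) (y : Γ) :
    (Γ ⧸ S m) × (Wr r → k) := (QuotientGroup.mk y, fun u => f y u)

theorem meas_cls (hSm : ∀ m, MeasurableSet (S m : Set Γ)) {Z : Set Γ} (hZ : MeasurableSet Z)
    (f : Γ → List Bool → k)
    (hf : ∀ u c, MeasurableSet {z | z ∈ Z ∧ f z u = c}) (m r : ℕ) (c : (Γ ⧸ S m) × (Wr r → k)) :
    MeasurableSet {y | y ∈ Z ∧ cls S f m r y = c} := by
  have h1 : {y | y ∈ Z ∧ cls S f m r y = c} =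
      (Z ∩ (fun y => c.1.out⁻¹ * y) ⁻¹' (S m : Set Γ)) ∩
        ⋂ u : Wr r, {y | y ∈ Z ∧ f y u = c.2 u} := by
    ext y
    simp only [cls, Set.mem_ofPred_eq, Set.mem_inter_iff, Set.mem_preimage, SetLike.mem_coe,
      Set.mem_iInter]
    constructor
    · rintro ⟨hy, h2⟩
      refine ⟨⟨hy, ?_⟩, ?_⟩
      · rw [← h2]
        simp only
        rw [← QuotientGroup.eq, QuotientGroup.out_eq']
      · intro u
        refine ⟨hy, ?_⟩
        rw [← h2]
    · rintro ⟨⟨hy, h2⟩, h3⟩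
      refine ⟨hy, ?_⟩
      refine Prod.ext ?_ ?_
      · rw [← QuotientGroup.eq, QuotientGroup.out_eq'] at h2
        exact h2.symm
      · funext u
        exact (h3 u).2
  rw [h1]
  refine MeasurableSet.inter (hZ.inter ((measurable_const_mul _) (hSm m))) ?_
  exact MeasurableSet.iInter fun u => hf _ _

theorem derive (hJ : IsFilt J) (hE : ∀ b m, ∀ h ∈ S m, E b h - 1 ∈ J m) (hM : 1 ≤ M)
    (hSm : ∀ m, MeasurableSet (S m : Set Γ)) (hSi : ∀ m, (S m).FiniteIndex)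
    {Z : Set Γ} (hZ : MeasurableSet Z) (hZS : ∀ z ∈ Z, z ∈ S M) (f : Γ → List Bool → k)
    (hf : ∀ u c, MeasurableSet {z | z ∈ Z ∧ f z u = c}) (j : ℕ)
    (hsm : ∀ z ∈ Z, ∀ s, Small J S M j s (fun t => TT (FF E (f z)) t z)) :
    ∃ Z' : Set Γ, Z' ⊆ Z ∧ MeasurableSet Z' ∧ μ Z' = μ Z ∧
      ∀ z ∈ Z', ∀ s, Small J S M (j + 1) s (fun t => TT (FF E (f z)) t z) := by
  classical
  haveI := Fintype.ofFinite k
  haveI : ∀ m, Finite (Γ ⧸ S m) := fun m => by
    haveI := hSi m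
    infer_instance
  haveI : ∀ m, Fintype (Γ ⧸ S m) := fun m => Fintype.ofFinite _
  let r : ℕ → ℕ → ℕ := fun s m => (m + s) / M + 1 + j
  let Nc : ℕ → ℕ → ℕ := fun s m => Fintype.card ((Γ ⧸ S m) × (Wr (r s m) → k))
  let eps : ℕ → ℕ → ENNReal := fun s m => ((Nc s m : ENNReal) * 2 ^ m)⁻¹
  let Cl : (s m : ℕ) → ((Γ ⧸ S m) × (Wr (r s m) → k)) → Set Γ :=
    fun s m c => {y | y ∈ Z ∧ cls S f m (r s m) y = c}
  let Bad : ℕ → ℕ → Set Γ := fun s m => ⋃ c, if μ (Cl s m c) ≤ eps s m then Cl s m c else ∅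
  have hNc : ∀ s m, (Nc s m : ENNReal) ≠ 0 := by
    intro s m
    have : Nc s m ≠ 0 := Fintype.card_ne_zero
    exact_mod_cast this
  have hBad : ∀ s m, μ (Bad s m) ≤ ((2:ENNReal) ^ m)⁻¹ := by
    intro s m
    refine (measure_iUnion_fintype_le μ _).trans ?_
    have h1 : ∀ c, μ (if μ (Cl s m c) ≤ eps s m then Cl s m c else ∅) ≤ eps s m := by
      intro c
      split_ifs with h
      · exact h
      · simp
    refine (Finset.sum_le_sum fun c _ => h1 c).trans ?_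
    rw [Finset.sum_const, nsmul_eq_mul, Finset.card_univ]
    change (Nc s m : ENNReal) * eps s m ≤ _
    simp only [eps]
    rw [ENNReal.mul_inv (Or.inl (hNc s m)) (Or.inl (ENNReal.natCast_ne_top _)), ← mul_assoc,
      ENNReal.mul_inv_cancel (hNc s m) (ENNReal.natCast_ne_top _), one_mul]
  have hlim : ∀ s, μ (limsup (Bad s) atTop) = 0 := by
    intro s
    refine measure_limsup_atTop_eq_zero ?_
    have h1 : ∑' m, μ (Bad s m) ≤ ∑' m : ℕ, ((2:ENNReal)⁻¹) ^ m := by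
      refine ENNReal.tsum_le_tsum fun m => ?_
      rw [← ENNReal.inv_pow]
      exact hBad s m
    rw [ENNReal.tsum_geometric] at h1
    refine ne_top_of_le_ne_top ?_ h1
    simp
  have hnull : μ (⋃ s, limsup (Bad s) atTop) = 0 := measure_iUnion_null hlim
  let N0 := toMeasurable μ (⋃ s, limsup (Bad s) atTop)
  have hN0 : μ N0 = 0 := by rw [measure_toMeasurable]; exact hnull
  refine ⟨Z \ N0, Set.sdiff_subset, hZ.diff (measurableSet_toMeasurable _ _), ?_, ?_⟩
  · exact measure_sdiff_null hN0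
  intro z hz s
  have hzZ : z ∈ Z := hz.1
  have hzS := hZS z hzZ
  have hz2 : z ∉ limsup (Bad s) atTop := by
    intro hcon
    exact hz.2 (subset_toMeasurable _ _ (Set.mem_iUnion.2 ⟨s, hcon⟩))
  have hz3 : ∀ᶠ m in atTop, z ∉ Bad s m := by
    rw [mem_limsup_iff_frequently_mem] at hz2
    rwa [not_frequently] at hz2
  refine ⟨(Fintype.card k) * 2 ^ (s / M + 2 + j) + M, ?_⟩
  filter_upwards [hz3, eventually_ge_atTop M, eventually_ge_atTop s] with m hm1 hmM hms
  have hr : m + s + M * j ≤ M * r s m := by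
    have h3 := Nat.lt_mul_div_succ (m + s) (show 0 < M by omega)
    have h4 : M * ((m + s) / M + 1 + j) = M * ((m + s) / M + 1) + M * j := by ring
    show m + s + M * j ≤ M * ((m + s) / M + 1 + j)
    omega
  refine ⟨HH hJ hE (f z) j s m hmM hms z hzS, ?_⟩
  have hY1 : ∀ y ∈ Cl s m (cls S f m (r s m) z), z⁻¹ * y ∈ HH hJ hE (f z) j s m hmM hms z hzS := by
    rintro y ⟨hyZ, hy⟩
    have hy1 : (QuotientGroup.mk y : Γ ⧸ S m) = QuotientGroup.mk z := (Prod.ext_iff.1 hy).1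
    have hy2 : (fun u : Wr (r s m) => f y u) = fun u : Wr (r s m) => f z u := (Prod.ext_iff.1 hy).2
    refine class_sub_HH hJ hE hmM hms hr hzS (hZS y hyZ) (g := f y) ?_ ?_ (hsm z hzZ _)
      (hsm y hyZ _)
    · exact QuotientGroup.eq.1 hy1.symm
    · intro u hu
      exact (congrFun hy2 ⟨u, (mem_Wr _ _).2 hu⟩).symm
  have hY2 : eps s m < μ (Cl s m (cls S f m (r s m) z)) := by
    by_contra hcon
    apply hm1
    refine Set.mem_iUnion.2 ⟨cls S f m (r s m) z, ?_⟩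
    rw [if_pos (not_lt.1 hcon)]
    exact ⟨hzZ, rfl⟩
  have hY3 : MeasurableSet (Cl s m (cls S f m (r s m) z)) := meas_cls hSm hZ f hf m _ _
  -- measure of `S m`
  have hidx : ((S m).index : ENNReal) * μ (S m : Set Γ) = 1 := by
    haveI := hSi m
    rw [Subgroup.index_mul_measure (S m) (hSm m) μ]
    exact measure_univ
  have hNc2 : Nc s m = (S m).index * (Fintype.card k) ^ (Wr (r s m)).card := by
    simp only [Nc, Fintype.card_prod, Fintype.card_fun, Fintype.card_coe]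
    congr 1
    rw [Subgroup.index, Nat.card_eq_fintype_card]
  have hB : μ (S m : Set Γ) < (((Fintype.card k) ^ (Wr (r s m)).card * 2 ^ m : ℕ) : ENNReal) *
      μ (Cl s m (cls S f m (r s m) z)) := by
    have hidx0 : ((S m).index : ENNReal) ≠ 0 := by
      intro h0; rw [h0, zero_mul] at hidx; exact zero_ne_one hidx
    have hBne : (((Fintype.card k) ^ (Wr (r s m)).card * 2 ^ m : ℕ) : ENNReal) ≠ 0 := by
      have : (Fintype.card k) ^ (Wr (r s m)).card * 2 ^ m ≠ 0 :=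
        Nat.mul_ne_zero (pow_ne_zero _ Fintype.card_ne_zero) (by positivity)
      exact_mod_cast this
    have h1 : μ (S m : Set Γ) = (((Fintype.card k) ^ (Wr (r s m)).card * 2 ^ m : ℕ) : ENNReal) *
        eps s m := by
      have h2 : (Nc s m : ENNReal) * 2 ^ m = ((S m).index : ENNReal) *
          (((Fintype.card k) ^ (Wr (r s m)).card * 2 ^ m : ℕ) : ENNReal) := by
        rw [hNc2]; push_cast; ring
      simp only [eps]
      rw [h2, ENNReal.mul_inv (Or.inl hidx0) (Or.inl (ENNReal.natCast_ne_top _)), mul_comm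
        (((S m).index : ENNReal)⁻¹), ← mul_assoc, ENNReal.mul_inv_cancel hBne
        (ENNReal.natCast_ne_top _), one_mul]
      exact ENNReal.eq_inv_of_mul_eq_one_left (by rw [mul_comm]; exact hidx)
    rw [h1]
    exact ENNReal.mul_lt_mul_right hBne (ENNReal.natCast_ne_top _) hY2
  have hle : HH hJ hE (f z) j s m hmM hms z hzS ≤ S m := fun g hg => hg.1
  obtain ⟨hb1, hb2⟩ := relIndex_bound μ hY3 hY1 hle hB
  refine ⟨hb1, hb2.trans ?_, ?_⟩
  · refine index_bound_arith _ _ _ _ _ _ hM Fintype.card_pos ?_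
    have := card_Wr (r s m)
    show (Wr (r s m)).card ≤ 2 ^ (r s m)
    omega
  · intro g hg _
    exact hg.2

theorem derive_all (hJ : IsFilt J) (hE : ∀ b m, ∀ h ∈ S m, E b h - 1 ∈ J m) (hM : 1 ≤ M)
    (hSm : ∀ m, MeasurableSet (S m : Set Γ)) (hSi : ∀ m, (S m).FiniteIndex)
    {Z : Set Γ} (hZ : MeasurableSet Z) (hZS : ∀ z ∈ Z, z ∈ S M) (f : Γ → List Bool → k)
    (hf : ∀ u c, MeasurableSet {z | z ∈ Z ∧ f z u = c})
    (hsm : ∀ z ∈ Z, ∀ s, ∀ᶠ T in atTop, FF E (f z) z T ∈ J s) (j : ℕ) :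
    ∃ Z' : Set Γ, Z' ⊆ Z ∧ MeasurableSet Z' ∧ μ Z' = μ Z ∧
      ∀ z ∈ Z', ∀ s, Small J S M j s (fun t => TT (FF E (f z)) t z) := by
  induction j with
  | zero =>
    refine ⟨Z, le_rfl, hZ, rfl, ?_⟩
    intro z hz s
    exact hsm z hz s
  | succ j ih =>
    obtain ⟨Z', h1, h2, h3, h4⟩ := ih
    have hf' : ∀ u c, MeasurableSet {z | z ∈ Z' ∧ f z u = c} := by
      intro u c
      have h5 : {z | z ∈ Z' ∧ f z u = c} = Z' ∩ {z | z ∈ Z ∧ f z u = c} := by
        ext z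
        simp only [Set.mem_ofPred_eq, Set.mem_inter_iff]
        constructor
        · rintro ⟨h6, h7⟩; exact ⟨h6, h1 h6, h7⟩
        · rintro ⟨h6, _, h7⟩; exact ⟨h6, h7⟩
      rw [h5]
      exact h2.inter (hf u c)
    obtain ⟨Z'', h1', h2', h3', h4'⟩ := derive μ hJ hE hM hSm hSi h2 (fun z hz => hZS z (h1 hz)) f
      hf' j h4
    exact ⟨Z'', h1'.trans h1, h2', h3'.trans h3, h4'⟩

end derive

end Pool.Agent.H9
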