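import Mathlib
import Pool.Agent.H9.Small
import Pool.Agent.H9.LynElt

set_option autoImplicit false
set_option linter.unusedSectionVars false

/-!
# Descent: a small power series relation contradicts the tree of Lyndon words
-/

namespace Pool.Agent.H9

open Filter

section arith

theorem eventually_pow_lt {M : ℕ} (hM : 1 ≤ M) {ρ : ℝ} (hρ1 : 1 < ρ) (hρ : 2 < ρ ^ M) (C : ℕ) :
    ∀ᶠ m : ℕ in atTop, ((C * 2 ^ (m / M) : ℕ) : ℝ) < ρ ^ m := by
  have h1 : 1 < ρ ^ M / 2 := by linarith
  have h2 := tendsto_pow_atTop_atTop_of_one_lt h1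
  obtain ⟨n₀, hn₀⟩ := eventually_atTop.1 (h2.eventually_gt_atTop (C : ℝ))
  filter_upwards [eventually_ge_atTop (M * n₀)] with m hm
  have h3 : n₀ ≤ m / M := (Nat.le_div_iff_mul_le (by omega)).2 (by rw [mul_comm]; exact hm)
  have h4 := hn₀ _ h3
  have h5 : ρ ^ (M * (m / M)) ≤ ρ ^ m := pow_le_pow_right₀ hρ1.le (Nat.mul_div_le m M)
  have h6 : ρ ^ (M * (m / M)) = (ρ ^ M / 2) ^ (m / M) * 2 ^ (m / M) := by
    rw [← mul_pow, pow_mul]; congr 1; ring
  push_cast
  refine lt_of_lt_of_le ?_ h5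
  rw [h6]
  exact mul_lt_mul_of_pos_right h4 (by positivity)

end arith

variable {k : Type*} [Field k] {A : Type*} [Ring A] [Algebra k A]
variable {G : Type*} [Group G]
variable {J : ℕ → Submodule k A} (hJ : IsFilt J) (ι : G →* A)

/-- the product filtration -/
def S2 (m : ℕ) : Subgroup (G × G) := (Dsub hJ ι m).prod (Dsub hJ ι m)

/-- the two evaluations -/
def E2 (b : Bool) : G × G →* A :=
  match b with
  | true => ι.comp (MonoidHom.fst G G)
  | false => ι.comp (MonoidHom.snd G G)

/-- the two inclusions -/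
def inc (b : Bool) : G →* G × G :=
  match b with
  | true => MonoidHom.inl G G
  | false => MonoidHom.inr G G

theorem E2_mem (b : Bool) (m : ℕ) (h : G × G) (hh : h ∈ S2 hJ ι m) : E2 ι b h - 1 ∈ J m := by
  cases b
  · exact hh.2
  · exact hh.1

theorem E2_inc (b : Bool) (g : G) : E2 ι b (inc b g) = ι g := by
  cases b <;> rfl

theorem E2_inc_ne (b b' : Bool) (hb : b' ≠ b) (g : G) : E2 ι b' (inc b g) = 1 := by
  cases b <;> cases b' <;> simp_all [E2, inc]

theorem inc_mem (b : Bool) (m : ℕ) (g : G) (hg : g ∈ Dsub hJ ι m) : inc b g ∈ S2 hJ ι m := by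
  cases b
  · exact ⟨(Dsub hJ ι m).one_mem, hg⟩
  · exact ⟨hg, (Dsub hJ ι m).one_mem⟩

theorem relIndex_inc (b : Bool) (m : ℕ) (K : Subgroup (G × G))
    (hK : K.relIndex (S2 hJ ι m) ≠ 0) :
    (K.comap (inc b)).relIndex (Dsub hJ ι m) ≠ 0 ∧
      (K.comap (inc b)).relIndex (Dsub hJ ι m) ≤ K.relIndex (S2 hJ ι m) := by
  have h1 : (Dsub hJ ι m).map (inc b) ≤ S2 hJ ι m := by
    rintro _ ⟨g, hg, rfl⟩
    exact inc_mem hJ ι b m g hg
  rw [Subgroup.relIndex_comap]
  exact ⟨fun h => hK (Subgroup.relIndex_eq_zero_of_le_right h1 h),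
    Subgroup.relIndex_le_of_le_right h1 hK⟩

variable {α : Type*} [LinearOrder α] {v : α → A}

theorem LW_sum {ι' : Type*} (s : Finset ι') (u : List α) (c : ι' → k) (a : ι' → A)
    (h : ∀ i ∈ s, LW J v u (c i) (a i)) : LW J v u (∑ i ∈ s, c i) (∑ i ∈ s, a i) := by
  classical
  induction s using Finset.induction_on with
  | empty => simpa using LW.zero (J := J) (v := v) (k := k) u
  | insert i s hi ih =>
    rw [Finset.sum_insert hi, Finset.sum_insert hi]
    exact (h i (by simp)).add (ih fun j hj => h j (by simp [hj]))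

variable {ι}

theorem descend_base {M : ℕ} (hM : 1 ≤ M) (hv : ∀ a, v a ∈ J 1) (f : List Bool → k)
    (ξ : List Bool) (hξ : f ξ ≠ 0) (hmin : ∀ u, u.length < ξ.length → f u = 0) (z : G × G)
    (hz : z ∈ S2 hJ ι M) (P : List (Dat (G × G) α Bool k))
    (hok : ∀ q ∈ P, q.OK J v (S2 hJ ι) M (E2 ι)) (hpw : (P.map Dat.u).Pairwise BLt)
    (hn : wd v (P.map Dat.u).flatten ∉ Gt J v (P.map Dat.u).flatten)
    (hc : (P.map Dat.c).prod ≠ 0) (hb : P.map Dat.b = ξ)
    (hs : Small J (S2 hJ ι) M 0 (1 + (P.map Dat.u).flatten.length)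
      (fun t => TT (FF (E2 ι) f) ((P.map Dat.h).reverse ++ t) z)) : False := by
  classical
  have hlen : P.length = ξ.length := by rw [← hb, List.length_map]
  have hs' : ∀ᶠ T in atTop, TT (FF (E2 ι) f) ((P.map Dat.h).reverse ++ []) z T ∈
    J (1 + (P.map Dat.u).flatten.length) := hs
  obtain ⟨T, hT1, hT2⟩ := (hs'.and (eventually_gt_atTop ξ.length)).exists
  rw [List.append_nil, TT_eq_DD, List.reverse_reverse, FF_eq_sum, DD_sum, Finset.sum_apply] at hT1
  have hE := E2_mem hJ ι
  have key : ∀ w ∈ Wr T, LW J v (P.map Dat.u).flatten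
      (if w = ξ then f ξ * (P.map Dat.c).prod else 0)
      (DD (P.map Dat.h) (f w • WW (E2 ι) w) z) := by
    intro w _
    rw [DD_smul, Pi.smul_apply]
    rcases lt_trichotomy w.length ξ.length with h | h | h
    · have h1 : w ≠ ξ := fun h' => by rw [h'] at h; omega
      rw [if_neg h1, hmin w h, zero_smul]
      exact LW.zero _
    · have h1 := (lead_word hJ hv hM hE w P hok hpw (by omega) z hz).smul (f w)
      rw [hb] at h1
      by_cases hw : w = ξ
      · rw [if_pos hw]
        rw [if_pos hw, hw] at h1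
        rw [hw]
        exact h1
      · rw [if_neg hw]
        rw [if_neg hw, mul_zero] at h1
        exact h1
    · have h1 : w ≠ ξ := fun h' => by rw [h'] at h; omega
      rw [if_neg h1]
      refine LW.of_Gt ?_
      refine Submodule.smul_mem _ _ (J_le_Gt _ ?_)
      have hl : AdmL (S2 hJ ι) M (P.map (fun q => (q.u.length, q.h))) := by
        intro q' hq'
        obtain ⟨q'', hq'', rfl⟩ := List.mem_map.1 hq'
        exact ⟨(hok q'' hq'').len, (hok q'' hq'').mem⟩
      have h2 := ordF_word (M := M) hJ hE w _ hl z hz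
      have h3 : (P.map (fun q => (q.u.length, q.h))).map Prod.snd = P.map Dat.h := by
        rw [List.map_map]; rfl
      have h4 : (P.map (fun q => (q.u.length, q.h))).map Prod.fst =
          P.map (fun q => q.u.length) := by
        rw [List.map_map]; rfl
      rw [h3, h4, ← flatten_length_sum, List.length_map] at h2
      refine hJ.le ?_ h2
      have h5 : M * P.length + 1 ≤ M * w.length := by
        have h6 : M * (P.length + 1) ≤ M * w.length := Nat.mul_le_mul_left _ (by omega)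
        rw [Nat.mul_succ] at h6
        omega
      omega
  have h1 := LW_sum (Wr T) (P.map Dat.u).flatten _ _ key
  have h2 : ∑ w ∈ Wr T, (if w = ξ then f ξ * (P.map Dat.c).prod else 0) =
      f ξ * (P.map Dat.c).prod := by
    rw [Finset.sum_ite_eq']
    rw [if_pos ((mem_Wr _ _).2 hT2)]
  rw [h2] at h1
  have h3 : (f ξ * (P.map Dat.c).prod) • wd v (P.map Dat.u).flatten ∈
      Gt J v (P.map Dat.u).flatten := by
    have h4 : (∑ w ∈ Wr T, DD (P.map Dat.h) (f w • WW (E2 ι) w) z) ∈
        Gt J v (P.map Dat.u).flatten := by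
      refine J_le_Gt _ ?_
      rw [add_comm]
      exact hT1
    have h5 := Submodule.sub_mem _ h4 h1
    rwa [sub_sub_cancel] at h5
  have h4 : f ξ * (P.map Dat.c).prod ≠ 0 := mul_ne_zero hξ hc
  apply hn
  have h5 := Submodule.smul_mem _ (f ξ * (P.map Dat.c).prod)⁻¹ h3
  rwa [smul_smul, inv_mul_cancel₀ h4, one_smul] at h5

theorem descend [Finite α] {M : ℕ} (hM : 1 ≤ M) (hv : ∀ a, v a ∈ J 1) {x : α → G}
    (hx : ∀ a, v a = ι (x a) - 1) {Good : List (List α) → Prop} {ρ : ℝ} (hρ1 : 1 < ρ)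
    (hρ : 2 < ρ ^ M)
    (hG1 : ∀ us, Good us → ∀ m₀, ∃ m, m₀ ≤ m ∧
        ρ ^ m ≤ ({u | u.length = m ∧ Good (u :: us)}.ncard : ℝ))
    (hG2 : ∀ us, Good us → (∀ u ∈ us, Lyndon u) ∧ us.Pairwise BLt ∧
      wd v us.flatten ∉ Gt J v us.flatten)
    (f : List Bool → k)
    (ξ : List Bool) (hξ : f ξ ≠ 0) (hmin : ∀ u, u.length < ξ.length → f u = 0) (z : G × G)
    (hz : z ∈ S2 hJ ι M) (j : ℕ) (P : List (Dat (G × G) α Bool k))
    (hok : ∀ q ∈ P, q.OK J v (S2 hJ ι) M (E2 ι)) (hgood : Good (P.map Dat.u))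
    (hc : (P.map Dat.c).prod ≠ 0) (hlen : P.length + j = ξ.length) (hb : P.map Dat.b = ξ.drop j)
    (hs : Small J (S2 hJ ι) M j (1 + (P.map Dat.u).flatten.length)
      (fun t => TT (FF (E2 ι) f) ((P.map Dat.h).reverse ++ t) z)) : False := by
  classical
  induction j generalizing P with
  | zero =>
    obtain ⟨h1, h2, h3⟩ := hG2 _ hgood
    exact descend_base hJ hM hv f ξ hξ hmin z hz P hok h2 h3 hc (by simpa using hb) hs
  | succ j ih =>
    obtain ⟨C, hC⟩ := hs
    obtain ⟨m₁, hm₁⟩ := eventually_atTop.1 hC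
    obtain ⟨m₂, hm₂⟩ := eventually_atTop.1 (eventually_pow_lt hM hρ1 hρ C)
    obtain ⟨m, hm, hcard⟩ := hG1 _ hgood (max M (max m₁ m₂))
    have hmM : M ≤ m := (le_max_left _ _).trans hm
    have hmm₁ : m₁ ≤ m := ((le_max_left _ _).trans (le_max_right _ _)).trans hm
    have hmm₂ : m₂ ≤ m := ((le_max_right _ _).trans (le_max_right _ _)).trans hm
    obtain ⟨K, hK0, hK1, hK2⟩ := hm₁ m hmm₁
    have hpow := hm₂ m hmm₂
    have hfin : {u : List α | u.length = m ∧ Good (u :: P.map Dat.u)}.Finite :=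
      (List.finite_length_eq α m).subset (fun _ h => h.1)
    have hj : j < ξ.length := by omega
    have hpick := pick hJ hv hx (m := m) (by omega) hfin.toFinset (by
      intro u hu
      rw [Set.Finite.mem_toFinset] at hu
      exact ⟨(hG2 _ hu.2).1 u (by simp), hu.1⟩) (K.comap (inc ξ[j]))
      (relIndex_inc hJ ι ξ[j] m K hK0).1 (by
        refine lt_of_le_of_lt ((relIndex_inc hJ ι ξ[j] m K hK0).2.trans hK1) ?_
        refine Nat.pow_lt_pow_right (by norm_num) ?_
        rw [← Set.ncard_eq_toFinset_card _ hfin]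
        exact_mod_cast lt_of_lt_of_le hpow hcard)
    obtain ⟨g, hgK, hgD, u, huU, c, hc0, hgL⟩ := hpick
    rw [Set.Finite.mem_toFinset] at huU
    obtain ⟨hulen, hugood⟩ := huU
    let q : Dat (G × G) α Bool k := ⟨inc ξ[j] g, ξ[j], u, c⟩
    have hq : q.OK J v (S2 hJ ι) M (E2 ι) := by
      refine ⟨?_, ?_, ?_, ?_⟩
      · show M ≤ u.length
        omega
      · show inc ξ[j] g ∈ S2 hJ ι u.length
        rw [hulen]
        exact inc_mem hJ ι _ m g hgD
      · show LW J v u c (E2 ι ξ[j] (inc ξ[j] g) - 1)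
        rw [E2_inc]
        exact hgL
      · intro b hb'
        exact E2_inc_ne ι _ _ hb' g
    have hs' := hK2 (inc ξ[j] g) hgK (inc_mem hJ ι _ m g hgD)
    refine ih (q :: P) ?_ hugood ?_ ?_ ?_ ?_
    · intro q' hq'
      rcases List.mem_cons.1 hq' with h | h
      · rw [h]; exact hq
      · exact hok q' h
    · rw [List.map_cons, List.prod_cons]
      exact mul_ne_zero hc0 hc
    · simp only [List.length_cons]; omega
    · rw [List.map_cons, hb, List.drop_eq_getElem_cons hj]
    · have h1 : (fun t => TT (FF (E2 ι) f) (((q :: P).map Dat.h).reverse ++ t) z) =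
          (fun t => TT (FF (E2 ι) f) ((P.map Dat.h).reverse ++ (inc ξ[j] g :: t)) z) := by
        funext t
        simp [q]
      rw [h1]
      have h2 : 1 + ((q :: P).map Dat.u).flatten.length =
          m + (1 + (P.map Dat.u).flatten.length) := by
        simp only [List.map_cons, List.flatten_cons, List.length_append]
        have : q.u.length = m := hulen
        omega
      rw [h2]
      exact hs'

end Pool.Agent.H9
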