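import Mathlib
import Pool.Agent.H9.Words

set_option autoImplicit false

/-!
# Factorial languages and critical sublanguages
-/

namespace Pool.Agent.H9

open Set

set_option linter.unusedSectionVars false

variable {α : Type*} [LinearOrder α] [Fintype α]

/-- words of length `n` in `S` -/
def sl (S : Set (List α)) (n : ℕ) : Set (List α) := {w | w ∈ S ∧ w.length = n}

theorem sl_finite (S : Set (List α)) (n : ℕ) : (sl S n).Finite :=
  (List.finite_length_eq α n).subset (fun _ h => h.2)

noncomputable def cnt (S : Set (List α)) (n : ℕ) : ℕ := (sl S n).ncard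

theorem cnt_mono {S T : Set (List α)} (h : S ⊆ T) (n : ℕ) : cnt S n ≤ cnt T n :=
  Set.ncard_le_ncard (fun _ hw => ⟨h hw.1, hw.2⟩) (sl_finite T n)

/-- a set of words each of which is (word of `A`) ++ (word of `B`) -/
theorem ncard_le_mul {C A B : Set (List α)} (hA : A.Finite) (hB : B.Finite)
    (h : ∀ W ∈ C, ∃ a ∈ A, ∃ b ∈ B, W = a ++ b) : C.ncard ≤ A.ncard * B.ncard := by
  classical
  have h1 : C ⊆ (fun q : List α × List α => q.1 ++ q.2) '' (A ×ˢ B) := by
    intro W hW
    obtain ⟨a, ha, b, hb, rfl⟩ := h W hW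
    exact ⟨(a, b), ⟨ha, hb⟩, rfl⟩
  calc C.ncard ≤ ((fun q : List α × List α => q.1 ++ q.2) '' (A ×ˢ B)).ncard :=
        Set.ncard_le_ncard h1 ((hA.prod hB).image _)
    _ ≤ (A ×ˢ B).ncard := Set.ncard_image_le (hA.prod hB)
    _ = A.ncard * B.ncard := Set.ncard_prod

/-- a factorial language -/
def Factorial (L : Set (List α)) : Prop := ∀ a b c, a ++ b ++ c ∈ L → b ∈ L

theorem Factorial.ifx {L : Set (List α)} (hL : Factorial L) {u v : List α} (h : u <:+: v)
    (hv : v ∈ L) : u ∈ L := by
  obtain ⟨s, t, rfl⟩ := h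
  exact hL s u t hv

theorem Factorial.pre {L : Set (List α)} (hL : Factorial L) {u v : List α} (h : u <+: v)
    (hv : v ∈ L) : u ∈ L := hL.ifx h.isInfix hv

theorem Factorial.suf {L : Set (List α)} (hL : Factorial L) {u v : List α} (h : u <:+ v)
    (hv : v ∈ L) : u ∈ L := hL.ifx h.isInfix hv

theorem cnt_add {L : Set (List α)} (hL : Factorial L) (m n : ℕ) :
    cnt L (m + n) ≤ cnt L m * cnt L n := by
  refine ncard_le_mul (sl_finite L m) (sl_finite L n) ?_
  rintro W ⟨hW, hl⟩
  refine ⟨W.take m, ⟨hL.pre (List.take_prefix _ _) hW, ?_⟩, W.drop m,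
    ⟨hL.suf (List.drop_suffix _ _) hW, ?_⟩, (List.take_append_drop _ _).symm⟩
  · simp [hl]
  · simp [hl]

theorem cnt_mul {L : Set (List α)} (hL : Factorial L) (n k : ℕ) :
    cnt L (k * n) ≤ cnt L n ^ k * 1 := by
  induction k with
  | zero =>
    simp only [Nat.zero_mul, pow_zero, mul_one]
    have : sl L 0 ⊆ {[]} := by
      rintro W ⟨_, hl⟩
      simpa using List.length_eq_zero_iff.1 hl
    exact (Set.ncard_le_ncard this (Set.finite_singleton _)).trans (by simp)
  | succ k ih =>
    rw [Nat.succ_mul, pow_succ]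
    calc cnt L (k * n + n) ≤ cnt L (k * n) * cnt L n := cnt_add hL _ _
      _ ≤ (cnt L n ^ k * 1) * cnt L n := Nat.mul_le_mul_right _ ih
      _ = _ := by ring

/-- from an eventual lower bound to a bound for all `n`. -/
theorem all_of_eventually {L : Set (List α)} (hL : Factorial L) {r : ℝ} (hr : 1 < r)
    (h : ∀ᶠ n in Filter.atTop, r ^ n ≤ (cnt L n : ℝ)) (n : ℕ) : r ^ n ≤ (cnt L n : ℝ) := by
  rcases Nat.eq_zero_or_pos n with h0 | h0
  · subst h0
    -- the empty word is in L
    obtain ⟨N, hN⟩ := Filter.eventually_atTop.1 h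
    have h1 := hN N le_rfl
    have h2 : (0:ℝ) < cnt L N := lt_of_lt_of_le (by positivity) h1
    have h3 : 0 < cnt L N := by exact_mod_cast h2
    obtain ⟨w, hw⟩ := Set.nonempty_of_ncard_ne_zero h3.ne'
    have h4 : ([] : List α) ∈ L := hL.pre (List.nil_prefix) hw.1
    have h5 : 0 < cnt L 0 := by
      rw [cnt, Set.ncard_pos (sl_finite L 0)]
      exact ⟨[], h4, rfl⟩
    simp only [pow_zero]
    exact_mod_cast h5
  · obtain ⟨N, hN⟩ := Filter.eventually_atTop.1 h
    have h1 := hN ((N + 1) * n) (by nlinarith)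
    have h2 : ((cnt L ((N+1) * n) : ℕ) : ℝ) ≤ (cnt L n : ℝ) ^ (N + 1) := by
      have := cnt_mul hL n (N + 1)
      rw [mul_one] at this
      exact_mod_cast this
    have h3 : (r ^ n) ^ (N + 1) ≤ (cnt L n : ℝ) ^ (N + 1) := by
      rw [← pow_mul, mul_comm n (N+1)]
      exact h1.trans h2
    exact le_of_pow_le_pow_left₀ (by omega) (by positivity) h3

/-- words of `L` avoiding the factor `w` -/
def Av (L : Set (List α)) (w : List α) : Set (List α) := {v | v ∈ L ∧ ¬ w <:+: v}

theorem Av_factorial {L : Set (List α)} (hL : Factorial L) (w : List α) : Factorial (Av L w) := by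
  rintro a b c ⟨h1, h2⟩
  refine ⟨hL a b c h1, fun h => h2 (h.trans ?_)⟩
  exact ⟨a, c, rfl⟩

/-- a critical factorial language of growth at least `r` -/
structure Crit (L : Set (List α)) (r : ℝ) : Prop where
  fac : Factorial L
  one_lt : 1 < r
  low : ∀ n, r ^ n ≤ (cnt L n : ℝ)
  crit : ∀ w ∈ L, ∃ n, (cnt (Av L w) n : ℝ) < r ^ n

theorem exists_crit {L : Set (List α)} (hL : Factorial L) {r : ℝ} (hr : 1 < r)
    (h : ∀ n, r ^ n ≤ (cnt L n : ℝ)) : ∃ L' ⊆ L, Crit L' r := by
  classical
  let S : Set (Set (List α)) := {T | Factorial T ∧ ∀ n, r ^ n ≤ (cnt T n : ℝ)}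
  obtain ⟨m, hmL, hm⟩ := zorn_superset_nonempty S (by
    intro c hcS hc hne
    refine ⟨⋂₀ c, ⟨?_, ?_⟩, fun s hs => Set.sInter_subset_of_mem hs⟩
    · intro a b d hab
      rw [Set.mem_sInter] at hab ⊢
      intro T hT
      exact (hcS hT).1 a b d (hab T hT)
    · intro n
      -- choose the member with minimal count
      have hne' : ((fun T => cnt T n) '' c).Nonempty := hne.image _
      obtain ⟨T, hT, hTmin⟩ := Nat.sInf_mem hne'
      have hmin : ∀ T' ∈ c, cnt T n ≤ cnt T' n := by
        intro T' hT'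
        change (fun T => cnt T n) T ≤ _
        rw [hTmin]
        exact Nat.sInf_le ⟨T', hT', rfl⟩
      have hsub : sl T n ⊆ sl (⋂₀ c) n := by
        rintro w ⟨hw, hl⟩
        refine ⟨?_, hl⟩
        rw [Set.mem_sInter]
        intro T' hT'
        by_cases hTT : T = T'
        · rw [← hTT]; exact hw
        rcases hc hT hT' hTT with h1 | h1
        · exact h1 hw
        · have h2 : sl T' n ⊆ sl T n := fun v hv => ⟨h1 hv.1, hv.2⟩
          have h3 : sl T' n = sl T n :=
            Set.eq_of_subset_of_ncard_le h2 (hmin T' hT') (sl_finite T n)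
          have : w ∈ sl T' n := by rw [h3]; exact ⟨hw, hl⟩
          exact this.1
      calc r ^ n ≤ (cnt T n : ℝ) := (hcS hT).2 n
        _ ≤ _ := by
          exact_mod_cast Set.ncard_le_ncard hsub (sl_finite _ n)) L ⟨hL, h⟩
  refine ⟨m, hmL, hm.prop.1, hr, hm.prop.2, ?_⟩
  intro w hw
  by_contra hcon
  push Not at hcon
  have h1 : Av m w ∈ S := ⟨Av_factorial hm.prop.1 w, hcon⟩
  have h2 : Av m w ⊆ m := fun v hv => hv.1
  have h3 := hm.le_of_le h1 h2
  exact (h3 hw).2 List.infix_rfl

theorem Crit.avoid_small {L : Set (List α)} {r : ℝ} (hc : Crit L r) {w : List α} (hw : w ∈ L)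
    {ε : ℝ} (hε : 0 < ε) : ∃ n₁, ∀ n, n₁ ≤ n → (cnt (Av L w) n : ℝ) ≤ ε * r ^ n := by
  obtain ⟨n₀, hn₀⟩ := hc.crit w hw
  have hr := hc.one_lt
  have hfac := Av_factorial hc.fac w
  rcases Nat.eq_zero_or_pos n₀ with h0 | h0
  · subst h0
    -- then the avoiding language is empty
    have h1 : cnt (Av L w) 0 = 0 := by
      have : (cnt (Av L w) 0 : ℝ) < 1 := by simpa using hn₀
      have : cnt (Av L w) 0 < 1 := by exact_mod_cast this
      omega
    have h2 : ∀ n, cnt (Av L w) n = 0 := by
      intro n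
      by_contra hne
      obtain ⟨v, hv⟩ := Set.nonempty_of_ncard_ne_zero hne
      have h4 : ([] : List α) ∈ Av L w := hfac.pre (List.nil_prefix) hv.1
      have h5 : 0 < cnt (Av L w) 0 := by
        rw [cnt, Set.ncard_pos (sl_finite _ 0)]
        exact ⟨[], h4, rfl⟩
      omega
    refine ⟨0, fun n _ => ?_⟩
    rw [h2 n]
    simp only [Nat.cast_zero]
    positivity
  · -- ratio a < 1
    set a : ℝ := (cnt (Av L w) n₀ : ℝ) / r ^ n₀ with ha
    have hrpos : ∀ n : ℕ, (0:ℝ) < r ^ n := fun n => by positivity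
    have ha0 : 0 ≤ a := by positivity
    have ha1 : a < 1 := by
      rw [ha, div_lt_one (hrpos _)]; exact hn₀
    set B : ℝ := ∑ j ∈ Finset.range n₀, (cnt (Av L w) j : ℝ) with hB
    have hB0 : 0 ≤ B := by positivity
    obtain ⟨k, hk⟩ := exists_pow_lt_of_lt_one (show 0 < ε / (B + 1) by positivity) ha1
    refine ⟨k * n₀, fun n hn => ?_⟩
    -- write n = q * n₀ + j
    set q := n / n₀ with hq
    set j := n % n₀ with hj
    have hnq : n = q * n₀ + j := by rw [hq, hj, mul_comm]; exact (Nat.div_add_mod n n₀).symm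
    have hjlt : j < n₀ := Nat.mod_lt _ h0
    have hkq : k ≤ q := by rw [hq]; exact (Nat.le_div_iff_mul_le h0).2 hn
    have h1 : (cnt (Av L w) n : ℝ) ≤ (cnt (Av L w) n₀ : ℝ) ^ q * (cnt (Av L w) j : ℝ) := by
      rw [hnq]
      have h2 := cnt_add hfac (q * n₀) j
      have h3 := cnt_mul hfac n₀ q
      rw [mul_one] at h3
      exact_mod_cast h2.trans (Nat.mul_le_mul_right _ h3)
    have h4 : (cnt (Av L w) n₀ : ℝ) = a * r ^ n₀ := by
      rw [ha]; field_simp
    have h5 : (cnt (Av L w) j : ℝ) ≤ B := by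
      rw [hB]
      exact Finset.single_le_sum (f := fun j => (cnt (Av L w) j : ℝ))
        (fun i _ => by positivity) (Finset.mem_range.2 hjlt)
    calc (cnt (Av L w) n : ℝ) ≤ (a * r ^ n₀) ^ q * B := by
          rw [← h4]
          exact h1.trans (mul_le_mul_of_nonneg_left h5 (by positivity))
      _ = a ^ q * B * r ^ (q * n₀) := by rw [mul_pow, ← pow_mul]; ring_nf
      _ ≤ a ^ q * B * r ^ n := by
          refine mul_le_mul_of_nonneg_left ?_ (by positivity)
          exact pow_le_pow_right₀ hr.le (by omega)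
      _ ≤ a ^ k * B * r ^ n := by
          refine mul_le_mul_of_nonneg_right ?_ (by positivity)
          refine mul_le_mul_of_nonneg_right ?_ hB0
          exact pow_le_pow_of_le_one ha0 ha1.le hkq
      _ ≤ (ε / (B + 1)) * B * r ^ n := by
          refine mul_le_mul_of_nonneg_right ?_ (by positivity)
          exact mul_le_mul_of_nonneg_right hk.le hB0
      _ ≤ ε * r ^ n := by
          refine mul_le_mul_of_nonneg_right ?_ (by positivity)
          rw [div_mul_eq_mul_div, div_le_iff₀ (by positivity)]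
          nlinarith

theorem Crit.cnt_pos {L : Set (List α)} {r : ℝ} (hc : Crit L r) (n : ℕ) : 0 < cnt L n := by
  have h1 := hc.low n
  have hr := hc.one_lt
  have h2 : (0:ℝ) < cnt L n := lt_of_lt_of_le (by positivity) h1
  exact_mod_cast h2

theorem Crit.nil_mem {L : Set (List α)} {r : ℝ} (hc : Crit L r) : ([] : List α) ∈ L := by
  obtain ⟨w, hw⟩ := Set.nonempty_of_ncard_ne_zero (hc.cnt_pos 0).ne'
  have := List.length_eq_zero_iff.1 hw.2
  rw [← this]; exact hw.1

theorem Crit.right_ext {L : Set (List α)} {r : ℝ} (hc : Crit L r) {w : List α} (hw : w ∈ L) :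
    ∃ a, w ++ [a] ∈ L := by
  by_contra hcon
  push Not at hcon
  have hr := hc.one_lt
  have key : ∀ n, cnt L (n + 1) ≤ cnt (Av L w) n * cnt L 1 := by
    intro n
    refine ncard_le_mul (sl_finite _ n) (sl_finite _ 1) ?_
    rintro W ⟨hW, hl⟩
    refine ⟨W.take n, ⟨⟨hc.fac.pre (List.take_prefix _ _) hW, ?_⟩, by simp [hl]⟩, W.drop n,
      ⟨hc.fac.suf (List.drop_suffix _ _) hW, by simp [hl]⟩, (List.take_append_drop _ _).symm⟩
    rintro ⟨s, t, hst⟩
    have hW' : W = s ++ w ++ (t ++ W.drop n) := by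
      rw [← List.append_assoc, hst, List.take_append_drop]
    have hne : t ++ W.drop n ≠ [] := by
      intro h
      have := congrArg List.length h
      simp only [List.length_append, List.length_drop, hl, List.length_nil] at this
      omega
    obtain ⟨a, t', ht'⟩ := List.exists_cons_of_ne_nil hne
    rw [ht'] at hW'
    have : w ++ [a] ∈ L := by
      apply hc.fac s (w ++ [a]) t'
      have h : s ++ (w ++ [a]) ++ t' = W := by rw [hW']; simp
      rw [h]; exact hW
    exact hcon a this
  have hpos : (0:ℝ) < 1 / (cnt L 1 + 1) := by positivity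
  obtain ⟨n₁, h₁⟩ := hc.avoid_small hw hpos
  have h2 := h₁ n₁ le_rfl
  have h3 : (cnt L (n₁ + 1) : ℝ) ≤ (cnt (Av L w) n₁ : ℝ) * (cnt L 1 : ℝ) := by
    exact_mod_cast key n₁
  have h4 := hc.low (n₁ + 1)
  have h5 : (cnt (Av L w) n₁ : ℝ) * (cnt L 1 : ℝ) ≤ r ^ n₁ := by
    calc (cnt (Av L w) n₁ : ℝ) * (cnt L 1 : ℝ) ≤ (1 / (cnt L 1 + 1) * r ^ n₁) * (cnt L 1 : ℝ) :=
          mul_le_mul_of_nonneg_right h2 (by positivity)
      _ = (cnt L 1 / (cnt L 1 + 1)) * r ^ n₁ := by ring
      _ ≤ 1 * r ^ n₁ := by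
          refine mul_le_mul_of_nonneg_right ?_ (by positivity)
          rw [div_le_one (by positivity)]; linarith
      _ = r ^ n₁ := one_mul _
  have h6 : r ^ n₁ < r ^ (n₁ + 1) := by
    rw [pow_succ]
    have : (0:ℝ) < r ^ n₁ := by positivity
    nlinarith
  linarith

/-- prefixes of an infinite word -/
def pre (x : ℕ → α) (n : ℕ) : List α := (List.range n).map x

omit [LinearOrder α] [Fintype α] in
@[simp] theorem pre_length (x : ℕ → α) (n : ℕ) : (pre x n).length = n := by simp [pre]

omit [LinearOrder α] [Fintype α] in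
theorem pre_succ (x : ℕ → α) (n : ℕ) : pre x (n + 1) = pre x n ++ [x n] := by
  simp [pre, List.range_succ]

omit [LinearOrder α] [Fintype α] in
@[simp] theorem pre_zero (x : ℕ → α) : pre x 0 = [] := rfl

omit [LinearOrder α] [Fintype α] in
theorem pre_add (x : ℕ → α) (m n : ℕ) : pre x (m + n) = pre x m ++ pre (fun i => x (m + i)) n := by
  simp only [pre, List.range_add, List.map_append, List.map_map]
  rfl

omit [LinearOrder α] [Fintype α] in
theorem pre_prefix (x : ℕ → α) {m n : ℕ} (h : m ≤ n) : pre x m <+: pre x n := by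
  obtain ⟨k, rfl⟩ := Nat.exists_eq_add_of_le h
  rw [pre_add]
  exact List.prefix_append _ _

/-- `x` is the minimal infinite word of `L` -/
structure MinWord (L : Set (List α)) (x : ℕ → α) : Prop where
  mem : ∀ n, pre x n ∈ L
  min : ∀ v ∈ L, v = pre x v.length ∨ BLt (pre x v.length) v

theorem exists_min_of_length {L : Set (List α)} {r : ℝ} (hc : Crit L r) (n : ℕ) :
    ∃ w ∈ sl L n, ∀ v ∈ sl L n, v = w ∨ BLt w v := by
  classical
  have hfin := sl_finite L n
  have hne : (sl L n).Nonempty := Set.nonempty_of_ncard_ne_zero (hc.cnt_pos n).ne'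
  obtain ⟨l, hl⟩ : ∃ l : List (List α), ∀ v, v ∈ l ↔ v ∈ sl L n := by
    refine ⟨hfin.toFinset.toList, fun v => ?_⟩
    simp
  obtain ⟨v₀, hv₀⟩ := hne
  have hl0 : l ≠ [] := by
    rintro rfl
    have := (hl v₀).2 hv₀
    simp at this
  obtain ⟨w, hw, hmin⟩ := exists_llt_min l hl0
  refine ⟨w, (hl w).1 hw, fun v hv => ?_⟩
  by_cases h : v = w
  · exact Or.inl h
  · rcases hmin v ((hl v).2 hv) h with h1 | ⟨h1, h2⟩
    · exact Or.inr h1
    · exfalso
      apply h2
      refine h1.eq_of_length ?_
      rw [((hl w).1 hw).2, hv.2]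

theorem exists_minWord {L : Set (List α)} {r : ℝ} (hc : Crit L r) : ∃ x, MinWord L x := by
  choose m hm hmin using exists_min_of_length hc
  have hlen : ∀ n, (m n).length = n := fun n => (hm n).2
  have hstep : ∀ n, ∃ b, m (n + 1) = m n ++ [b] := by
    intro n
    have hne : m (n + 1) ≠ [] := by
      intro h
      have := hlen (n + 1)
      rw [h] at this
      simp at this
    refine ⟨(m (n + 1)).getLast hne, ?_⟩
    have hd := List.dropLast_append_getLast hne
    have hdl : (m (n + 1)).dropLast ∈ sl L n := by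
      refine ⟨hc.fac.pre (List.dropLast_prefix _) (hm (n + 1)).1, ?_⟩
      rw [List.length_dropLast, hlen]; rfl
    rcases hmin n _ hdl with h | h
    · rw [← h]; exact hd.symm
    · exfalso
      obtain ⟨a, ha⟩ := hc.right_ext (hm n).1
      have h1 : BLt (m n ++ [a]) (m (n + 1)) := by
        rw [← hd]; exact h.append _ _
      rcases hmin (n + 1) (m n ++ [a]) ⟨ha, by simp [hlen]⟩ with h2 | h2
      · rw [h2] at h1; exact BLt.irrefl h1
      · exact BLt.irrefl (h1.trans h2)
  choose x hx using hstep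
  have hpre : ∀ n, pre x n = m n := by
    intro n
    induction n with
    | zero =>
      rw [pre_zero]
      exact (List.length_eq_zero_iff.1 (hlen 0)).symm
    | succ n ih => rw [pre_succ, ih, hx]
  refine ⟨x, fun n => by rw [hpre]; exact (hm n).1, fun v hv => ?_⟩
  rw [hpre]
  exact hmin _ v ⟨hv, rfl⟩

theorem MinWord.append_eq {L : Set (List α)} {x : ℕ → α} (hf : Factorial L) (hx : MinWord L x)
    {l n : ℕ} (h : pre x l ++ pre x n ∈ L) : pre x l ++ pre x n = pre x (l + n) := by
  have h1 := pre_add x l n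
  set t := pre (fun i => x (l + i)) n with ht
  have htL : t ∈ L := hf.suf (u := t) ⟨pre x l, h1.symm⟩ (hx.mem (l + n))
  have htl : t.length = n := by simp [ht]
  rcases hx.min t htL with h2 | h2
  · rw [htl] at h2
    rw [h1, ← h2]
  · rw [htl] at h2
    rcases hx.min _ h with h3 | h3
    · simpa using h3
    · simp only [List.length_append, pre_length] at h3
      rw [h1] at h3
      have h4 := h3.of_append_left
      exact absurd (h2.trans h4) BLt.irrefl

open Classical in
/-- length of the longest common prefix with the infinite word `x` -/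
noncomputable def lc (x : ℕ → α) (v : List α) : ℕ :=
  Nat.findGreatest (fun l => pre x l <+: v) v.length

theorem lc_prefix (x : ℕ → α) (v : List α) : pre x (lc x v) <+: v := by
  classical
  unfold lc
  exact Nat.findGreatest_spec (P := fun l => pre x l <+: v) (Nat.zero_le _) (by simp)

theorem lc_le (x : ℕ → α) (v : List α) : lc x v ≤ v.length := by
  classical
  exact Nat.findGreatest_le _

theorem le_lc {x : ℕ → α} {v : List α} {l : ℕ} (h : pre x l <+: v) : l ≤ lc x v := by
  classical
  unfold lc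
  refine Nat.le_findGreatest ?_ h
  have := h.length_le
  simpa using this

theorem lc_eq_length {x : ℕ → α} {v : List α} (h : lc x v = v.length) : v = pre x v.length := by
  have h1 := lc_prefix x v
  rw [h] at h1
  exact (h1.eq_of_length (by simp)).symm

/-- the letter at the first disagreement is larger -/
theorem MinWord.lc_next {L : Set (List α)} {x : ℕ → α} (hf : Factorial L) (hx : MinWord L x)
    {v : List α} (hv : v ∈ L) (h : lc x v < v.length) :
    ∃ c s, x (lc x v) < c ∧ v = pre x (lc x v) ++ c :: s := by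
  obtain ⟨s, hs⟩ := lc_prefix x v
  have hmax : ∀ l, pre x l <+: v → l ≤ lc x v := fun l hl => le_lc hl
  generalize lc x v = k at *
  have hne : s ≠ [] := by
    rintro rfl
    have := congrArg List.length hs
    simp at this
    omega
  obtain ⟨c, s', rfl⟩ := List.exists_cons_of_ne_nil hne
  refine ⟨c, s', ?_, hs.symm⟩
  have h1 : pre x k ++ [c] ∈ L := by
    refine hf.pre (u := _) ?_ hv
    refine ⟨s', ?_⟩
    rw [← hs]; simp
  rcases hx.min _ h1 with h2 | h2
  · exfalso
    have h3 : pre x (k + 1) <+: v := by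
      simp only [List.length_append, pre_length, List.length_singleton] at h2
      rw [← h2]
      refine ⟨s', ?_⟩
      rw [← hs]; simp
    have := hmax _ h3
    omega
  · simp only [List.length_append, pre_length, List.length_singleton] at h2
    rw [pre_succ] at h2
    have h3 := h2.of_append_left
    cases h3 with
    | head h => exact h
    | cons h => cases h

theorem MinWord.blt_of_lc {L : Set (List α)} {x : ℕ → α} (hf : Factorial L) (hx : MinWord L x)
    {u v : List α} (hv : v ∈ L) (h : lc x v < v.length) (h' : lc x v < lc x u) : BLt u v := by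
  obtain ⟨c, s, hc, hs⟩ := hx.lc_next hf hv h
  have h1 : pre x (lc x v + 1) <+: u := (pre_prefix x h').trans (lc_prefix x u)
  obtain ⟨t, ht⟩ := h1
  rw [pre_succ] at ht
  generalize lc x v = k at *
  rw [← ht, hs, List.append_assoc]
  exact (BLt.head hc).append_left _

/-- the block words: the long-match word is at the front -/
def BL (x : ℕ → α) (u : List α) : Prop :=
  lc x u < u.length ∧ ∀ s t, u = s ++ t → s ≠ [] → t ≠ [] → lc x t < t.length ∧ lc x t < lc x u

theorem BL.lyndon {L : Set (List α)} {x : ℕ → α} (hf : Factorial L) (hx : MinWord L x)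
    {u : List α} (hu : u ∈ L) (h : BL x u) : Lyndon u := by
  refine ⟨?_, ?_⟩
  · rintro rfl
    have := h.1
    simp at this
  · intro s t hst hs ht
    obtain ⟨h1, h2⟩ := h.2 s t hst hs ht
    refine hx.blt_of_lc hf ?_ h1 h2
    exact hf.suf (u := t) ⟨s, hst.symm⟩ hu

/-- the cutting lemma -/
theorem MinWord.cut {L : Set (List α)} {x : ℕ → α} (hf : Factorial L) (hx : MinWord L x)
    {v p q : List α} (hv : v ∈ L) (hcl : ∀ l, 1 ≤ l → ¬ pre x l <:+ v) (hpq : v = p ++ q)
    {ℓ : ℕ} (hℓ : 1 ≤ ℓ) (hocc : pre x ℓ <:+: q) :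
    ∃ v₁ l v', v = v₁ ++ (pre x l ++ v') ∧ v'.length ≤ q.length ∧ BL x (pre x l ++ v') ∧
      ℓ ≤ lc x (pre x l ++ v') ∧ ∀ l', 1 ≤ l' → ¬ pre x l' <:+ v₁ := by
  classical
  -- the maximal match length among suffixes of q
  let P : ℕ → Prop := fun n => ∃ s, s <:+ q ∧ lc x s = n
  have hPb : ∀ n, P n → n ≤ q.length := by
    rintro n ⟨s, hs, rfl⟩
    exact (lc_le x s).trans hs.length_le
  have hP0 : P (lc x q) := ⟨q, List.suffix_rfl, rfl⟩
  set M := Nat.findGreatest P q.length with hM
  have hPM : P M := Nat.findGreatest_spec (P := P) (hPb _ hP0) hP0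
  have hMmax : ∀ s, s <:+ q → lc x s ≤ M := by
    intro s hs
    exact Nat.le_findGreatest (hPb _ ⟨s, hs, rfl⟩) ⟨s, hs, rfl⟩
  have hℓM : ℓ ≤ M := by
    obtain ⟨a, b, hab⟩ := hocc
    have h1 : pre x ℓ ++ b <:+ q := ⟨a, by rw [← hab]; simp⟩
    exact (le_lc (List.prefix_append _ _)).trans (hMmax _ h1)
  -- the shortest suffix with maximal match
  let Q : ℕ → Prop := fun n => ∃ s, s <:+ q ∧ lc x s = M ∧ s.length = n
  have hQ : ∃ n, Q n := by
    obtain ⟨s, hs, hs'⟩ := hPM
    exact ⟨s.length, s, hs, hs', rfl⟩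
  obtain ⟨v', hv'q, hv'M, hv'len⟩ := Nat.find_spec hQ
  have hv'min : ∀ t, t <:+ v' → t ≠ v' → lc x t < M := by
    intro t ht hne
    refine lt_of_le_of_ne (hMmax t (ht.trans hv'q)) ?_
    intro he
    have h1 : Q t.length := ⟨t, ht.trans hv'q, he, rfl⟩
    have h2 := Nat.find_min' hQ h1
    rw [← hv'len] at h2
    exact hne (ht.eq_of_length (le_antisymm ht.length_le h2))
  obtain ⟨q', hq'⟩ := hv'q
  -- v = p' ++ v'
  have hvp : v = (p ++ q') ++ v' := by rw [hpq, ← hq', List.append_assoc]
  set p' := p ++ q' with hp'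
  have hp'L : p' ∈ L := hf.pre (u := p') ⟨v', hvp.symm⟩ hv
  -- the largest l with pre l a suffix of p'
  let R : ℕ → Prop := fun l => pre x l <:+ p'
  have hR0 : R 0 := by simp [R]
  set l := Nat.findGreatest R p'.length with hl
  have hRl : R l := Nat.findGreatest_spec (P := R) (Nat.zero_le _) hR0
  have hRmax : ∀ l', R l' → l' ≤ l := by
    intro l' h
    refine Nat.le_findGreatest ?_ h
    have := List.IsSuffix.length_le h
    simpa using this
  obtain ⟨v₁, hv₁⟩ := hRl
  have hvv : v = v₁ ++ (pre x l ++ v') := by rw [hvp, ← hv₁, List.append_assoc]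
  have hulen : (pre x l ++ v').length = l + v'.length := by simp
  refine ⟨v₁, l, v', hvv, ?_⟩
  generalize hu : pre x l ++ v' = u at *
  have huL : u ∈ L := hf.suf (u := u) ⟨v₁, hvv.symm⟩ hv
  have hsuf_v : ∀ t, t <:+ u → t <:+ v := fun t ht => ht.trans ⟨v₁, hvv.symm⟩
  -- lc of u
  have hlcu : l + M ≤ lc x u := by
    have h1 : pre x l ++ pre x M <+: u := by
      obtain ⟨w, hw⟩ := lc_prefix x v'
      rw [hv'M] at hw
      exact ⟨w, by rw [← hu, List.append_assoc, hw]⟩
    have h2 : pre x l ++ pre x M ∈ L := hf.pre h1 huL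
    rw [hx.append_eq hf h2] at h1
    exact le_lc h1
  -- no suffix of u is a prefix of x
  have hnosuf : ∀ t, t <:+ u → t ≠ [] → lc x t < t.length := by
    intro t ht htne
    refine lt_of_le_of_ne (lc_le x t) ?_
    intro he
    have h1 := lc_eq_length he
    refine hcl t.length ?_ ?_
    · exact List.length_pos_of_ne_nil htne
    · rw [← h1]; exact hsuf_v t ht
  have hune : u ≠ [] := by
    intro h
    have h1 := hlcu.trans (lc_le x u)
    rw [h] at h1
    simp only [List.length_nil] at h1
    omega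
  refine ⟨?_, ⟨hnosuf u List.suffix_rfl hune, ?_⟩, hℓM.trans (by omega), ?_⟩
  · rw [← hq']; simp
  · intro s t hst hs ht
    refine ⟨hnosuf t ⟨s, hst.symm⟩ ht, ?_⟩
    by_cases hsl : s.length ≤ l
    · -- s is a prefix of pre l
      have h1 : s <+: pre x l := by
        have h2 : s <+: u := ⟨t, hst.symm⟩
        have h3 : pre x l <+: u := ⟨v', hu⟩
        exact List.prefix_of_prefix_length_le h2 h3 (by simpa using hsl)
      have h2 : s = pre x s.length := by
        have h3 : pre x s.length <+: pre x l := pre_prefix x hsl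
        exact (List.prefix_of_prefix_length_le h1 h3 (by simp)).eq_of_length (by simp)
      have h3 : pre x s.length ++ pre x (lc x t) <+: u := by
        obtain ⟨w, hw⟩ := lc_prefix x t
        refine ⟨w, ?_⟩
        rw [List.append_assoc, hw, ← h2, ← hst]
      have h4 : pre x s.length ++ pre x (lc x t) ∈ L := hf.pre h3 huL
      rw [hx.append_eq hf h4] at h3
      have h5 := le_lc h3
      have := List.length_pos_of_ne_nil hs
      omega
    · -- t is a proper suffix of v'
      push Not at hsl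
      have h1 : t <:+ v' := by
        have h2 : t <:+ u := ⟨s, hst.symm⟩
        have h3 : v' <:+ u := ⟨pre x l, hu⟩
        refine List.suffix_of_suffix_length_le h2 h3 ?_
        have := congrArg List.length hst
        rw [hulen] at this
        simp only [List.length_append] at this
        omega
      have h2 : t ≠ v' := by
        intro h
        have := congrArg List.length hst
        rw [hulen, h] at this
        simp only [List.length_append] at this
        omega
      have := hv'min t h1 h2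
      omega
  · intro l' hl' hsuf
    have h1 : pre x l' ++ pre x l <:+ p' := by
      obtain ⟨w, hw⟩ := hsuf
      exact ⟨w, by rw [← hv₁, ← hw]; simp⟩
    have h2 : pre x l' ++ pre x l ∈ L := hf.suf h1 hp'L
    rw [hx.append_eq hf h2] at h1
    have := hRmax _ h1
    omega

end Pool.Agent.H9
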