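import Mathlib
import Pool.Agent.H9.Aug
import Pool.Agent.H9.Lang

set_option autoImplicit false
set_option linter.unusedSectionVars false

/-!
# The filtration of the group algebra of a profinite group
-/

namespace Pool.Agent.H9

open Filter

section

variable (k : Type*) [Field k] {G : Type*} [Group G]

/-- the projection to the group algebra of a quotient -/
noncomputable def piN (N : Subgroup G) [N.Normal] :
    MonoidAlgebra k G →ₐ[k] MonoidAlgebra k (G ⧸ N) :=
  MonoidAlgebra.mapDomainAlgHom k k (QuotientGroup.mk' N)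

variable {k}

theorem piN_single (N : Subgroup G) [N.Normal] (g : G) (c : k) :
    piN k N (MonoidAlgebra.single g c) = MonoidAlgebra.single (QuotientGroup.mk g : G ⧸ N) c := by
  simp [piN]

theorem piN_sub_one (N : Subgroup G) [N.Normal] (g : G) :
    piN k N (MonoidAlgebra.single g (1 : k) - 1) =
      MonoidAlgebra.single (QuotientGroup.mk g : G ⧸ N) (1 : k) - 1 := by
  rw [map_sub, map_one, piN_single]

variable (k)

/-- the filtration attached to one quotient -/
noncomputable def JN (N : Subgroup G) [N.Normal] (n : ℕ) : Submodule k (MonoidAlgebra k G) :=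
  (pw (Iaug k (G ⧸ N)) n).comap (piN k N).toLinearMap

variable {k}

theorem mem_JN (N : Subgroup G) [N.Normal] (n : ℕ) (a : MonoidAlgebra k G) :
    a ∈ JN k N n ↔ piN k N a ∈ pw (Iaug k (G ⧸ N)) n := Iff.rfl

theorem isFilt_JN (N : Subgroup G) [N.Normal] : IsFilt (JN k N) where
  zero := by
    unfold JN
    rw [pw_zero, Submodule.comap_top]
  succ_le := by
    intro n a ha
    rw [mem_JN] at *
    exact isFilt_aug.succ_le n ha
  mul_mem := by
    intro m n a b ha hb
    rw [mem_JN] at *
    rw [map_mul]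
    exact isFilt_aug.mul_mem ha hb

theorem map_pw_le {Q Q' : Type*} [Group Q] [Group Q'] (f : Q →* Q') (n : ℕ)
    (a : MonoidAlgebra k Q) (ha : a ∈ pw (Iaug k Q) n) :
    MonoidAlgebra.mapDomainAlgHom k k f a ∈ pw (Iaug k Q') n := by
  have h1 : (Iaug k Q).map (MonoidAlgebra.mapDomainAlgHom k k f).toLinearMap ≤ Iaug k Q' := by
    unfold Iaug
    rw [Submodule.map_span]
    refine Submodule.span_mono ?_
    rintro _ ⟨_, ⟨g, rfl⟩, rfl⟩
    refine ⟨f g, ?_⟩
    show MonoidAlgebra.single (f g) (1 : k) - 1 =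
      MonoidAlgebra.mapDomainAlgHom k k f (MonoidAlgebra.single g (1 : k) - 1)
    rw [map_sub, map_one, MonoidAlgebra.mapDomainAlgHom_apply, MonoidAlgebra.mapDomain_single]
  cases n with
  | zero => rw [pw_zero]; trivial
  | succ n =>
    rw [pw_succ] at ha ⊢
    have h2 : MonoidAlgebra.mapDomainAlgHom k k f a ∈
        (Iaug k Q ^ (n + 1)).map (MonoidAlgebra.mapDomainAlgHom k k f).toLinearMap :=
      Submodule.mem_map_of_mem ha
    rw [Submodule.map_pow] at h2
    exact pow_le_pow_left' h1 (n + 1) h2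

theorem JN_mono {N N' : Subgroup G} [N.Normal] [N'.Normal] (h : N ≤ N') (n : ℕ) :
    JN k N n ≤ JN k N' n := by
  intro a ha
  rw [mem_JN] at *
  have h1 := map_pw_le (QuotientGroup.map N N' (MonoidHom.id G) h) n _ ha
  have h2 : MonoidAlgebra.mapDomainAlgHom k k (QuotientGroup.map N N' (MonoidHom.id G) h)
      (piN k N a) = piN k N' a := by
    unfold piN
    rw [← AlgHom.comp_apply, ← MonoidAlgebra.mapDomainAlgHom_comp]
    congr 1
  rwa [h2] at h1

variable [TopologicalSpace G]

variable (G) in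
/-- open normal subgroups -/
abbrev ON := {N : Subgroup G // N.Normal ∧ IsOpen (N : Set G)}

instance ON.normal (N : ON G) : N.1.Normal := N.2.1

variable (k G) in
/-- the filtration of the group algebra by congruence powers of the augmentation ideals -/
noncomputable def JJ (n : ℕ) : Submodule k (MonoidAlgebra k G) := ⨅ N : ON G, JN k N.1 n

theorem mem_JJ (n : ℕ) (a : MonoidAlgebra k G) :
    a ∈ JJ k G n ↔ ∀ N : ON G, piN k N.1 a ∈ pw (Iaug k (G ⧸ N.1)) n := by
  unfold JJ
  rw [Submodule.mem_iInf]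
  rfl

theorem isFilt_JJ : IsFilt (JJ k G) where
  zero := by
    ext a
    rw [mem_JJ]
    simp [pw_zero]
  succ_le := by
    intro n a ha
    rw [mem_JJ] at *
    exact fun N => isFilt_aug.succ_le n (ha N)
  mul_mem := by
    intro m n a b ha hb
    rw [mem_JJ] at *
    intro N
    rw [map_mul]
    exact isFilt_aug.mul_mem (ha N) (hb N)

theorem single_sub_one_mem_JJ (g : G) : (MonoidAlgebra.single g (1 : k) - 1) ∈ JJ k G 1 := by
  rw [mem_JJ]
  intro N
  rw [piN_sub_one, pw_pos _ le_rfl, pow_one]
  exact single_sub_one_mem _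

/-! ### generators -/

theorem quot_gen [IsTopologicalGroup G] {α : Type*} (x : α → G)
    (hx : Dense ((Subgroup.closure (Set.range x) : Subgroup G) : Set G)) (N : ON G) :
    Subgroup.closure (Set.range fun a => (QuotientGroup.mk (x a) : G ⧸ N.1)) = ⊤ := by
  rw [eq_top_iff]
  intro q _
  induction q using QuotientGroup.induction_on with
  | H g =>
    have h1 : IsOpen {h : G | g⁻¹ * h ∈ N.1} := N.2.2.preimage (continuous_const.mul continuous_id)
    obtain ⟨h, hh1, hh2⟩ := hx.exists_mem_open h1 ⟨g, by simpa using N.1.one_mem⟩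
    have h2 : (QuotientGroup.mk g : G ⧸ N.1) = QuotientGroup.mk h := QuotientGroup.eq.2 hh2
    rw [h2]
    have h3 : (QuotientGroup.mk' N.1) h ∈ (Subgroup.closure (Set.range x)).map
        (QuotientGroup.mk' N.1) := Subgroup.mem_map_of_mem _ hh1
    rw [MonoidHom.map_closure] at h3
    have h4 : (QuotientGroup.mk' N.1) '' (Set.range x) =
        Set.range fun a => (QuotientGroup.mk (x a) : G ⧸ N.1) := by
      rw [← Set.range_comp]; rfl
    rwa [h4] at h3

variable {α : Type*} [LinearOrder α]

/-- the generators minus one -/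
noncomputable def vv (k : Type*) [Field k] {G : Type*} [Group G] {α : Type*} (x : α → G) (a : α) :
    MonoidAlgebra k G := MonoidAlgebra.of k G (x a) - 1

theorem vv_mem (x : α → G) (a : α) : vv k x a ∈ JJ k G 1 := single_sub_one_mem_JJ (x a)

theorem piN_wd (x : α → G) (N : Subgroup G) [N.Normal] (U : List α) :
    piN k N (wd (vv k x) U) =
      wd (fun a => (MonoidAlgebra.single (QuotientGroup.mk (x a) : G ⧸ N) (1 : k) - 1 :
        MonoidAlgebra k (G ⧸ N))) U := by
  induction U with
  | nil => simp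
  | cons a U ih =>
    rw [wd_cons, wd_cons, map_mul, ih]
    congr 1
    exact piN_sub_one N (x a)

/-- the growth estimate -/
theorem finrank_le [IsTopologicalGroup G] [CompactSpace G] [Fintype α] (x : α → G)
    (hx : Dense ((Subgroup.closure (Set.range x) : Subgroup G) : Set G)) (N : ON G) {n : ℕ}
    (hn : 1 ≤ n) :
    Module.finrank k ↥(Iaug k (G ⧸ N.1) ^ n) ≤ Module.finrank k ↥(Iaug k (G ⧸ N.1) ^ (n + 1)) +
      cnt {U | wd (vv k x) U ∉ Gt (JJ k G) (vv k x) U} n := by
  classical
  have hfinQ : Finite (G ⧸ N.1) := Subgroup.quotient_finite_of_isOpen _ N.2.2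
  have hfd : Module.Finite k (MonoidAlgebra k (G ⧸ N.1)) :=
    Module.Finite.equiv (MonoidAlgebra.coeffLinearEquiv (R := k) (S := k) (M := G ⧸ N.1)).symm
  let L : Set (List α) := {U | wd (vv k x) U ∉ Gt (JJ k G) (vv k x) U}
  let T : Submodule k (MonoidAlgebra k (G ⧸ N.1)) :=
    Submodule.span k ((fun U => piN k N.1 (wd (vv k x) U)) '' (sl L n)) ⊔
      Iaug k (G ⧸ N.1) ^ (n + 1)
  have hfin : ∀ U : List α, {t : List α | t.length = n ∧ BLt U t}.Finite := fun U =>
    (List.finite_length_eq α n).subset (fun _ h => h.1)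
  have key : ∀ c : ℕ, ∀ U : List α, U.length = n → (hfin U).toFinset.card = c →
      piN k N.1 (wd (vv k x) U) ∈ T := by
    intro c
    induction c using Nat.strong_induction_on with
    | _ c ih =>
      intro U hU hc
      by_cases hUL : U ∈ L
      · exact Submodule.mem_sup_left (Submodule.subset_span ⟨U, ⟨hUL, hU⟩, rfl⟩)
      · have h1 : wd (vv k x) U ∈ Gt (JJ k G) (vv k x) U := by
          by_contra hcon
          exact hUL hcon
        have h2 : Gt (JJ k G) (vv k x) U ≤ T.comap (piN k N.1).toLinearMap := by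
          refine sup_le (Submodule.span_le.2 ?_) ?_
          · rintro _ ⟨t, ht1, ht2, rfl⟩
            refine ih _ ?_ t (ht1.trans hU) rfl
            rw [← hc]
            refine Finset.card_lt_card ?_
            rw [Finset.ssubset_iff_of_subset]
            · refine ⟨t, ?_, ?_⟩
              · rw [Set.Finite.mem_toFinset]
                exact ⟨ht1.trans hU, ht2⟩
              · rw [Set.Finite.mem_toFinset]
                exact fun h => BLt.irrefl h.2
            · intro t' ht'
              rw [Set.Finite.mem_toFinset] at *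
              exact ⟨ht'.1, ht2.trans ht'.2⟩
          · intro a ha
            rw [mem_JJ] at ha
            have h3 := ha N
            rw [hU, pw_succ] at h3
            exact Submodule.mem_sup_right h3
        exact h2 h1
  have hle : Iaug k (G ⧸ N.1) ^ n ≤ T := by
    refine (aug_pow_gen _ (quot_gen x hx N) n).trans ?_
    refine sup_le (Submodule.span_le.2 ?_) le_sup_right
    rintro _ ⟨U, hU, rfl⟩
    rw [← piN_wd]
    exact key _ U hU rfl
  have h1 := Submodule.finrank_mono hle
  have h2 := Submodule.finrank_add_le_finrank_add_finrank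
    (Submodule.span k ((fun U => piN k N.1 (wd (vv k x) U)) '' (sl L n)))
    (Iaug k (G ⧸ N.1) ^ (n + 1))
  have hSfin : ((fun U => piN k N.1 (wd (vv k x) U)) '' (sl L n)).Finite :=
    (sl_finite L n).image _
  have : Fintype ((fun U => piN k N.1 (wd (vv k x) U)) '' (sl L n)) := hSfin.fintype
  have h3 := finrank_span_le_card (R := k) ((fun U => piN k N.1 (wd (vv k x) U)) '' (sl L n))
  rw [← Set.ncard_eq_toFinset_card'] at h3
  have h4 : ((fun U => piN k N.1 (wd (vv k x) U)) '' (sl L n)).ncard ≤ cnt L n :=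
    Set.ncard_image_le (sl_finite L n)
  have h5 : Module.finrank k ↥T ≤ _ := h2
  change Module.finrank k ↥(Iaug k (G ⧸ N.1) ^ n) ≤ Module.finrank k ↥(Iaug k (G ⧸ N.1) ^ (n + 1)) +
      cnt L n
  omega

/-! ### openness of the dimension subgroups -/

theorem lift_sup {A B : Type*} [AddCommGroup A] [Module k A] [AddCommGroup B] [Module k B]
    (π : A →ₗ[k] B) {X : Submodule k A} {W : Submodule k B} {a : A}
    (h : π a ∈ X.map π ⊔ W) : a ∈ X ⊔ W.comap π := by
  obtain ⟨s, hs, w, hw, hsw⟩ := Submodule.mem_sup.1 h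
  obtain ⟨x, hx, rfl⟩ := hs
  refine Submodule.mem_sup.2 ⟨x, hx, a - x, ?_, by abel⟩
  show π (a - x) ∈ W
  rw [map_sub, ← hsw]
  simpa using hw

theorem JN_le [IsTopologicalGroup G] (x : α → G)
    (hx : Dense ((Subgroup.closure (Set.range x) : Subgroup G) : Set G)) (N : ON G) (m : ℕ) :
    JN k N.1 m ≤ Submodule.span k {b | ∃ U : List α, U.length = m ∧ b = wd (vv k x) U} ⊔
      JN k N.1 (m + 1) := by
  intro a ha
  refine lift_sup (piN k N.1).toLinearMap ?_
  have h0 : pw (Iaug k (G ⧸ N.1)) m ≤ Submodule.span k {b | ∃ U : List α, U.length = m ∧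
      b = wd (fun a => (MonoidAlgebra.single (QuotientGroup.mk (x a) : G ⧸ N.1) (1 : k) - 1 :
        MonoidAlgebra k (G ⧸ N.1))) U} ⊔ pw (Iaug k (G ⧸ N.1)) (m + 1) := by
    cases m with
    | zero =>
      rw [pw_zero, pw_succ, Nat.zero_add, pow_one]
      refine top_le_aug.trans (sup_le_sup_right (Submodule.span_mono ?_) _)
      intro b hb
      exact ⟨[], rfl, by simpa using hb⟩
    | succ m =>
      rw [pw_succ, pw_succ]
      exact aug_pow_gen _ (quot_gen x hx N) (m + 1)
  have h1 := h0 ha
  have h2 : Submodule.span k {b | ∃ U : List α, U.length = m ∧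
      b = wd (fun a => (MonoidAlgebra.single (QuotientGroup.mk (x a) : G ⧸ N.1) (1 : k) - 1 :
        MonoidAlgebra k (G ⧸ N.1))) U} ≤ (Submodule.span k {b | ∃ U : List α, U.length = m ∧
      b = wd (vv k x) U}).map (piN k N.1).toLinearMap := by
    refine Submodule.span_le.2 ?_
    rintro _ ⟨U, hU, rfl⟩
    rw [← piN_wd]
    exact Submodule.mem_map_of_mem (Submodule.subset_span ⟨U, hU, rfl⟩)
  exact (sup_le_sup_right h2 _) h1

theorem top_le_JN [IsTopologicalGroup G] (x : α → G)
    (hx : Dense ((Subgroup.closure (Set.range x) : Subgroup G) : Set G)) (N : ON G) (m : ℕ) :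
    (⊤ : Submodule k (MonoidAlgebra k G)) ≤
      Submodule.span k (Set.range fun U : {U : List α // U.length < m} => wd (vv k x) U.1) ⊔
        JN k N.1 m := by
  induction m with
  | zero =>
    rw [(isFilt_JN N.1).zero]
    exact le_sup_right
  | succ m ih =>
    refine ih.trans (sup_le ?_ ?_)
    · refine le_sup_of_le_left (Submodule.span_mono ?_)
      rintro _ ⟨U, rfl⟩
      exact ⟨⟨U.1, by have := U.2; omega⟩, rfl⟩
    · refine (JN_le x hx N m).trans (sup_le_sup_right (Submodule.span_mono ?_) _)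
      rintro _ ⟨U, hU, rfl⟩
      exact ⟨⟨U, by omega⟩, rfl⟩

theorem index_le [IsTopologicalGroup G] [Finite k] [Finite α] (x : α → G)
    (hx : Dense ((Subgroup.closure (Set.range x) : Subgroup G) : Set G)) (N : ON G) (m : ℕ) :
    (Dsub (isFilt_JN (k := k) N.1) (MonoidAlgebra.of k G) m).index ≠ 0 ∧
    (Dsub (isFilt_JN (k := k) N.1) (MonoidAlgebra.of k G) m).index ≤
      Nat.card ({U : List α // U.length < m} → k) := by
  classical
  have hfW : Finite {U : List α // U.length < m} := (List.finite_length_lt α m).to_subtype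
  have := Fintype.ofFinite {U : List α // U.length < m}
  let D := Dsub (isFilt_JN (k := k) N.1) (MonoidAlgebra.of k G) m
  let ψ : ({U : List α // U.length < m} → k) → (MonoidAlgebra k G ⧸ JN k N.1 m) :=
    fun c => Submodule.Quotient.mk (∑ U, c U • wd (vv k x) U.1)
  have hψ : Function.Surjective ψ := by
    intro q
    obtain ⟨a, rfl⟩ := Submodule.Quotient.mk_surjective _ q
    have h1 := top_le_JN (k := k) x hx N m (Submodule.mem_top (x := a))
    obtain ⟨s, hs, w, hw, rfl⟩ := Submodule.mem_sup.1 h1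
    obtain ⟨c, hc⟩ := (Submodule.mem_span_range_iff_exists_fun k).1 hs
    refine ⟨c, ?_⟩
    simp only [ψ]
    rw [hc, Submodule.Quotient.eq]
    simpa using hw
  have hfQ : Finite (MonoidAlgebra k G ⧸ JN k N.1 m) := Finite.of_surjective ψ hψ
  let φ : (G ⧸ D) → (MonoidAlgebra k G ⧸ JN k N.1 m) :=
    fun q => Submodule.Quotient.mk (MonoidAlgebra.of k G q.out)
  have hφ : Function.Injective φ := by
    intro q q' hqq
    simp only [φ] at hqq
    rw [Submodule.Quotient.eq] at hqq
    rw [← QuotientGroup.out_eq' q, ← QuotientGroup.out_eq' q', eq_comm]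
    refine QuotientGroup.eq.2 ?_
    show MonoidAlgebra.of k G (q'.out⁻¹ * q.out) - 1 ∈ JN k N.1 m
    have h1 : MonoidAlgebra.of k G (q'.out⁻¹ * q.out) - 1 = MonoidAlgebra.of k G (q'.out⁻¹) *
        (MonoidAlgebra.of k G q.out - MonoidAlgebra.of k G q'.out) := by
      rw [mul_sub, ← map_mul, ← map_mul, inv_mul_cancel, map_one]
    rw [h1]
    exact (isFilt_JN (k := k) N.1).le (by omega)
      ((isFilt_JN (k := k) N.1).mul_mem ((isFilt_JN (k := k) N.1).mem_zero _) hqq)
  have hfG : Finite (G ⧸ D) := Finite.of_injective φ hφ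
  refine ⟨?_, ?_⟩
  · show Nat.card (G ⧸ D) ≠ 0
    exact Nat.card_pos.ne'
  · show Nat.card (G ⧸ D) ≤ _
    exact (Nat.card_le_card_of_injective φ hφ).trans (Nat.card_le_card_of_surjective ψ hψ)

theorem Dsub_open [IsTopologicalGroup G] [Finite k] [Finite α] (x : α → G)
    (hx : Dense ((Subgroup.closure (Set.range x) : Subgroup G) : Set G)) (m : ℕ) :
    IsOpen (Dsub (isFilt_JJ (k := k) (G := G)) (MonoidAlgebra.of k G) m : Set G) := by
  classical
  let D : ON G → Subgroup G := fun N => Dsub (isFilt_JN (k := k) N.1) (MonoidAlgebra.of k G) m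
  let B := Nat.card ({U : List α // U.length < m} → k)
  have hD : ∀ N, (D N).index ≠ 0 ∧ (D N).index ≤ B := fun N => index_le x hx N m
  have hne : Nonempty (ON G) := ⟨⟨⊤, inferInstance, isOpen_univ⟩⟩
  obtain ⟨N₀, -, hN₀⟩ := (measure (fun N : ON G => B - (D N).index)).wf.has_min Set.univ
    ⟨Classical.arbitrary _, trivial⟩
  have hmono : ∀ N N' : ON G, N.1 ≤ N'.1 → D N ≤ D N' := by
    intro N N' h g hg
    exact JN_mono h m hg
  have key : ∀ N, D N₀ ≤ D N := by
    intro N
    have hn1 : (N₀.1 ⊓ N.1).Normal := by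
      have := N₀.2.1
      have := N.2.1
      infer_instance
    let N' : ON G := ⟨N₀.1 ⊓ N.1, hn1, N₀.2.2.inter N.2.2⟩
    have h1 : D N' ≤ D N₀ := hmono _ _ inf_le_left
    have h2 : D N' ≤ D N := hmono _ _ inf_le_right
    have h3 := Subgroup.relIndex_mul_index h1
    have h4 : ¬ (B - (D N').index < B - (D N₀).index) := hN₀ N' trivial
    have h5 := (hD N').1
    have h6 := (hD N').2
    have h7 := (hD N₀).1
    have h8 : (D N').relIndex (D N₀) = 1 := by
      have h9 : (D N').relIndex (D N₀) ≠ 0 := by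
        intro h0; rw [h0, zero_mul] at h3; exact h5 h3.symm
      by_contra hne1
      have h10 : 2 ≤ (D N').relIndex (D N₀) := by omega
      have h11 : 2 * (D N₀).index ≤ (D N').index := by
        rw [← h3]; exact Nat.mul_le_mul_right _ h10
      omega
    exact (Subgroup.relIndex_eq_one.1 h8).trans h2
  have hfin : N₀.1 ≤ Dsub (isFilt_JJ (k := k) (G := G)) (MonoidAlgebra.of k G) m := by
    intro g hg
    show MonoidAlgebra.of k G g - 1 ∈ JJ k G m
    rw [mem_JJ]
    intro N
    have h1 : g ∈ D N₀ := by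
      show piN k N₀.1 (MonoidAlgebra.single g (1 : k) - 1) ∈ pw (Iaug k (G ⧸ N₀.1)) m
      rw [piN_sub_one]
      have h2 : (QuotientGroup.mk g : G ⧸ N₀.1) = 1 := (QuotientGroup.eq_one_iff g).2 hg
      rw [h2, ← MonoidAlgebra.one_def, sub_self]
      exact Submodule.zero_mem _
    exact key N h1
  exact Subgroup.isOpen_mono hfin N₀.2.2

end

end Pool.Agent.H9
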