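import Mathlib

set_option autoImplicit false
set_option linter.unusedSectionVars false

/-!
# A measurable selection for closed relations with a compact second factor
-/

namespace Pool.Agent.H9

open MeasureTheory Set

variable {W : Type*} [Countable W] {κ : Type*} [Finite κ] [TopologicalSpace κ]
  [DiscreteTopology κ]

/-- encoding of a function by a binary sequence -/
noncomputable def enc [Encodable (W × κ)] [DecidableEq κ] (f : W → κ) : ℕ → Bool := fun n =>
  match (Encodable.decode n : Option (W × κ)) with
  | some q => decide (f q.1 = q.2)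
  | none => false

theorem enc_injective [Encodable (W × κ)] [DecidableEq κ] :
    Function.Injective (enc : (W → κ) → ℕ → Bool) := by
  intro f g h
  funext u
  have h1 := congrFun h (Encodable.encode (u, f u))
  simp only [enc, Encodable.encodek] at h1
  exact (by simpa using h1 : g u = f u).symm

theorem enc_continuous [Encodable (W × κ)] [DecidableEq κ] (n : ℕ) :
    Continuous (fun f : W → κ => enc f n) := by
  unfold enc
  cases (Encodable.decode n : Option (W × κ)) with
  | none => exact continuous_const
  | some q =>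
    exact (continuous_of_discreteTopology (f := fun c : κ => decide (c = q.2))).comp
      (continuous_apply q.1)

theorem exists_theta : ∃ θ : (W → κ) → ℝ, Continuous θ ∧ Function.Injective θ := by
  classical
  have : Encodable (W × κ) := Encodable.ofCountable _
  refine ⟨fun f => Cardinal.cantorFunction (1 / 3) (enc f), ?_, ?_⟩
  · unfold Cardinal.cantorFunction
    refine continuous_tsum (u := fun n : ℕ => ((1:ℝ) / 3) ^ n) ?_ ?_ ?_
    · intro n
      exact (continuous_of_discreteTopology (f := fun b : Bool => cond b (((1:ℝ) / 3) ^ n) 0)).comp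
        (enc_continuous n)
    · exact summable_geometric_of_lt_one (by norm_num) (by norm_num)
    · intro n f
      rw [Real.norm_eq_abs, abs_of_nonneg (Cardinal.cantorFunctionAux_nonneg (by norm_num))]
      unfold Cardinal.cantorFunctionAux
      cases enc f n
      · simp
      · simp
  · intro f g h
    exact enc_injective (Cardinal.cantorFunction_injective (by norm_num) (by norm_num) h)

theorem exists_sel {X : Type*} [TopologicalSpace X] [MeasurableSpace X] [BorelSpace X]
    [Nonempty κ] (R : Set (X × (W → κ))) (hR : IsClosed R) :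
    IsClosed (Prod.fst '' R) ∧ ∃ f : X → (W → κ), (∀ z ∈ Prod.fst '' R, (z, f z) ∈ R) ∧
      ∀ u c, MeasurableSet {z | z ∈ Prod.fst '' R ∧ f z u = c} := by
  classical
  obtain ⟨θ, hθc, hθi⟩ := exists_theta (W := W) (κ := κ)
  have hZ : IsClosed (Prod.fst '' R) := isClosedMap_fst_of_compactSpace _ hR
  refine ⟨hZ, ?_⟩
  have hmin : ∀ z : X, ∃ g : W → κ, z ∈ Prod.fst '' R →
      ((z, g) ∈ R ∧ ∀ g', (z, g') ∈ R → θ g ≤ θ g') := by
    intro z
    by_cases hz : z ∈ Prod.fst '' R
    · have hK : IsCompact {g : W → κ | (z, g) ∈ R} := by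
        refine IsClosed.isCompact ?_
        exact hR.preimage (Continuous.prodMk_right z)
      have hne : {g : W → κ | (z, g) ∈ R}.Nonempty := by
        obtain ⟨⟨z', g⟩, hg, rfl⟩ := hz
        exact ⟨g, hg⟩
      obtain ⟨g, hg, hg'⟩ := hK.exists_isMinOn hne hθc.continuousOn
      exact ⟨g, fun _ => ⟨hg, fun g' hg'' => hg' hg''⟩⟩
    · exact ⟨Classical.arbitrary _, fun h => absurd h hz⟩
  choose f hf using hmin
  refine ⟨f, fun z hz => (hf z hz).1, ?_⟩
  have hT : ∀ a : ℝ, IsClosed {z | z ∈ Prod.fst '' R ∧ θ (f z) ≤ a} := by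
    intro a
    have h1 : {z | z ∈ Prod.fst '' R ∧ θ (f z) ≤ a} =
        Prod.fst '' (R ∩ {q : X × (W → κ) | θ q.2 ≤ a}) := by
      ext z
      constructor
      · rintro ⟨hz, h2⟩
        exact ⟨(z, f z), ⟨(hf z hz).1, h2⟩, rfl⟩
      · rintro ⟨⟨z', g⟩, ⟨hg, hg'⟩, rfl⟩
        have hz : z' ∈ Prod.fst '' R := ⟨(z', g), hg, rfl⟩
        exact ⟨hz, ((hf z' hz).2 g hg).trans hg'⟩
    rw [h1]
    refine isClosedMap_fst_of_compactSpace _ (hR.inter ?_)
    exact isClosed_le (hθc.comp continuous_snd) continuous_const
  have hmeas : Measurable (fun z => if z ∈ Prod.fst '' R then θ (f z) else 0) := by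
    refine measurable_of_Iic fun a => ?_
    by_cases ha : 0 ≤ a
    · have h1 : (fun z => if z ∈ Prod.fst '' R then θ (f z) else 0) ⁻¹' Iic a =
          {z | z ∈ Prod.fst '' R ∧ θ (f z) ≤ a} ∪ (Prod.fst '' R)ᶜ := by
        ext z
        by_cases hz : z ∈ Prod.fst '' R
        · simp only [mem_preimage, if_pos hz, mem_Iic, mem_union, mem_ofPred_eq, mem_compl_iff]
          tauto
        · simp only [mem_preimage, if_neg hz, mem_Iic, mem_union, mem_ofPred_eq, mem_compl_iff]
          tauto
      rw [h1]
      exact (hT a).measurableSet.union hZ.measurableSet.compl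
    · have h1 : (fun z => if z ∈ Prod.fst '' R then θ (f z) else 0) ⁻¹' Iic a =
          {z | z ∈ Prod.fst '' R ∧ θ (f z) ≤ a} := by
        ext z
        by_cases hz : z ∈ Prod.fst '' R
        · simp only [mem_preimage, if_pos hz, mem_Iic, mem_ofPred_eq]
          tauto
        · simp only [mem_preimage, if_neg hz, mem_Iic, mem_ofPred_eq]
          tauto
      rw [h1]
      exact (hT a).measurableSet
  intro u c
  have hC : MeasurableSet (θ '' {g : W → κ | g u = c}) := by
    refine IsClosed.measurableSet (IsCompact.isClosed ?_)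
    refine IsCompact.image (IsClosed.isCompact ?_) hθc
    exact isClosed_eq (continuous_apply u) continuous_const
  have h1 : {z | z ∈ Prod.fst '' R ∧ f z u = c} = (Prod.fst '' R) ∩
      (fun z => if z ∈ Prod.fst '' R then θ (f z) else 0) ⁻¹' (θ '' {g : W → κ | g u = c}) := by
    ext z
    constructor
    · rintro ⟨hz, h2⟩
      refine ⟨hz, ?_⟩
      simp only [mem_preimage, if_pos hz]
      exact ⟨f z, h2, rfl⟩
    · rintro ⟨hz, h2⟩
      simp only [mem_preimage, if_pos hz] at h2
      obtain ⟨g, hg, hgz⟩ := h2
      have := hθi hgz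
      refine ⟨hz, ?_⟩
      rw [← this]
      exact hg
  rw [h1]
  exact hZ.measurableSet.inter (hmeas hC)

end Pool.Agent.H9
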