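import Mathlib
import Pool.Agent.H9.Lang

set_option autoImplicit false
set_option linter.unusedSectionVars false

/-!
# The tree of Lyndon words in a language of exponential growth
-/

namespace Pool.Agent.H9

open Set Filter

variable {α : Type*} [LinearOrder α] [Fintype α]

theorem cnt_le_sum {ι : Type*} (S : Set (List α)) (I : Finset ι) (T : ι → Set (List α)) (n : ℕ)
    (h : ∀ W ∈ S, W.length = n → ∃ i ∈ I, W ∈ T i) : cnt S n ≤ ∑ i ∈ I, cnt (T i) n := by
  classical
  have h1 : sl S n ⊆ ((I.biUnion fun i => (sl_finite (T i) n).toFinset : Finset (List α)) :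
      Set (List α)) := by
    rintro W ⟨hW, hl⟩
    obtain ⟨i, hi, hWi⟩ := h W hW hl
    simp only [Finset.coe_biUnion, Set.mem_iUnion, Finset.mem_coe, Set.Finite.mem_toFinset]
    exact ⟨i, hi, hWi, hl⟩
  calc cnt S n ≤ (((I.biUnion fun i => (sl_finite (T i) n).toFinset : Finset (List α)) :
      Set (List α))).ncard := Set.ncard_le_ncard h1 (Finset.finite_toSet _)
    _ = (I.biUnion fun i => (sl_finite (T i) n).toFinset).card := Set.ncard_coe_finset _
    _ ≤ ∑ i ∈ I, ((sl_finite (T i) n).toFinset).card := Finset.card_biUnion_le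
    _ = ∑ i ∈ I, cnt (T i) n := by
        refine Finset.sum_congr rfl fun i _ => ?_
        rw [cnt, Set.ncard_eq_toFinset_card _ (sl_finite (T i) n)]

theorem cnt_le_add {S A B : Set (List α)} (n : ℕ)
    (h : ∀ W ∈ S, W.length = n → W ∈ A ∨ W ∈ B) : cnt S n ≤ cnt A n + cnt B n := by
  have := cnt_le_sum S (Finset.univ : Finset Bool) (fun b => if b then A else B) n (by
    intro W hW hl
    rcases h W hW hl with h1 | h1
    · exact ⟨true, Finset.mem_univ _, by simpa using h1⟩
    · exact ⟨false, Finset.mem_univ _, by simpa using h1⟩)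
  simpa using this

/-- good times -/
def GT (L : Set (List α)) (r K : ℝ) (n : ℕ) : Prop :=
  ∀ j ≤ n, (cnt L j : ℝ) * r ^ (n - j) ≤ K * cnt L n

theorem Crit.exists_good_times {L : Set (List α)} {r : ℝ} (hc : Crit L r) :
    ∃ K : ℝ, 1 ≤ K ∧ ∃ᶠ n in atTop, GT L r K n := by
  classical
  have hr := hc.one_lt
  have hr0 : (0:ℝ) < r := by linarith
  set g : ℕ → ℝ := fun n => (cnt L n : ℝ) / r ^ n with hg
  have hg1 : ∀ n, 1 ≤ g n := by
    intro n
    rw [hg]
    simp only
    rw [le_div_iff₀ (by positivity), one_mul]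
    exact hc.low n
  have hgmul : ∀ n, (cnt L n : ℝ) = g n * r ^ n := by
    intro n
    rw [hg]; simp only
    field_simp
  have key : ∀ K n, 1 ≤ K → (∀ j ≤ n, g j ≤ K * g n) → GT L r K n := by
    intro K n hK h j hj
    rw [hgmul j, hgmul n]
    have h1 : r ^ n = r ^ j * r ^ (n - j) := by rw [← pow_add]; congr 1; omega
    calc g j * r ^ j * r ^ (n - j) = g j * r ^ n := by rw [h1]; ring
      _ ≤ (K * g n) * r ^ n := mul_le_mul_of_nonneg_right (h j hj) (by positivity)
      _ = K * (g n * r ^ n) := by ring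
  by_cases hb : ∃ K, ∀ n, g n ≤ K
  · obtain ⟨K, hK⟩ := hb
    have hK1 : 1 ≤ K := (hg1 0).trans (hK 0)
    refine ⟨K, hK1, ?_⟩
    refine Filter.Frequently.of_forall fun n => key K n hK1 ?_
    intro j _
    calc g j ≤ K := hK j
      _ = K * 1 := (mul_one _).symm
      _ ≤ K * g n := mul_le_mul_of_nonneg_left (hg1 n) (by linarith)
  · push Not at hb
    refine ⟨1, le_rfl, ?_⟩
    rw [Filter.frequently_atTop]
    intro n₀
    set K₀ := ∑ i ∈ Finset.range (n₀ + 1), g i with hK₀
    have hex : ∃ n, K₀ < g n := hb K₀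
    refine ⟨Nat.find hex, ?_, ?_⟩
    · by_contra hlt
      push Not at hlt
      have h1 := Nat.find_spec hex
      have h2 : ∀ i, i < n₀ + 1 → g i ≤ K₀ := fun i hi =>
        Finset.single_le_sum (f := g) (fun i _ => by linarith [hg1 i])
          (Finset.mem_range.2 hi)
      have h3 := h2 (Nat.find hex) (by omega)
      linarith
    · refine key 1 _ le_rfl ?_
      intro j hj
      rw [one_mul]
      rcases Nat.lt_or_ge j (Nat.find hex) with h1 | h1
      · have h2 := Nat.find_min hex h1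
        push Not at h2
        linarith [Nat.find_spec hex]
      · have : j = Nat.find hex := le_antisymm hj h1
        rw [← this]

theorem GT.suffix_bound {L : Set (List α)} {r K : ℝ} (hf : Factorial L) (hr : 1 < r) (hK : 1 ≤ K)
    {n : ℕ}
    (hn : GT L r K n) (v : List α) :
    (cnt {W | W ∈ L ∧ v <:+ W} n : ℝ) ≤ K * (r⁻¹) ^ v.length * cnt L n := by
  have hr0 : (0:ℝ) < r := by linarith
  by_cases hv : v.length ≤ n
  · have h1 : cnt {W | W ∈ L ∧ v <:+ W} n ≤ cnt L (n - v.length) * 1 := by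
      have : (({v} : Set (List α))).ncard = 1 := Set.ncard_singleton v
      rw [← this]
      refine ncard_le_mul (sl_finite _ _) (Set.finite_singleton v) ?_
      rintro W ⟨⟨hW, s, hs⟩, hl⟩
      refine ⟨s, ⟨hf.pre (u := s) ⟨v, hs⟩ hW, ?_⟩, v, rfl, hs.symm⟩
      have := congrArg List.length hs
      simp only [List.length_append] at this
      omega
    rw [mul_one] at h1
    have h2 := hn (n - v.length) (Nat.sub_le _ _)
    have h3 : n - (n - v.length) = v.length := by omega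
    rw [h3] at h2
    have h4 : (cnt L (n - v.length) : ℝ) ≤ K * (r⁻¹) ^ v.length * cnt L n := by
      rw [inv_pow]
      have h5 : (0:ℝ) < r ^ v.length := by positivity
      rw [mul_right_comm, ← div_eq_mul_inv, le_div_iff₀ h5]
      exact h2
    exact le_trans (by exact_mod_cast h1) h4
  · have h1 : cnt {W | W ∈ L ∧ v <:+ W} n = 0 := by
      rw [cnt, Set.ncard_eq_zero (sl_finite _ _)]
      rw [Set.eq_empty_iff_forall_notMem]
      rintro W ⟨⟨_, hs⟩, hl⟩
      have := hs.length_le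
      omega
    rw [h1]
    simp only [Nat.cast_zero]
    positivity

/-- words with context `w`, clean -/
def CW (L : Set (List α)) (x : ℕ → α) (l₀ : ℕ) (w : List α) : Set (List α) :=
  {W | W ∈ L ∧ ∃ v, W = v ++ (w ++ pre x l₀) ∧ (∀ l, l₀ < l → ¬ pre x l <:+ W) ∧
    ∀ l, 1 ≤ l → ¬ pre x l <:+ v}

theorem CW_bound {L : Set (List α)} {r K : ℝ} (hf : Factorial L) (hr : 1 < r) (hK : 1 ≤ K)
    (x : ℕ → α) (l₀ : ℕ) {n : ℕ} (hn : GT L r K n) (w : List α) :
    (cnt (CW L x l₀ w) n : ℝ) ≤ K * (r⁻¹) ^ w.length * cnt L n := by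
  have hr0 : (0:ℝ) < r := by linarith
  have h1 := hn.suffix_bound hf hr hK (w ++ pre x l₀)
  have h2 : cnt (CW L x l₀ w) n ≤ cnt {W | W ∈ L ∧ (w ++ pre x l₀) <:+ W} n := by
    refine cnt_mono ?_ n
    rintro W ⟨hW, v, hv, _⟩
    exact ⟨hW, v, hv.symm⟩
  have h3 : (r⁻¹) ^ (w ++ pre x l₀).length ≤ (r⁻¹) ^ w.length := by
    refine pow_le_pow_of_le_one (by positivity) (inv_le_one_of_one_le₀ hr.le) ?_
    simp
  calc (cnt (CW L x l₀ w) n : ℝ) ≤ _ := by exact_mod_cast h2
    _ ≤ _ := h1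
    _ ≤ _ := by
      refine mul_le_mul_of_nonneg_right ?_ (by positivity)
      exact mul_le_mul_of_nonneg_left h3 (by linarith)

/-- good contexts -/
def Gd (L : Set (List α)) (r K : ℝ) (x : ℕ → α) (l₀ : ℕ) (w : List α) : Prop :=
  ∃ δ : ℝ, 0 < δ ∧ ∃ᶠ n in atTop, GT L r K n ∧ δ * cnt L n ≤ cnt (CW L x l₀ w) n

theorem not_Gd {L : Set (List α)} {r K : ℝ} {x : ℕ → α} {l₀ : ℕ} {w : List α}
    (h : ¬ Gd L r K x l₀ w) {δ : ℝ} (hδ : 0 < δ) :
    ∀ᶠ n in atTop, GT L r K n → (cnt (CW L x l₀ w) n : ℝ) < δ * cnt L n := by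
  unfold Gd at h
  push Not at h
  exact h δ hδ

theorem exists_pow_geom {q C ε : ℝ} (hq0 : 0 ≤ q) (hq : q < 1) (hC : 0 ≤ C) (hε : 0 < ε) :
    ∃ m₁, ∀ m, m₁ ≤ m → ∀ n, C * ∑ i ∈ Finset.Ico m n, q ^ i ≤ ε := by
  have h1q : 0 < 1 - q := by linarith
  obtain ⟨m₁, hm₁⟩ := exists_pow_lt_of_lt_one (show 0 < ε * (1 - q) / (C + 1) by positivity) hq
  refine ⟨m₁, fun m hm n => ?_⟩
  have h2 := geom_sum_Ico_le_of_lt_one hq0 hq (m := m) (n := n)
  have h3 : q ^ m ≤ ε * (1 - q) / (C + 1) :=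
    (pow_le_pow_of_le_one hq0 hq.le hm).trans hm₁.le
  calc C * ∑ i ∈ Finset.Ico m n, q ^ i ≤ C * (q ^ m / (1 - q)) := mul_le_mul_of_nonneg_left h2 hC
    _ ≤ C * ((ε * (1 - q) / (C + 1)) / (1 - q)) := by
        refine mul_le_mul_of_nonneg_left ?_ hC
        exact div_le_div_of_nonneg_right h3 h1q.le
    _ = C / (C + 1) * ε := by field_simp
    _ ≤ 1 * ε := by
        refine mul_le_mul_of_nonneg_right ?_ hε.le
        rw [div_le_one (by positivity)]; linarith
    _ = ε := one_mul _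

theorem Crit.exists_base {L : Set (List α)} {r K : ℝ} (hc : Crit L r) (hK : 1 ≤ K)
    (hfreq : ∃ᶠ n in atTop, GT L r K n) {x : ℕ → α} (hx : MinWord L x) :
    ∃ l₀, Gd L r K x l₀ [] := by
  classical
  have hr := hc.one_lt
  have hr0 : (0:ℝ) < r := by linarith
  obtain ⟨l₁, hl₁⟩ := exists_pow_geom (q := r⁻¹) (C := K) (ε := 1/2) (by positivity)
    (inv_lt_one_of_one_lt₀ hr) (by linarith) (by norm_num)
  by_contra hcon
  push Not at hcon
  set δ : ℝ := 1 / (4 * (l₁ + 1)) with hδ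
  have hδ0 : 0 < δ := by positivity
  have hall : ∀ᶠ n in atTop, ∀ l₀ ∈ Finset.range l₁, GT L r K n →
      (cnt (CW L x l₀ []) n : ℝ) < δ * cnt L n := by
    rw [Filter.eventually_all_finset]
    intro l₀ _
    exact not_Gd (hcon l₀) hδ0
  obtain ⟨n, hn, hn'⟩ := (hfreq.and_eventually hall).exists
  have h1 : cnt L n ≤ (∑ l₀ ∈ Finset.range l₁, cnt (CW L x l₀ []) n) +
      ∑ l ∈ Finset.Ico l₁ (n + 1), cnt {W | W ∈ L ∧ pre x l <:+ W} n := by
    have h2 := cnt_le_sum L (Finset.range (n + 1))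
      (fun l => if l < l₁ then CW L x l [] else {W | W ∈ L ∧ pre x l <:+ W}) n (by
        intro W hW hl
        -- the maximal l
        let R : ℕ → Prop := fun l => pre x l <:+ W
        have hR0 : R 0 := by simp [R]
        have hRspec : R (Nat.findGreatest R n) := Nat.findGreatest_spec (P := R) (Nat.zero_le _) hR0
        have hRmax : ∀ l', R l' → l' ≤ Nat.findGreatest R n := by
          intro l' h
          refine Nat.le_findGreatest ?_ h
          have := List.IsSuffix.length_le h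
          rw [hl] at this
          simpa using this
        have hle : Nat.findGreatest R n ≤ n := Nat.findGreatest_le _
        generalize Nat.findGreatest R n = l at *
        refine ⟨l, Finset.mem_range.2 (by omega), ?_⟩
        split_ifs with hlt
        · obtain ⟨v, hv⟩ := hRspec
          refine ⟨hW, v, by simpa using hv.symm, ?_, ?_⟩
          · intro l' hl' h
            have := hRmax l' h
            omega
          · rintro l' hl' ⟨v₂, hv₂⟩
            have h3 : pre x l' ++ pre x l <:+ W := ⟨v₂, by rw [← hv, ← hv₂]; simp⟩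
            have h4 : pre x l' ++ pre x l ∈ L := hc.fac.suf h3 hW
            rw [hx.append_eq hc.fac h4] at h3
            have := hRmax _ h3
            omega
        · exact ⟨hW, hRspec⟩)
    refine h2.trans ?_
    by_cases hl1n : l₁ ≤ n + 1
    · rw [Finset.range_eq_Ico, Finset.range_eq_Ico,
        ← Finset.sum_Ico_consecutive _ (Nat.zero_le l₁) hl1n]
      refine add_le_add ?_ ?_
      · refine Finset.sum_le_sum fun i hi => ?_
        rw [Finset.mem_Ico] at hi
        simp [hi.2]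
      · refine Finset.sum_le_sum fun i hi => ?_
        rw [Finset.mem_Ico] at hi
        rw [if_neg (by omega)]
    · push Not at hl1n
      refine le_add_right ?_
      calc _ ≤ ∑ l ∈ Finset.range (n + 1), cnt (CW L x l []) n := by
            refine Finset.sum_le_sum fun i hi => ?_
            rw [Finset.mem_range] at hi
            rw [if_pos (by omega)]
        _ ≤ _ := Finset.sum_le_sum_of_subset (by
            intro i hi
            rw [Finset.mem_range] at hi ⊢
            omega)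
  have hNpos : (0:ℝ) < cnt L n := by exact_mod_cast hc.cnt_pos n
  have h2 : (∑ l₀ ∈ Finset.range l₁, (cnt (CW L x l₀ []) n : ℝ)) ≤ l₁ * (δ * cnt L n) := by
    calc _ ≤ ∑ _l₀ ∈ Finset.range l₁, δ * (cnt L n : ℝ) :=
          Finset.sum_le_sum fun l hl => (hn' l hl hn).le
      _ = _ := by rw [Finset.sum_const, Finset.card_range, nsmul_eq_mul]
  have h3 : (∑ l ∈ Finset.Ico l₁ (n + 1), (cnt {W | W ∈ L ∧ pre x l <:+ W} n : ℝ)) ≤
      1/2 * cnt L n := by
    calc _ ≤ ∑ l ∈ Finset.Ico l₁ (n + 1), K * (r⁻¹) ^ l * (cnt L n : ℝ) := by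
          refine Finset.sum_le_sum fun l _ => ?_
          have := hn.suffix_bound hc.fac hr hK (pre x l)
          simpa using this
      _ = (K * ∑ l ∈ Finset.Ico l₁ (n + 1), (r⁻¹) ^ l) * (cnt L n : ℝ) := by
          rw [Finset.mul_sum, Finset.sum_mul]
      _ ≤ _ := mul_le_mul_of_nonneg_right (hl₁ l₁ le_rfl _) hNpos.le
  have h4 : (cnt L n : ℝ) ≤ (∑ l₀ ∈ Finset.range l₁, (cnt (CW L x l₀ []) n : ℝ)) +
      ∑ l ∈ Finset.Ico l₁ (n + 1), (cnt {W | W ∈ L ∧ pre x l <:+ W} n : ℝ) := by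
    exact_mod_cast h1
  have h5 : (l₁ : ℝ) * (δ * cnt L n) ≤ 1/4 * cnt L n := by
    rw [← mul_assoc]
    refine mul_le_mul_of_nonneg_right ?_ hNpos.le
    rw [hδ, mul_one_div, div_le_div_iff₀ (by positivity) (by norm_num)]
    linarith
  linarith

/-- good lists of words -/
def GoodL (L : Set (List α)) (r K : ℝ) (x : ℕ → α) (l₀ : ℕ) (us : List (List α)) : Prop :=
  (∀ u ∈ us, BL x u) ∧ us.Pairwise (fun u v => lc x v < lc x u) ∧ Gd L r K x l₀ us.flatten

theorem Gd.mem {L : Set (List α)} {r K : ℝ} (hc : Crit L r) {x : ℕ → α} {l₀ : ℕ} {w : List α}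
    (h : Gd L r K x l₀ w) : w ∈ L := by
  obtain ⟨δ, hδ, hfreq⟩ := h
  obtain ⟨n, _, hn⟩ := hfreq.exists
  have h1 : (0:ℝ) < cnt L n := by exact_mod_cast hc.cnt_pos n
  have h2 : (0:ℝ) < cnt (CW L x l₀ w) n := lt_of_lt_of_le (by positivity) hn
  have h3 : 0 < cnt (CW L x l₀ w) n := by exact_mod_cast h2
  obtain ⟨W, hW⟩ := Set.nonempty_of_ncard_ne_zero h3.ne'
  obtain ⟨⟨hWL, v, hv, _⟩, _⟩ := hW
  rw [hv] at hWL
  have h4 : w <:+: v ++ (w ++ pre x l₀) := ⟨v, pre x l₀, by simp⟩
  exact hc.fac.ifx h4 hWL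

theorem GoodL.props {L : Set (List α)} {r K : ℝ} (hc : Crit L r) {x : ℕ → α} (hx : MinWord L x)
    {l₀ : ℕ} {us : List (List α)} (h : GoodL L r K x l₀ us) :
    (∀ u ∈ us, Lyndon u) ∧ us.Pairwise BLt ∧ us.flatten ∈ L := by
  obtain ⟨h1, h2, h3⟩ := h
  have hL := h3.mem hc
  have hmem : ∀ u ∈ us, u ∈ L := by
    intro u hu
    obtain ⟨s, t, hst⟩ := List.append_of_mem hu
    have h4 : u <:+: us.flatten := ⟨s.flatten, t.flatten, by rw [hst]; simp⟩
    exact hc.fac.ifx h4 hL
  refine ⟨fun u hu => (h1 u hu).lyndon hc.fac hx (hmem u hu), ?_, hL⟩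
  refine h2.imp_of_mem ?_
  intro u v _ hv huv
  exact hx.blt_of_lc hc.fac (hmem v hv) (h1 v hv).1 huv

theorem Crit.step {L : Set (List α)} {r K : ℝ} (hc : Crit L r) (hK : 1 ≤ K)
    {x : ℕ → α} (hx : MinWord L x) {l₀ : ℕ} {ρ : ℝ} (hρ0 : 0 < ρ) (hρ : ρ < r)
    {us : List (List α)} (hus : GoodL L r K x l₀ us) (m₀ : ℕ) :
    ∃ m, m₀ ≤ m ∧ ρ ^ m ≤ ({u | u.length = m ∧ GoodL L r K x l₀ (u :: us)}.ncard : ℝ) := by
  classical
  by_contra hcon
  push Not at hcon
  have hr := hc.one_lt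
  have hr0 : (0:ℝ) < r := by linarith
  have hK0 : (0:ℝ) < K := by linarith
  obtain ⟨hBL, hpw, δ, hδ, hfreq⟩ := hus
  set w := us.flatten with hw
  -- choose m₁
  obtain ⟨m₁', hm₁'⟩ := exists_pow_geom (q := ρ / r) (C := K) (ε := δ/8) (by positivity)
    (by rw [div_lt_one hr0]; exact hρ) hK0.le (by positivity)
  set m₁ := max m₀ m₁' with hm₁
  set ℓ₁ := m₁ + (us.map (lc x)).sum + 1 with hℓ₁
  have hℓus : ∀ u' ∈ us, lc x u' < ℓ₁ := by
    intro u' hu'
    have : lc x u' ≤ (us.map (lc x)).sum := List.single_le_sum (by simp) _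
      (List.mem_map_of_mem hu')
    omega
  -- choose m₂
  obtain ⟨m₂, hm₂⟩ := hc.avoid_small (hx.mem ℓ₁) (show 0 < δ / (8 * K) by positivity)
  have hm₂' := hm₂ m₂ le_rfl
  -- the words of length ≤ m₂
  set V : Finset (List α) := (List.finite_length_le α m₂).toFinset with hV
  have hVmem : ∀ v, v ∈ V ↔ v.length ≤ m₂ := by
    intro v; simp [hV]
  -- choose t
  obtain ⟨t, ht⟩ := exists_pow_geom (q := r⁻¹) (C := K * V.card) (ε := δ/8) (by positivity)
    (inv_lt_one_of_one_lt₀ hr) (by positivity) (by positivity)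
  -- the finite set of candidates
  set Tt : Finset (List α) := (List.finite_length_le α (m₂ + t)).toFinset.filter
    (fun u => u ∈ L ∧ BL x u ∧ ℓ₁ ≤ lc x u) with hTt
  have hTmem : ∀ u, u ∈ Tt ↔ u.length ≤ m₂ + t ∧ u ∈ L ∧ BL x u ∧ ℓ₁ ≤ lc x u := by
    intro u; simp [hTt]
  have hgood_iff : ∀ u ∈ Tt, ¬ GoodL L r K x l₀ (u :: us) → ¬ Gd L r K x l₀ (u ++ w) := by
    intro u hu hng hgd
    apply hng
    obtain ⟨_, _, h3, h4⟩ := (hTmem u).1 hu
    refine ⟨?_, ?_, ?_⟩
    · intro u' hu'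
      rcases List.mem_cons.1 hu' with h | h
      · subst h; exact h3
      · exact hBL u' h
    · rw [List.pairwise_cons]
      refine ⟨?_, hpw⟩
      intro u' hu'
      have := hℓus u' hu'
      omega
    · simpa [hw] using hgd
  set δ' : ℝ := δ / (8 * (Tt.card + 1)) with hδ'
  have hδ'0 : 0 < δ' := by positivity
  have hev : ∀ᶠ n in atTop, ∀ u ∈ Tt, ¬ GoodL L r K x l₀ (u :: us) → GT L r K n →
      (cnt (CW L x l₀ (u ++ w)) n : ℝ) < δ' * cnt L n := by
    rw [Filter.eventually_all_finset]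
    intro u hu
    by_cases hg : GoodL L r K x l₀ (u :: us)
    · exact Filter.Eventually.of_forall fun n h => absurd hg h
    · filter_upwards [not_Gd (hgood_iff u hu hg) hδ'0] with n hn _ hn'
      exact hn hn'
  have hev2 : ∀ᶠ n in atTop, m₂ + (w.length + l₀) ≤ n := Filter.eventually_ge_atTop _
  obtain ⟨n, ⟨hn, hnδ⟩, hnb, hnge⟩ := (hfreq.and_eventually (hev.and hev2)).exists
  have hNpos : (0:ℝ) < cnt L n := by exact_mod_cast hc.cnt_pos n
  -- decomposition
  set A₁ : Set (List α) := {W | W ∈ L ∧ ∃ v₁ v₂, W = v₁ ++ (v₂ ++ (w ++ pre x l₀)) ∧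
    v₂.length = m₂ ∧ ¬ pre x ℓ₁ <:+: v₂} with hA₁
  set A₂ : Set (List α) := {W | W ∈ L ∧ ∃ l v', t ≤ l ∧ v'.length ≤ m₂ ∧
    (pre x l ++ (v' ++ (w ++ pre x l₀))) <:+ W} with hA₂
  set A₃ : Set (List α) := {W | ∃ u ∈ Tt, W ∈ CW L x l₀ (u ++ w)} with hA₃
  have hdec : cnt (CW L x l₀ w) n ≤ cnt A₁ n + (cnt A₂ n + cnt A₃ n) := by
    have h1 : cnt (CW L x l₀ w) n ≤ cnt A₁ n + cnt (A₂ ∪ A₃) n := by
      refine cnt_le_add n ?_
      rintro W ⟨hW, v, hv, hv1, hv2⟩ hl
      have hvl : v.length + (w.length + l₀) = n := by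
        rw [← hl, hv]; simp
      set q := v.drop (v.length - m₂) with hq
      set p := v.take (v.length - m₂) with hp
      have hpq : v = p ++ q := (List.take_append_drop _ _).symm
      have hql : q.length = m₂ := by
        rw [hq, List.length_drop]; omega
      by_cases hocc : pre x ℓ₁ <:+: q
      · right
        have hvL : v ∈ L := hc.fac.pre (u := v) ⟨_, hv.symm⟩ hW
        obtain ⟨v₁, l, v', h1, h2, h3, h4, h5⟩ := hx.cut hc.fac hvL hv2 hpq (by omega) hocc
        by_cases hlt : t ≤ l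
        · left
          refine ⟨hW, l, v', hlt, by omega, v₁, ?_⟩
          rw [hv, h1]; simp
        · right
          refine ⟨pre x l ++ v', ?_, hW, v₁, ?_, hv1, h5⟩
          · rw [hTmem]
            refine ⟨?_, ?_, h3, h4⟩
            · simp only [List.length_append, pre_length]; omega
            · exact hc.fac.suf (u := _) ⟨v₁, h1.symm⟩ hvL
          · rw [hv, h1]; simp
      · left
        refine ⟨hW, p, q, ?_, hql, hocc⟩
        rw [hv, hpq]; simp
    refine h1.trans (Nat.add_le_add_left ?_ _)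
    exact cnt_le_add n (fun W hW _ => hW)
  -- A₁
  have hA₁b : (cnt A₁ n : ℝ) ≤ δ / 8 * cnt L n := by
    have h1 : cnt A₁ n ≤ cnt L (n - (m₂ + (w.length + l₀))) * cnt (Av L (pre x ℓ₁)) m₂ := by
      have h2 : cnt A₁ n ≤ cnt L (n - (m₂ + (w.length + l₀))) *
          (sl (Av L (pre x ℓ₁)) m₂ ).ncard * ({w ++ pre x l₀} : Set (List α)).ncard := by
        set C := {W : List α | ∃ a ∈ sl L (n - (m₂ + (w.length + l₀))),
          ∃ b ∈ sl (Av L (pre x ℓ₁)) m₂, W = a ++ b} with hC
        have hCf : C.Finite := by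
          refine (List.finite_length_le α n).subset ?_
          rintro W ⟨a, ha, b, hb, rfl⟩
          simp only [Set.mem_ofPred_eq, List.length_append]
          rw [ha.2, hb.2]; omega
        have h3 : C.ncard ≤ cnt L (n - (m₂ + (w.length + l₀))) *
          (sl (Av L (pre x ℓ₁)) m₂ ).ncard :=
          ncard_le_mul (sl_finite _ _) (sl_finite _ _) (fun W hW => hW)
        refine le_trans ?_ (Nat.mul_le_mul_right _ h3)
        refine ncard_le_mul hCf (Set.finite_singleton _) ?_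
        rintro W ⟨⟨hW, v₁, v₂, h4, h5, h6⟩, hl⟩
        refine ⟨v₁ ++ v₂, ⟨v₁, ⟨?_, ?_⟩, v₂, ⟨⟨?_, h6⟩, h5⟩, rfl⟩, w ++ pre x l₀, rfl, ?_⟩
        · exact hc.fac.pre (u := v₁) ⟨_, h4.symm⟩ hW
        · have := congrArg List.length h4
          simp only [List.length_append, pre_length] at this
          omega
        · refine hc.fac.ifx (u := v₂) ⟨v₁, w ++ pre x l₀, ?_⟩ hW
          rw [h4]; simp
        · rw [h4]; simp
      rw [Set.ncard_singleton, mul_one] at h2
      exact h2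
    have h2 := hn (n - (m₂ + (w.length + l₀))) (Nat.sub_le _ _)
    have h3 : n - (n - (m₂ + (w.length + l₀))) = m₂ + (w.length + l₀) := by omega
    rw [h3] at h2
    have h4 : (cnt L (n - (m₂ + (w.length + l₀))) : ℝ) * r ^ m₂ ≤ K * cnt L n := by
      refine le_trans ?_ h2
      refine mul_le_mul_of_nonneg_left ?_ (by positivity)
      exact pow_le_pow_right₀ hr.le (by omega)
    calc (cnt A₁ n : ℝ) ≤ (cnt L (n - (m₂ + (w.length + l₀))) : ℝ) *
          (cnt (Av L (pre x ℓ₁)) m₂ : ℝ) := by exact_mod_cast h1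
      _ ≤ (cnt L (n - (m₂ + (w.length + l₀))) : ℝ) * (δ / (8 * K) * r ^ m₂) :=
          mul_le_mul_of_nonneg_left hm₂' (by positivity)
      _ = δ / (8 * K) * ((cnt L (n - (m₂ + (w.length + l₀))) : ℝ) * r ^ m₂) := by ring
      _ ≤ δ / (8 * K) * (K * cnt L n) := mul_le_mul_of_nonneg_left h4 (by positivity)
      _ = δ / 8 * cnt L n := by field_simp
  -- A₂
  have hA₂b : (cnt A₂ n : ℝ) ≤ δ / 8 * cnt L n := by
    have h1 := cnt_le_sum A₂ ((Finset.Ico t (n + 1)) ×ˢ V)
      (fun q => {W | W ∈ L ∧ (pre x q.1 ++ (q.2 ++ (w ++ pre x l₀))) <:+ W}) n (by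
        rintro W ⟨hW, l, v', h1, h2, h3⟩ hl
        refine ⟨(l, v'), ?_, hW, h3⟩
        rw [Finset.mem_product, Finset.mem_Ico, hVmem]
        refine ⟨⟨h1, ?_⟩, h2⟩
        have := h3.length_le
        simp only [List.length_append, pre_length] at this
        omega)
    have h2 : (cnt A₂ n : ℝ) ≤ ∑ q ∈ (Finset.Ico t (n + 1)) ×ˢ V,
        K * (r⁻¹) ^ q.1 * cnt L n := by
      calc (cnt A₂ n : ℝ) ≤ ((∑ q ∈ (Finset.Ico t (n + 1)) ×ˢ V,
            cnt {W | W ∈ L ∧ (pre x q.1 ++ (q.2 ++ (w ++ pre x l₀))) <:+ W} n : ℕ) : ℝ) := by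
            exact_mod_cast h1
        _ = ∑ q ∈ (Finset.Ico t (n + 1)) ×ˢ V,
            (cnt {W | W ∈ L ∧ (pre x q.1 ++ (q.2 ++ (w ++ pre x l₀))) <:+ W} n : ℝ) := by
            push_cast; rfl
        _ ≤ _ := by
            refine Finset.sum_le_sum fun q _ => ?_
            refine (hn.suffix_bound hc.fac hr hK _).trans ?_
            refine mul_le_mul_of_nonneg_right ?_ hNpos.le
            refine mul_le_mul_of_nonneg_left ?_ hK0.le
            refine pow_le_pow_of_le_one (by positivity) (inv_le_one_of_one_le₀ hr.le) ?_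
            simp
    refine h2.trans ?_
    rw [Finset.sum_product]
    simp only [Finset.sum_const, nsmul_eq_mul]
    have h3 := ht t le_rfl (n + 1)
    calc ∑ i ∈ Finset.Ico t (n + 1), (V.card : ℝ) * (K * r⁻¹ ^ i * (cnt L n : ℝ))
        = (K * V.card * ∑ i ∈ Finset.Ico t (n + 1), r⁻¹ ^ i) * cnt L n := by
          rw [Finset.mul_sum, Finset.sum_mul]
          refine Finset.sum_congr rfl fun i _ => by ring
      _ ≤ δ / 8 * cnt L n := mul_le_mul_of_nonneg_right h3 hNpos.le
  -- A₃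
  have hA₃b : (cnt A₃ n : ℝ) ≤ δ / 8 * cnt L n + δ / 8 * cnt L n := by
    have h1 := cnt_le_sum A₃ Tt (fun u => CW L x l₀ (u ++ w)) n (by
      rintro W ⟨u, hu, hW⟩ _
      exact ⟨u, hu, hW⟩)
    have h2 : (cnt A₃ n : ℝ) ≤ ∑ u ∈ Tt, (cnt (CW L x l₀ (u ++ w)) n : ℝ) := by
      exact_mod_cast h1
    refine h2.trans ?_
    rw [← Finset.sum_filter_add_sum_filter_not Tt (fun u => GoodL L r K x l₀ (u :: us))]
    refine add_le_add ?_ ?_
    · -- good ones
      set Tg := Tt.filter (fun u => GoodL L r K x l₀ (u :: us)) with hTg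
      have hlen : ∀ u ∈ Tg, u.length ∈ Finset.Ico m₁ (m₂ + t + 1) := by
        intro u hu
        rw [hTg, Finset.mem_filter, hTmem] at hu
        obtain ⟨⟨h3, _, h5, h6⟩, _⟩ := hu
        have := h5.1
        rw [Finset.mem_Ico]
        omega
      calc ∑ u ∈ Tg, (cnt (CW L x l₀ (u ++ w)) n : ℝ)
          ≤ ∑ u ∈ Tg, K * (r⁻¹) ^ u.length * (cnt L n : ℝ) := by
            refine Finset.sum_le_sum fun u _ => ?_
            refine (CW_bound hc.fac hr hK x l₀ hn (u ++ w)).trans ?_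
            refine mul_le_mul_of_nonneg_right ?_ hNpos.le
            refine mul_le_mul_of_nonneg_left ?_ hK0.le
            refine pow_le_pow_of_le_one (by positivity) (inv_le_one_of_one_le₀ hr.le) ?_
            simp
        _ = ∑ m ∈ Finset.Ico m₁ (m₂ + t + 1), ∑ u ∈ Tg.filter (fun u => u.length = m),
              K * (r⁻¹) ^ u.length * (cnt L n : ℝ) :=
            (Finset.sum_fiberwise_of_maps_to hlen _).symm
        _ ≤ ∑ m ∈ Finset.Ico m₁ (m₂ + t + 1), K * (ρ / r) ^ m * (cnt L n : ℝ) := by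
            refine Finset.sum_le_sum fun m hm => ?_
            rw [Finset.mem_Ico] at hm
            have h3 : ∑ u ∈ Tg.filter (fun u => u.length = m),
                K * (r⁻¹) ^ u.length * (cnt L n : ℝ) =
                (Tg.filter (fun u => u.length = m)).card * (K * (r⁻¹) ^ m * (cnt L n : ℝ)) := by
              rw [← nsmul_eq_mul, ← Finset.sum_const]
              refine Finset.sum_congr rfl fun u hu => ?_
              rw [Finset.mem_filter] at hu
              rw [hu.2]
            rw [h3]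
            have h4 : ((Tg.filter (fun u => u.length = m)).card : ℝ) ≤ ρ ^ m := by
              have h5 := (hcon m (by omega)).le
              refine le_trans ?_ h5
              have h6 : (Tg.filter (fun u => u.length = m)).card ≤
                  {u | u.length = m ∧ GoodL L r K x l₀ (u :: us)}.ncard := by
                rw [← Set.ncard_coe_finset]
                refine Set.ncard_le_ncard ?_ ((List.finite_length_eq α m).subset (fun _ h => h.1))
                intro u hu
                simp only [Finset.coe_filter, Set.mem_ofPred_eq] at hu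
                rw [hTg, Finset.mem_filter] at hu
                exact ⟨hu.2, hu.1.2⟩
              exact_mod_cast h6
            calc _ ≤ ρ ^ m * (K * (r⁻¹) ^ m * (cnt L n : ℝ)) :=
                  mul_le_mul_of_nonneg_right h4 (by positivity)
              _ = _ := by rw [div_eq_mul_inv, mul_pow]; ring
        _ = (K * ∑ m ∈ Finset.Ico m₁ (m₂ + t + 1), (ρ / r) ^ m) * (cnt L n : ℝ) := by
            rw [Finset.mul_sum, Finset.sum_mul]
        _ ≤ _ := mul_le_mul_of_nonneg_right (hm₁' m₁ (le_max_right _ _) _) hNpos.le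
    · -- bad ones
      calc _ ≤ ∑ _u ∈ Tt.filter (fun u => ¬ GoodL L r K x l₀ (u :: us)), δ' * (cnt L n : ℝ) := by
            refine Finset.sum_le_sum fun u hu => ?_
            rw [Finset.mem_filter] at hu
            exact (hnb u hu.1 hu.2 hn).le
        _ = (Tt.filter (fun u => ¬ GoodL L r K x l₀ (u :: us))).card * (δ' * (cnt L n : ℝ)) := by
            rw [Finset.sum_const, nsmul_eq_mul]
        _ ≤ (Tt.card + 1) * (δ' * (cnt L n : ℝ)) := by
            refine mul_le_mul_of_nonneg_right ?_ (by positivity)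
            have : (Tt.filter (fun u => ¬ GoodL L r K x l₀ (u :: us))).card ≤ Tt.card :=
              Finset.card_filter_le _ _
            have h3 : ((Tt.filter (fun u => ¬ GoodL L r K x l₀ (u :: us))).card : ℝ) ≤ Tt.card := by
              exact_mod_cast this
            linarith
        _ = δ / 8 * cnt L n := by rw [hδ']; field_simp
  have hfin : (cnt (CW L x l₀ w) n : ℝ) ≤ cnt A₁ n + (cnt A₂ n + cnt A₃ n) := by
    exact_mod_cast hdec
  have hpos : 0 < δ * cnt L n := by positivity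
  nlinarith

/-- **The tree theorem.** -/
theorem exists_tree {L : Set (List α)} (hf : Factorial L) {r : ℝ} (hr : 1 < r)
    (hL : ∀ᶠ n in atTop, r ^ n ≤ (cnt L n : ℝ)) {ρ : ℝ} (hρ0 : 0 < ρ) (hρ : ρ < r) :
    ∃ Good : List (List α) → Prop, Good [] ∧
      (∀ us, Good us → ∀ m₀, ∃ m, m₀ ≤ m ∧
        ρ ^ m ≤ ({u | u.length = m ∧ Good (u :: us)}.ncard : ℝ)) ∧
      ∀ us, Good us → (∀ u ∈ us, Lyndon u) ∧ us.Pairwise BLt ∧ us.flatten ∈ L := by
  obtain ⟨L', hL'L, hc⟩ := exists_crit hf hr (all_of_eventually hf hr hL)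
  obtain ⟨x, hx⟩ := exists_minWord hc
  obtain ⟨K, hK, hfreq⟩ := hc.exists_good_times
  obtain ⟨l₀, hl₀⟩ := hc.exists_base hK hfreq hx
  refine ⟨GoodL L' r K x l₀, ⟨by simp, by simp, by simpa using hl₀⟩, ?_, ?_⟩
  · intro us hus m₀
    exact hc.step hK hx hρ0 hρ hus m₀
  · intro us hus
    obtain ⟨h1, h2, h3⟩ := hus.props hc hx
    exact ⟨h1, h2, hL'L h3⟩

end Pool.Agent.H9
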