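import Mathlib
import Pool.Agent.H9.Descend
import Pool.Agent.H9.Derive
import Pool.Agent.H9.Select
import Pool.Agent.H9.Tree

set_option autoImplicit false
set_option linter.unusedSectionVars false

/-!
# The main abstract theorem
-/

namespace Pool.Agent.H9

open Filter MeasureTheory

variable {k : Type*} [Field k] {A : Type*} [Ring A] [Algebra k A]
variable {G : Type*} [Group G]
variable {J : ℕ → Submodule k A} (hJ : IsFilt J) (ι : G →* A)

theorem WW_congr {Γ : Type*} [Group Γ] {S : ℕ → Subgroup Γ} {E : Bool → Γ →* A}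
    (hJ : IsFilt J) (hE : ∀ b m, ∀ h ∈ S m, E b h - 1 ∈ J m) (w : List Bool) (N : ℕ) (z z' : Γ)
    (h : z⁻¹ * z' ∈ S N) : WW E w z' - WW E w z ∈ J N := by
  induction w with
  | nil => simp [WW_nil]
  | cons b w ih =>
    rw [WW_cons]
    simp only [Pi.mul_apply]
    have h1 : letter E b z' - letter E b z = E b z * (E b (z⁻¹ * z') - 1) := by
      simp only [letter, mul_sub, ← map_mul, mul_inv_cancel_left, mul_one]
      abel
    have h2 : letter E b z' * WW E w z' - letter E b z * WW E w z =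
        (letter E b z' - letter E b z) * WW E w z' + letter E b z * (WW E w z' - WW E w z) := by
      noncomm_ring
    rw [h2, h1]
    refine Submodule.add_mem _ ?_ ?_
    · refine hJ.le (by omega) (hJ.mul_mem (hJ.mul_mem (hJ.mem_zero (E b z)) (hE b N _ h))
        (hJ.mem_zero _))
    · exact hJ.le (by omega) (hJ.mul_mem (hJ.mem_zero _) ih)

theorem FF_congr {Γ : Type*} [Group Γ] {S : ℕ → Subgroup Γ} {E : Bool → Γ →* A}
    (hJ : IsFilt J) (hE : ∀ b m, ∀ h ∈ S m, E b h - 1 ∈ J m) (N T : ℕ) (z z' : Γ)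
    (h : z⁻¹ * z' ∈ S N) (f f' : List Bool → k) (hf : ∀ u ∈ Wr T, f' u = f u) :
    FF E f' z' T - FF E f z T ∈ J N := by
  unfold FF
  rw [← Finset.sum_sub_distrib]
  refine Submodule.sum_mem _ fun u hu => ?_
  rw [hf u hu, ← smul_sub]
  exact Submodule.smul_mem _ _ (WW_congr hJ hE u N z z' h)

section top

variable [TopologicalSpace G] [IsTopologicalGroup G] [TopologicalSpace k] [DiscreteTopology k]

theorem isClosed_rel (hopen : ∀ m, IsOpen (Dsub hJ ι m : Set G)) (N : ℕ) :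
    IsClosed {q : (G × G) × (List Bool → k) | FF (E2 ι) q.2 q.1 N ∈ J N} := by
  rw [← isOpen_compl_iff, isOpen_iff_mem_nhds]
  rintro ⟨z, f⟩ hzf
  have hE := E2_mem hJ ι
  have hS : IsOpen (S2 hJ ι N : Set (G × G)) := (hopen N).prod (hopen N)
  have h1 : IsOpen {q : (G × G) × (List Bool → k) | z⁻¹ * q.1 ∈ S2 hJ ι N ∧
      ∀ u ∈ Wr N, q.2 u = f u} := by
    refine IsOpen.inter ?_ ?_
    · exact hS.preimage (continuous_const.mul continuous_fst)
    · have h2 : {q : (G × G) × (List Bool → k) | ∀ u ∈ Wr N, q.2 u = f u} =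
          ⋂ u ∈ Wr N, {q | q.2 u = f u} := by
        ext q; simp
      change IsOpen {q : (G × G) × (List Bool → k) | ∀ u ∈ Wr N, q.2 u = f u}
      rw [h2]
      refine isOpen_biInter_finset fun u _ => ?_
      have h3 : Continuous (fun q : (G × G) × (List Bool → k) => q.2 u) :=
        (continuous_apply u).comp continuous_snd
      exact (isOpen_discrete ({f u} : Set k)).preimage h3
  refine mem_of_superset (h1.mem_nhds ⟨by simpa using (S2 hJ ι N).one_mem, fun u _ => rfl⟩) ?_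
  rintro ⟨z', f'⟩ ⟨hz, hf⟩ hcon
  apply hzf
  have h2 := FF_congr hJ hE N N z z' hz f f' hf
  have h3 := Submodule.sub_mem _ hcon h2
  simpa using h3

theorem main_abs [CompactSpace G] [Finite k] {α : Type*} [LinearOrder α] [Fintype α] {v : α → A}
    (hv : ∀ a, v a ∈ J 1) {x : α → G} (hx : ∀ a, v a = ι (x a) - 1)
    (hopen : ∀ m, IsOpen (Dsub hJ ι m : Set G)) {r : ℝ} (hr : 1 < r)
    (hgr : ∀ᶠ n in atTop, r ^ n ≤ (cnt {U | wd v U ∉ Gt J v U} n : ℝ)) :
    ∃ M, 1 ≤ M ∧ ∃ z ∈ S2 hJ ι M, ∀ f : List Bool → k, (∀ N, FF (E2 ι) f z N ∈ J N) → f = 0 := by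
  classical
  have hE := E2_mem hJ ι
  -- the language
  have hfac : Factorial {U | wd v U ∉ Gt J v U} := by
    intro a b c habc hb
    apply habc
    have h1 : wd v (a ++ b) ∈ Gt J v (a ++ b) := by
      rw [wd_append]
      refine Ge_mul_Gt hJ hv ?_ hb
      exact Submodule.mem_sup_left (Submodule.subset_span ⟨a, rfl, Or.inl rfl, rfl⟩)
    rw [wd_append]
    refine Gt_mul_Ge hJ hv h1 ?_
    exact Submodule.mem_sup_left (Submodule.subset_span ⟨c, rfl, Or.inl rfl, rfl⟩)
  -- constants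
  let ρ : ℝ := (1 + r) / 2
  have hρ1 : 1 < ρ := by simp only [ρ]; linarith
  have hρr : ρ < r := by simp only [ρ]; linarith
  obtain ⟨M₀, hM₀⟩ := (tendsto_pow_atTop_atTop_of_one_lt hρ1).eventually_gt_atTop (2 : ℝ) |>.exists
  have hM : 1 ≤ M₀ := by
    rcases Nat.eq_zero_or_pos M₀ with h | h
    · rw [h] at hM₀; norm_num at hM₀
    · exact h
  obtain ⟨Good, hG0, hG1, hG2⟩ := exists_tree hfac hr hgr (ρ := ρ) (by linarith) hρr
  refine ⟨M₀, hM, ?_⟩
  by_contra hcon
  push Not at hcon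
  -- the closed relations
  let R : List Bool → Set ((G × G) × (List Bool → k)) := fun ξ =>
    {q | q.1 ∈ S2 hJ ι M₀ ∧ q.2 ξ ≠ 0 ∧ (∀ u, u.length < ξ.length → q.2 u = 0) ∧
      ∀ N, FF (E2 ι) q.2 q.1 N ∈ J N}
  have hSopen : ∀ m, IsOpen (S2 hJ ι m : Set (G × G)) := fun m => (hopen m).prod (hopen m)
  have hRclosed : ∀ ξ, IsClosed (R ξ) := by
    intro ξ
    have h1 : R ξ = {q | q.1 ∈ S2 hJ ι M₀} ∩ ({q | q.2 ξ ≠ 0} ∩
        ((⋂ u : {u : List Bool // u.length < ξ.length}, {q | q.2 u = 0}) ∩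
        ⋂ N, {q | FF (E2 ι) q.2 q.1 N ∈ J N})) := by
      ext q
      simp [R]
    rw [h1]
    refine IsClosed.inter ?_ (IsClosed.inter ?_ (IsClosed.inter ?_ ?_))
    · exact (Subgroup.isClosed_of_isOpen _ (hSopen M₀)).preimage continuous_fst
    · have h3 : Continuous (fun q : (G × G) × (List Bool → k) => q.2 ξ) :=
        (continuous_apply ξ).comp continuous_snd
      exact (isClosed_discrete {c : k | c ≠ 0}).preimage h3
    · refine isClosed_iInter fun u => ?_
      have h3 : Continuous (fun q : (G × G) × (List Bool → k) => q.2 u.1) :=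
        (continuous_apply u.1).comp continuous_snd
      exact (isClosed_discrete ({(0 : k)} : Set k)).preimage h3
    · exact isClosed_iInter fun N => isClosed_rel hJ ι hopen N
  -- measure
  letI : MeasurableSpace (G × G) := borel (G × G)
  haveI : BorelSpace (G × G) := ⟨rfl⟩
  let μ : Measure (G × G) := Measure.haarMeasure ⊤
  haveI : IsProbabilityMeasure μ := by
    constructor
    have := Measure.haarMeasure_self (K₀ := (⊤ : TopologicalSpace.PositiveCompacts (G × G)))
    simpa using this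
  have hfi : ∀ m, (S2 hJ ι m).FiniteIndex := fun m => by
    have := Subgroup.quotient_finite_of_isOpen _ (hSopen m)
    exact Subgroup.finiteIndex_of_finite_quotient
  have hSpos : μ (S2 hJ ι M₀ : Set (G × G)) ≠ 0 := by
    haveI := hfi M₀
    intro h0
    have h1 := Subgroup.index_mul_measure (S2 hJ ι M₀) (hSopen M₀).measurableSet μ
    rw [h0, mul_zero, measure_univ] at h1
    exact zero_ne_one h1
  have hcover : (S2 hJ ι M₀ : Set (G × G)) ⊆ ⋃ ξ : List Bool, Prod.fst '' R ξ := by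
    intro z hz
    obtain ⟨f, hf1, hf2⟩ := hcon z hz
    have hex : ∃ n, ∃ u : List Bool, u.length = n ∧ f u ≠ 0 := by
      by_contra hno
      push Not at hno
      apply hf2
      funext u
      exact hno u.length u rfl
    obtain ⟨ξ, hξ1, hξ2⟩ := Nat.find_spec hex
    refine Set.mem_iUnion.2 ⟨ξ, ⟨(z, f), ⟨hz, hξ2, ?_, hf1⟩, rfl⟩⟩
    intro u hu
    by_contra hne
    exact Nat.find_min hex (by omega) ⟨u, rfl, hne⟩
  have hξ : ∃ ξ : List Bool, μ (Prod.fst '' R ξ) ≠ 0 := by
    by_contra hno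
    push Not at hno
    exact hSpos (measure_mono_null hcover (measure_iUnion_null hno))
  obtain ⟨ξ, hξ⟩ := hξ
  obtain ⟨hZ, f, hfR, hfmeas⟩ := exists_sel (R ξ) (hRclosed ξ)
  have hZS : ∀ z ∈ Prod.fst '' R ξ, z ∈ S2 hJ ι M₀ := by
    rintro _ ⟨⟨z, g⟩, hg, rfl⟩
    exact hg.1
  obtain ⟨Z', hZ'1, hZ'2, hZ'3, hZ'4⟩ := derive_all μ hJ hE hM
    (fun m => (hSopen m).measurableSet) hfi hZ.measurableSet hZS f hfmeas (by
      intro z hz s
      filter_upwards [eventually_ge_atTop s] with T hT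
      exact hJ.le hT ((hfR z hz).2.2.2 T)) ξ.length
  have hne : Z'.Nonempty := by
    rw [Set.nonempty_iff_ne_empty]
    intro h
    rw [h, measure_empty] at hZ'3
    exact hξ hZ'3.symm
  obtain ⟨z, hz⟩ := hne
  have hzR := hfR z (hZ'1 hz)
  refine descend hJ hM hv hx hρ1 hM₀ hG1 ?_ (f z) ξ hzR.2.1 hzR.2.2.1 z hzR.1 ξ.length []
    (by simp) hG0 (by simp) (by simp) (by simp) ?_
  · intro us hus
    obtain ⟨h1, h2, h3⟩ := hG2 us hus
    exact ⟨h1, h2, h3⟩
  · exact hZ'4 z hz _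

end top

end Pool.Agent.H9
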