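import Mathlib
import Pool.Agent.H9.Aug
import Pool.Agent.H9.MainAbs

set_option autoImplicit false
set_option linter.unusedSectionVars false

/-!
# Nilpotency of the augmentation ideal of a finite `p`-group and evaluation of positive words
-/

namespace Pool.Agent.H9

open Filter

section nilp

variable {k : Type*} [Field k] [Finite k] {P : Type*} [Group P] [Finite P]

theorem finite_algebra : Finite (MonoidAlgebra k P) := by
  have h1 : Finite (P →₀ k) :=
    Finite.of_injective (fun f : P →₀ k => (f : P → k)) DFunLike.coe_injective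
  exact Finite.of_equiv _ (MonoidAlgebra.coeffEquiv (R := k) (M := P)).symm

/-- a proper left ideal has a nontrivial fixed coset -/
theorem exists_fixed_coset {p : ℕ} [Fact p.Prime] [CharP k p] (hP : IsPGroup p P)
    (L : Submodule (MonoidAlgebra k P) (MonoidAlgebra k P)) (hL : L ≠ ⊤) :
    ∃ v, v ∉ L ∧ ∀ g : P, (MonoidAlgebra.single g (1 : k) - 1) * v ∈ L := by
  classical
  have hfin : Finite (MonoidAlgebra k P) := finite_algebra
  let M := MonoidAlgebra k P ⧸ L
  have hfinM : Finite M := Finite.of_surjective _ (Submodule.mkQ_surjective L)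
  letI : MulAction P M := MulAction.compHom M (MonoidAlgebra.of k P)
  have hact : ∀ (g : P) (v : MonoidAlgebra k P),
      g • (Submodule.Quotient.mk v : M) = Submodule.Quotient.mk (MonoidAlgebra.of k P g * v) :=
    fun g v => rfl
  have hzero : (0 : M) ∈ MulAction.fixedPoints P M := by
    intro g
    have h1 := hact g 0
    rw [mul_zero] at h1
    exact h1
  have hnt : ∃ v : MonoidAlgebra k P, v ∉ L := by
    by_contra hcon
    push Not at hcon
    exact hL (eq_top_iff.2 fun v _ => hcon v)
  obtain ⟨v, hv⟩ := hnt
  have hp : p ∣ Nat.card M := by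
    have h1 : addOrderOf (Submodule.Quotient.mk v : M) = p := by
      refine addOrderOf_eq_prime ?_ ?_
      · have h2 : p • v = 0 := by
          rw [← Nat.cast_smul_eq_nsmul k, CharP.cast_eq_zero, zero_smul]
        show (Submodule.Quotient.mk (p • v) : M) = 0
        rw [h2]; rfl
      · intro h2
        exact hv ((Submodule.Quotient.mk_eq_zero L).1 h2)
    rw [← h1]
    exact addOrderOf_dvd_natCard _
  obtain ⟨b, hb, hb0⟩ := hP.exists_fixed_point_of_prime_dvd_card_of_fixed_point M hp hzero
  obtain ⟨w, rfl⟩ := Submodule.Quotient.mk_surjective L b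
  refine ⟨w, ?_, ?_⟩
  · intro hw
    exact hb0 ((Submodule.Quotient.mk_eq_zero L).2 hw).symm
  · intro g
    have h1 := hb g
    rw [hact, Submodule.Quotient.eq] at h1
    rw [sub_mul, one_mul]
    exact h1

/-- the annihilators of the powers of the augmentation ideal -/
def annL (k : Type*) [Field k] (P : Type*) [Group P] (i : ℕ) :
    Submodule (MonoidAlgebra k P) (MonoidAlgebra k P) where
  carrier := {v | ∀ a ∈ pw (Iaug k P) i, a * v = 0}
  add_mem' := by
    intro v w hv hw a ha
    rw [mul_add, hv a ha, hw a ha, add_zero]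
  zero_mem' := by
    intro a _
    rw [mul_zero]
  smul_mem' := by
    intro c v hv a ha
    rw [smul_eq_mul, ← mul_assoc]
    refine hv (a * c) ?_
    have h1 := isFilt_aug.mul_mem (m := i) (n := 0) ha (isFilt_aug.mem_zero c)
    exact h1

theorem annL_succ (i : ℕ) (v : MonoidAlgebra k P)
    (hv : ∀ g : P, (MonoidAlgebra.single g (1 : k) - 1) * v ∈ annL k P i) :
    v ∈ annL k P (i + 1) := by
  intro a ha
  have h1 := pw_succ_le _ i ha
  refine Submodule.mul_induction_on h1 ?_ ?_
  · intro m hm m' hm'
    unfold Iaug at hm'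
    induction hm' using Submodule.span_induction with
    | mem x hx =>
      obtain ⟨g, rfl⟩ := hx
      rw [mul_assoc]
      exact hv g m hm
    | zero => simp
    | add x y _ _ hx hy => rw [mul_add, add_mul, hx, hy, add_zero]
    | smul c x _ hx => rw [mul_smul_comm, smul_mul_assoc, hx, smul_zero]
  · intro x y hx hy
    rw [add_mul, hx, hy, add_zero]

theorem annL_mono (i : ℕ) : annL k P i ≤ annL k P (i + 1) := by
  intro v hv a ha
  exact hv a (isFilt_aug.succ_le i ha)

theorem exists_pw_eq_bot {p : ℕ} [Fact p.Prime] [CharP k p] (hP : IsPGroup p P) :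
    ∃ r, ∀ a ∈ pw (Iaug k P) r, a = 0 := by
  classical
  have hfin : Finite (MonoidAlgebra k P) := finite_algebra
  by_cases htop : ∃ i, annL k P i = ⊤
  · obtain ⟨i, hi⟩ := htop
    refine ⟨i, ?_⟩
    intro a ha
    have h1 : (1 : MonoidAlgebra k P) ∈ annL k P i := by rw [hi]; trivial
    have h2 := h1 a ha
    rwa [mul_one] at h2
  · exfalso
    push Not at htop
    have hlt : ∀ i, annL k P i < annL k P (i + 1) := by
      intro i
      refine lt_of_le_of_ne (annL_mono i) ?_
      intro heq
      obtain ⟨v, hv1, hv2⟩ := exists_fixed_coset hP (annL k P i) (htop i)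
      apply hv1
      rw [heq]
      exact annL_succ i v hv2
    have hsm : StrictMono (fun i => annL k P i) := strictMono_nat_of_lt_succ hlt
    have hfinS : Finite (Submodule (MonoidAlgebra k P) (MonoidAlgebra k P)) :=
      Finite.of_injective (fun L => (L : Set (MonoidAlgebra k P))) SetLike.coe_injective
    exact not_injective_infinite_finite _ hsm.injective

end nilp

section words

variable {k : Type*} [Field k] {A : Type*} [Ring A] [Algebra k A]

/-- coefficients of the expansion of a positive word -/
def cw (k : Type*) [Field k] (w : List Bool) (u : List Bool) : k :=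
  (@List.count (List Bool) instBEqOfDecidableEq u w.sublists' : k)

theorem expand_list {R : Type*} [Ring R] (e : Bool → R) (w : List Bool) :
    (w.map fun b => 1 + e b).prod = (w.sublists'.map fun u => (u.map e).prod).sum := by
  induction w with
  | nil => simp
  | cons b w ih =>
    rw [List.map_cons, List.prod_cons, ih, List.sublists'_cons, List.map_append, List.sum_append,
      add_mul, one_mul]
    congr 1
    rw [List.map_map, ← List.sum_map_mul_left]
    congr 1

theorem expand_sum (e : Bool → A) (w : List Bool) (T : ℕ) (hT : w.length < T) :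
    (w.map fun b => 1 + e b).prod = ∑ u ∈ Wr T, cw k w u • (u.map e).prod := by
  rw [expand_list, Finset.sum_list_map_count]
  have h1 : w.sublists'.toFinset ⊆ Wr T := by
    intro u hu
    rw [List.mem_toFinset, List.mem_sublists'] at hu
    rw [mem_Wr]
    exact lt_of_le_of_lt hu.length_le hT
  rw [Finset.sum_subset h1]
  · refine Finset.sum_congr rfl fun u _ => ?_
    unfold cw
    rw [Nat.cast_smul_eq_nsmul]
  · intro u _ hu
    rw [List.mem_toFinset] at hu
    have h0 : @List.count (List Bool) instBEqOfDecidableEq u w.sublists' = 0 :=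
      @List.count_eq_zero_of_not_mem (List Bool) instBEqOfDecidableEq inferInstance _ _ hu
    rw [h0, zero_smul]

variable {Γ : Type*} [Group Γ]

theorem WW_apply (E : Bool → Γ →* A) (u : List Bool) (z : Γ) :
    WW E u z = (u.map fun b => E b z - 1).prod := by
  induction u with
  | nil => rfl
  | cons b u ih =>
    rw [WW_cons, Pi.mul_apply, ih, List.map_cons, List.prod_cons]
    rfl

theorem FF_cw (E : Bool → Γ →* A) (w : List Bool) (z : Γ) (T : ℕ) (hT : w.length < T) :
    FF E (cw k w) z T = (w.map fun b => E b z).prod := by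
  have h1 := expand_sum (k := k) (fun b => E b z - 1) w T hT
  have h2 : (w.map fun b => E b z) = w.map fun b => 1 + (E b z - 1) := by
    refine List.map_congr_left fun b _ => ?_
    simp
  rw [h2, h1]
  unfold FF
  refine Finset.sum_congr rfl fun u _ => ?_
  rw [WW_apply]

variable {J : ℕ → Submodule k A} {S : ℕ → Subgroup Γ} {M : ℕ} {E : Bool → Γ →* A}

theorem WW_mem (hJ : IsFilt J) (hE : ∀ b m, ∀ h ∈ S m, E b h - 1 ∈ J m) (hM : 1 ≤ M)
    (u : List Bool) {z : Γ} (hz : z ∈ S M) : WW E u z ∈ J u.length := by
  induction u with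
  | nil => exact hJ.mem_zero _
  | cons b u ih =>
    rw [WW_cons, Pi.mul_apply, List.length_cons, add_comm]
    exact hJ.mul_mem (hJ.le hM (hE b M z hz)) ih

theorem FF_trunc (hJ : IsFilt J) (hE : ∀ b m, ∀ h ∈ S m, E b h - 1 ∈ J m) (hM : 1 ≤ M)
    (f : List Bool → k) {z : Γ} (hz : z ∈ S M) {N T : ℕ} (hNT : N ≤ T) :
    FF E f z T - FF E f z N ∈ J N := by
  classical
  unfold FF
  rw [← Finset.sum_sdiff (Wr_mono hNT), add_sub_cancel_right]
  refine Submodule.sum_mem _ fun u hu => Submodule.smul_mem _ _ ?_
  rw [Finset.mem_sdiff, mem_Wr, mem_Wr] at hu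
  exact hJ.le (not_lt.1 hu.2) (WW_mem hJ hE hM u hz)

end words

end Pool.Agent.H9
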