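import Mathlib
import Pool.Agent.H9.Nilp
import Pool.Agent.H9.Inst

set_option autoImplicit false
set_option linter.unusedSectionVars false

/-!
# From the absence of power series relations to a free pro-`p` subgroup
-/

namespace Pool.Agent.H9

open Filter

variable {p : ℕ} [Fact p.Prime] {A : Type*} [Ring A] [Algebra (ZMod p) A]
variable {G : Type*} [Group G] [TopologicalSpace G] [IsTopologicalGroup G]
variable {J : ℕ → Submodule (ZMod p) A} (hJ : IsFilt J) (ι : G →* A)

theorem exists_level (hopen : ∀ m, IsOpen (Dsub hJ ι m : Set G)) {M : ℕ} (hM : 1 ≤ M)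
    (z : G × G) (hz : z ∈ S2 hJ ι M)
    (hfree : ∀ f : List Bool → ZMod p, (∀ N, FF (E2 ι) f z N ∈ J N) → f = 0) (r : ℕ) :
    ∃ N, ∀ f : List Bool → ZMod p, FF (E2 ι) f z N ∈ J N → ∀ u ∈ Wr r, f u = 0 := by
  classical
  by_contra hcon
  push Not at hcon
  let K : ℕ → Set (List Bool → ZMod p) := fun N => {f | FF (E2 ι) f z N ∈ J N ∧
    ∃ u ∈ Wr r, f u ≠ 0}
  have hE := E2_mem hJ ι
  have htd : ∀ N, K (N + 1) ⊆ K N := by
    rintro N f ⟨h1, h2⟩
    refine ⟨?_, h2⟩
    have h3 := FF_trunc hJ hE hM f hz (Nat.le_succ N)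
    have h4 := Submodule.sub_mem _ (hJ.succ_le N h1) h3
    rwa [sub_sub_cancel] at h4
  have hcl : ∀ N, IsClosed (K N) := by
    intro N
    have h1 : IsClosed {f : List Bool → ZMod p | FF (E2 ι) f z N ∈ J N} :=
      (isClosed_rel hJ ι hopen N).preimage (Continuous.prodMk_right z)
    have h2 : IsClosed (⋃ u ∈ Wr r, {f : List Bool → ZMod p | f u ≠ 0}) := by
      refine isClosed_biUnion_finset fun u _ => ?_
      have h3 : Continuous (fun f : List Bool → ZMod p => f u) := continuous_apply u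
      exact (isClosed_discrete ({c : ZMod p | c ≠ 0})).preimage h3
    have h3 : K N = {f : List Bool → ZMod p | FF (E2 ι) f z N ∈ J N} ∩
        ⋃ u ∈ Wr r, {f : List Bool → ZMod p | f u ≠ 0} := by
      ext f
      simp [K]
    rw [h3]
    exact h1.inter h2
  have hne : ∀ N, (K N).Nonempty := by
    intro N
    obtain ⟨f, hf1, u, hu1, hu2⟩ := hcon N
    exact ⟨f, hf1, u, hu1, hu2⟩
  obtain ⟨f, hf⟩ := IsCompact.nonempty_iInter_of_sequence_nonempty_isCompact_isClosed K htd hne
    (hcl 0).isCompact hcl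
  rw [Set.mem_iInter] at hf
  have h0 := hfree f fun N => (hf N).1
  obtain ⟨u, -, hu⟩ := (hf 0).2
  apply hu
  rw [h0]
  rfl

/-- evaluation of a positive word -/
def ev {H : Type*} [Group H] (x y : H) (w : List Bool) : H := (w.map fun b => cond b x y).prod

theorem ev_nil {H : Type*} [Group H] (x y : H) : ev x y [] = 1 := rfl

theorem ev_append {H : Type*} [Group H] (x y : H) (w w' : List Bool) :
    ev x y (w ++ w') = ev x y w * ev x y w' := by simp [ev]

theorem ev_true {H : Type*} [Group H] (x y : H) : ev x y [true] = x := by simp [ev]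
theorem ev_false {H : Type*} [Group H] (x y : H) : ev x y [false] = y := by simp [ev]

theorem map_ev (z : G × G) (w : List Bool) :
    ι (ev z.1 z.2 w) = (w.map fun b => E2 ι b z).prod := by
  unfold ev
  rw [map_list_prod, List.map_map]
  congr 1
  refine List.map_congr_left fun b _ => ?_
  cases b <;> rfl

theorem ev_congr {M : ℕ} (hM : 1 ≤ M) (z : G × G) (hz : z ∈ S2 hJ ι M) {P : Type*} [Group P]
    {r : ℕ} (hr : ∀ a ∈ pw (Iaug (ZMod p) P) r, a = 0) {N : ℕ}
    (hN : ∀ f : List Bool → ZMod p, FF (E2 ι) f z N ∈ J N → ∀ u ∈ Wr r, f u = 0) (a b : P)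
    (w w' : List Bool) (h : ι (ev z.1 z.2 w) - ι (ev z.1 z.2 w') ∈ J N) :
    ev a b w = ev a b w' := by
  classical
  let T := max N (max w.length w'.length) + 1
  have hT1 : w.length < T := by simp only [T]; omega
  have hT2 : w'.length < T := by simp only [T]; omega
  have hT3 : N ≤ T := by simp only [T]; omega
  have hE := E2_mem hJ ι
  have h1 : FF (E2 ι) (cw (ZMod p) w - cw (ZMod p) w') z T ∈ J N := by
    rw [FF_sub]
    simp only [Pi.sub_apply]
    rw [FF_cw _ _ _ _ hT1, FF_cw _ _ _ _ hT2, ← map_ev, ← map_ev]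
    exact h
  have h2 : FF (E2 ι) (cw (ZMod p) w - cw (ZMod p) w') z N ∈ J N := by
    have h3 := FF_trunc hJ hE hM (cw (ZMod p) w - cw (ZMod p) w') hz hT3
    have h4 := Submodule.sub_mem _ h1 h3
    rwa [sub_sub_cancel] at h4
  have h3 := hN _ h2
  let e : Bool → MonoidAlgebra (ZMod p) P :=
    fun c => MonoidAlgebra.single (cond c a b) (1 : ZMod p) - 1
  have he : ∀ c, 1 + e c = MonoidAlgebra.of (ZMod p) P (cond c a b) := by
    intro c
    simp only [e, MonoidAlgebra.of_apply]
    abel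
  have hw : ∀ w : List Bool, (w.map fun c => 1 + e c).prod =
      MonoidAlgebra.of (ZMod p) P (ev a b w) := by
    intro w
    unfold ev
    rw [map_list_prod, List.map_map]
    congr 1
    exact List.map_congr_left fun c _ => he c
  have e1 := expand_sum (k := ZMod p) e w T hT1
  have e2 := expand_sum (k := ZMod p) e w' T hT2
  rw [hw] at e1 e2
  have hsmall : ∀ u : List Bool, r ≤ u.length → (u.map e).prod = 0 := by
    intro u hu
    apply hr
    have h4 : ∀ u : List Bool, (u.map e).prod ∈ pw (Iaug (ZMod p) P) u.length := by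
      intro u
      induction u with
      | nil => exact isFilt_aug.mem_zero _
      | cons c u ih =>
        rw [List.map_cons, List.prod_cons, List.length_cons, add_comm]
        refine isFilt_aug.mul_mem ?_ ih
        rw [pw_pos _ le_rfl, pow_one]
        exact single_sub_one_mem _
    exact isFilt_aug.le hu (h4 u)
  have hdiff : MonoidAlgebra.of (ZMod p) P (ev a b w) - MonoidAlgebra.of (ZMod p) P (ev a b w') =
      0 := by
    rw [e1, e2, ← Finset.sum_sub_distrib]
    refine Finset.sum_eq_zero fun u _ => ?_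
    by_cases hu : u ∈ Wr r
    · have h4 := h3 u hu
      simp only [Pi.sub_apply] at h4
      rw [← sub_smul, h4, zero_smul]
    · rw [mem_Wr, not_lt] at hu
      rw [hsmall u hu, smul_zero, smul_zero, sub_zero]
  exact MonoidAlgebra.of_injective (sub_eq_zero.1 hdiff)

/-- elements congruent to positive words -/
def wordSub (z : G × G) (N : ℕ) (hfi : (Dsub hJ ι N).index ≠ 0) : Subgroup G where
  carrier := {g | ∃ w, ι g - ι (ev z.1 z.2 w) ∈ J N}
  mul_mem' := by
    rintro g h ⟨w, hw⟩ ⟨w', hw'⟩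
    refine ⟨w ++ w', ?_⟩
    rw [ev_append, map_mul, map_mul]
    have h1 : ι g * ι h - ι (ev z.1 z.2 w) * ι (ev z.1 z.2 w') =
        (ι g - ι (ev z.1 z.2 w)) * ι h + ι (ev z.1 z.2 w) * (ι h - ι (ev z.1 z.2 w')) := by
      noncomm_ring
    rw [h1]
    exact Submodule.add_mem _ (hJ.le (by omega) (hJ.mul_mem hw (hJ.mem_zero _)))
      (hJ.le (by omega) (hJ.mul_mem (hJ.mem_zero _) hw'))
  one_mem' := ⟨[], by rw [ev_nil, sub_self]; exact Submodule.zero_mem _⟩
  inv_mem' := by
    rintro g ⟨w, hw⟩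
    obtain ⟨n, hn0, -, hn⟩ := Subgroup.exists_pow_mem_of_index_ne_zero hfi g
    -- powers
    have hpow : ∀ i : ℕ, ∃ w, ι (g ^ i) - ι (ev z.1 z.2 w) ∈ J N := by
      intro i
      induction i with
      | zero => exact ⟨[], by rw [ev_nil, pow_zero, sub_self]; exact Submodule.zero_mem _⟩
      | succ i ih =>
        obtain ⟨w', hw'⟩ := ih
        refine ⟨w' ++ w, ?_⟩
        rw [ev_append, pow_succ, map_mul, map_mul]
        have h1 : ι (g ^ i) * ι g - ι (ev z.1 z.2 w') * ι (ev z.1 z.2 w) =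
            (ι (g ^ i) - ι (ev z.1 z.2 w')) * ι g +
              ι (ev z.1 z.2 w') * (ι g - ι (ev z.1 z.2 w)) := by
          noncomm_ring
        rw [h1]
        exact Submodule.add_mem _ (hJ.le (by omega) (hJ.mul_mem hw' (hJ.mem_zero _)))
          (hJ.le (by omega) (hJ.mul_mem (hJ.mem_zero _) hw))
    obtain ⟨w', hw'⟩ := hpow (n - 1)
    refine ⟨w', ?_⟩
    have h1 : g ^ (n - 1) = g⁻¹ * g ^ n := by
      obtain ⟨m, rfl⟩ := Nat.exists_eq_succ_of_ne_zero hn0.ne'
      simp [pow_succ']
    have h2 : ι g⁻¹ - ι (g ^ (n - 1)) ∈ J N := by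
      have h3 : ι g⁻¹ - ι (g ^ (n - 1)) = -(ι g⁻¹ * (ι (g ^ n) - 1)) := by
        rw [h1, map_mul]; noncomm_ring
      rw [h3]
      exact Submodule.neg_mem _ (hJ.le (by omega) (hJ.mul_mem (hJ.mem_zero _) hn))
    have h3 := Submodule.add_mem _ h2 hw'
    rwa [sub_add_sub_cancel] at h3

theorem final_hom [CompactSpace G] (hopen : ∀ m, IsOpen (Dsub hJ ι m : Set G)) {M : ℕ}
    (hM : 1 ≤ M) (z : G × G) (hz : z ∈ S2 hJ ι M)
    (hfree : ∀ f : List Bool → ZMod p, (∀ N, FF (E2 ι) f z N ∈ J N) → f = 0)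
    (P : Type*) [Group P] [Finite P] (hP : IsPGroup p P) (a b : P) :
    ∃ f : ↥((Subgroup.closure ({z.1, z.2} : Set G)).topologicalClosure) →* P,
      IsOpen ((f.ker : Set ↥((Subgroup.closure ({z.1, z.2} : Set G)).topologicalClosure))) ∧
      (∀ h : ↥((Subgroup.closure ({z.1, z.2} : Set G)).topologicalClosure),
        (h : G) = z.1 → f h = a) ∧
      (∀ h : ↥((Subgroup.closure ({z.1, z.2} : Set G)).topologicalClosure),
        (h : G) = z.2 → f h = b) := by
  classical
  obtain ⟨r, hr⟩ := exists_pw_eq_bot (k := ZMod p) hP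
  obtain ⟨N, hN⟩ := exists_level hJ ι hopen hM z hz hfree r
  have hcongr := ev_congr hJ ι hM z hz hr hN a b
  have hfin : Finite (G ⧸ Dsub hJ ι N) := Subgroup.quotient_finite_of_isOpen _ (hopen N)
  have hfi : (Dsub hJ ι N).index ≠ 0 := by
    show Nat.card (G ⧸ Dsub hJ ι N) ≠ 0
    exact Nat.card_pos.ne'
  let K := wordSub hJ ι z N hfi
  have hDK : Dsub hJ ι N ≤ K := by
    intro g hg
    exact ⟨[], by rw [ev_nil, map_one]; exact hg⟩
  have hKopen : IsOpen (K : Set G) := Subgroup.isOpen_mono hDK (hopen N)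
  have hKcl : IsClosed (K : Set G) := Subgroup.isClosed_of_isOpen _ hKopen
  have hcl : (Subgroup.closure ({z.1, z.2} : Set G)).topologicalClosure ≤ K := by
    refine Subgroup.topologicalClosure_minimal _ ?_ hKcl
    rw [Subgroup.closure_le]
    intro g hg
    rcases hg with h | h
    · exact ⟨[true], by rw [ev_true, h, sub_self]; exact Submodule.zero_mem _⟩
    · have h' : g = z.2 := h
      exact ⟨[false], by rw [ev_false, h', sub_self]; exact Submodule.zero_mem _⟩
  let H := (Subgroup.closure ({z.1, z.2} : Set G)).topologicalClosure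
  have hch : ∀ h : H, ∃ w, ι (h : G) - ι (ev z.1 z.2 w) ∈ J N := fun h => hcl h.2
  choose W hW using hch
  have hmain : ∀ (h : H) (w : List Bool), ι (h : G) - ι (ev z.1 z.2 w) ∈ J N →
      ev a b (W h) = ev a b w := by
    intro h w hw
    refine hcongr (W h) w ?_
    have h1 := Submodule.sub_mem _ hw (hW h)
    rwa [sub_sub_sub_cancel_left] at h1
  let f : H →* P := MonoidHom.mk' (fun h => ev a b (W h)) (by
    intro h h'
    rw [← ev_append]
    refine hmain (h * h') (W h ++ W h') ?_
    rw [ev_append, Subgroup.coe_mul, map_mul, map_mul]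
    have h1 : ι (h : G) * ι (h' : G) - ι (ev z.1 z.2 (W h)) * ι (ev z.1 z.2 (W h')) =
        (ι (h : G) - ι (ev z.1 z.2 (W h))) * ι (h' : G) +
          ι (ev z.1 z.2 (W h)) * (ι (h' : G) - ι (ev z.1 z.2 (W h'))) := by
      noncomm_ring
    rw [h1]
    exact Submodule.add_mem _ (hJ.le (by omega) (hJ.mul_mem (hW h) (hJ.mem_zero _)))
      (hJ.le (by omega) (hJ.mul_mem (hJ.mem_zero _) (hW h'))))
  refine ⟨f, ?_, ?_, ?_⟩
  · have h1 : (Dsub hJ ι N).subgroupOf H ≤ f.ker := by
      intro h hh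
      rw [Subgroup.mem_subgroupOf] at hh
      rw [MonoidHom.mem_ker]
      have h2 := hmain h [] (by rw [ev_nil, map_one]; exact hh)
      rw [ev_nil] at h2
      exact h2
    refine Subgroup.isOpen_mono h1 ?_
    exact (hopen N).preimage continuous_subtype_val
  · intro h hh
    have h2 := hmain h [true] (by rw [ev_true, hh, sub_self]; exact Submodule.zero_mem _)
    rw [ev_true] at h2
    exact h2
  · intro h hh
    have h2 := hmain h [false] (by rw [ev_false, hh, sub_self]; exact Submodule.zero_mem _)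
    rw [ev_false] at h2
    exact h2

end Pool.Agent.H9
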